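import Pool.Agent.Run7.h850.Stage2

/-!
Contraction of an edge of a path.
-/

set_option autoImplicit false

namespace Run7.h850

open Finset

variable {α : Type*} [Fintype α] [DecidableEq α]
variable {V : Finset α} {s t : α}

/-- contract the edge `x y`: the vertex `y` is merged into `x` -/
def contr (x y : α) (S : SimpleGraph α) : SimpleGraph α where
  Adj u w := u ≠ w ∧ u ≠ y ∧ w ≠ y ∧
    (S.Adj u w ∨ (u = x ∧ S.Adj y w) ∨ (w = x ∧ S.Adj u y))
  symm := ⟨fun u w h => by
    obtain ⟨h1, h2, h3, h4⟩ := h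
    refine ⟨h1.symm, h3, h2, ?_⟩
    rcases h4 with h4 | ⟨h4, h5⟩ | ⟨h4, h5⟩
    · exact Or.inl h4.symm
    · exact Or.inr (Or.inr ⟨h4, h5.symm⟩)
    · exact Or.inr (Or.inl ⟨h4, h5.symm⟩)⟩
  loopless := ⟨fun u h => h.1 rfl⟩

omit [Fintype α] [DecidableEq α] in
theorem contr_iSup {ι : Type*} (x y : α) (c : ι → SimpleGraph α) :
    contr x y (⨆ i, c i) = ⨆ i, contr x y (c i) := by
  ext u w
  simp only [contr, SimpleGraph.iSup_adj]
  constructor
  · rintro ⟨h1, h2, h3, h4⟩
    rcases h4 with ⟨i, h4⟩ | ⟨h4, i, h5⟩ | ⟨h4, i, h5⟩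
    · exact ⟨i, h1, h2, h3, Or.inl h4⟩
    · exact ⟨i, h1, h2, h3, Or.inr (Or.inl ⟨h4, h5⟩)⟩
    · exact ⟨i, h1, h2, h3, Or.inr (Or.inr ⟨h4, h5⟩)⟩
  · rintro ⟨i, h1, h2, h3, h4⟩
    refine ⟨h1, h2, h3, ?_⟩
    rcases h4 with h4 | ⟨h4, h5⟩ | ⟨h4, h5⟩
    · exact Or.inl ⟨i, h4⟩
    · exact Or.inr (Or.inl ⟨h4, i, h5⟩)
    · exact Or.inr (Or.inr ⟨h4, i, h5⟩)

theorem nb_two {S : SimpleGraph α} {v a b : α} (hc : (nb S v).card = 2) (ha : S.Adj v a)
    (hb : S.Adj v b) (hab : a ≠ b) {w : α} (hw : S.Adj v w) : w = a ∨ w = b := by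
  by_contra h
  push Not at h
  have h1 : ({w, a, b} : Finset α) ⊆ nb S v := by
    intro x hx
    simp only [mem_insert, mem_singleton] at hx
    rw [mem_nb]
    rcases hx with rfl | rfl | rfl
    · exact hw
    · exact ha
    · exact hb
  have h2 := card_le_card h1
  rw [hc, card_insert_of_notMem, card_pair hab] at h2
  · omega
  · simp only [mem_insert, mem_singleton, not_or]
    exact h

theorem IsPth.card_two {S : SimpleGraph α} (h : IsPth V s t S) {v a b : α} (ha : S.Adj v a)
    (hb : S.Adj v b) (hab : a ≠ b) : v ≠ s ∧ v ≠ t ∧ (nb S v).card = 2 := by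
  have h1 : ({a, b} : Finset α) ⊆ nb S v := by
    intro x hx
    simp only [mem_insert, mem_singleton] at hx
    rw [mem_nb]
    rcases hx with rfl | rfl
    · exact ha
    · exact hb
  have h2 := card_le_card h1
  rw [card_pair hab] at h2
  have h3 : v ≠ s := by rintro rfl; rw [h.ds] at h2; omega
  have h4 : v ≠ t := by rintro rfl; rw [h.dt] at h2; omega
  refine ⟨h3, h4, ?_⟩
  rcases h.di v h3 h4 with h5 | h5
  · omega
  · exact h5

/-- a path contains no triangle -/
theorem IsPth.no_tri {S : SimpleGraph α} (h : IsPth V s t S) {x y z : α} (h1 : S.Adj x y)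
    (h2 : S.Adj y z) (h3 : S.Adj x z) : False := by
  have c1 := h.card_two h1 h3 h2.ne
  have c2 := h.card_two h1.symm h2 h3.ne
  have c3 := h.card_two h3.symm h2.symm h1.ne
  refine h.conn {w | w = x ∨ w = y ∨ w = z} ?_ ?_ x (Or.inl rfl) y h1
  · rintro u (rfl | rfl | rfl) v hv
    · rcases nb_two c1.2.2 h1 h3 h2.ne hv with rfl | rfl
      · exact Or.inr (Or.inl rfl)
      · exact Or.inr (Or.inr rfl)
    · rcases nb_two c2.2.2 h1.symm h2 h3.ne hv with rfl | rfl
      · exact Or.inl rfl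
      · exact Or.inr (Or.inr rfl)
    · rcases nb_two c3.2.2 h3.symm h2.symm h1.ne hv with rfl | rfl
      · exact Or.inl rfl
      · exact Or.inr (Or.inl rfl)
  · rintro (h4 | h4 | h4)
    · exact c1.1 h4.symm
    · exact c2.1 h4.symm
    · exact c3.1 h4.symm

/-- an inner vertex has another neighbour -/
theorem IsPth.other {S : SimpleGraph α} (h : IsPth V s t S) {x y : α} (hxy : S.Adj x y)
    (hs : y ≠ s) (ht : y ≠ t) : ∃ q, S.Adj y q ∧ q ≠ x := by
  have hc : (nb S y).card = 2 := by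
    rcases h.di y hs ht with h0 | h2
    · rw [card_eq_zero] at h0
      have := mem_nb.2 hxy.symm
      rw [h0] at this
      exact absurd this (notMem_empty _)
    · exact h2
  have h1 : 1 < (nb S y).card := by omega
  obtain ⟨q, hq, hne⟩ := exists_mem_ne h1 x
  exact ⟨q, mem_nb.1 hq, hne⟩

theorem card_nb_contr {S : SimpleGraph α} (h : IsPth V s t S) {x y : α} (hxy : S.Adj x y)
    (hs : y ≠ s) (ht : y ≠ t) {u : α} (hu : u ≠ y) : (nb (contr x y S) u).card = (nb S u).card := by
  obtain ⟨q, hq, hqx⟩ := h.other hxy hs ht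
  have hy := (h.card_two hxy.symm hq hqx.symm).2.2
  have hny : ∀ w, S.Adj y w → w = x ∨ w = q := fun w hw => nb_two hy hxy.symm hq hqx.symm hw
  have hxq : ¬ S.Adj x q := fun h1 => h.no_tri hxy hq h1
  by_cases hux : u = x
  · subst hux
    have h1 : nb (contr u y S) u = insert q ((nb S u).erase y) := by
      ext w
      rw [mem_nb, mem_insert, mem_erase, mem_nb]
      constructor
      · rintro ⟨h1, h2, h3, h4⟩
        rcases h4 with h4 | ⟨_, h5⟩ | ⟨h4, h5⟩
        · exact Or.inr ⟨h3, h4⟩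
        · rcases hny w h5 with rfl | rfl
          · exact absurd rfl h1
          · exact Or.inl rfl
        · exact absurd h4.symm h1
      · rintro (rfl | ⟨h3, h4⟩)
        · exact ⟨hqx.symm, hu, hq.ne.symm, Or.inr (Or.inl ⟨rfl, hq⟩)⟩
        · exact ⟨h4.ne, hu, h3, Or.inl h4⟩
    rw [h1, card_insert_of_notMem, card_erase_of_mem (mem_nb.2 hxy)]
    · have : 0 < (nb S u).card := card_pos.2 ⟨y, mem_nb.2 hxy⟩
      omega
    · rw [mem_erase, mem_nb]
      exact fun h2 => hxq h2.2
  · by_cases huy : S.Adj u y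
    · have hnx : ¬ S.Adj u x := fun h1 => h.no_tri h1 hxy huy
      have h1 : nb (contr x y S) u = insert x ((nb S u).erase y) := by
        ext w
        rw [mem_nb, mem_insert, mem_erase, mem_nb]
        constructor
        · rintro ⟨h1, h2, h3, h4⟩
          rcases h4 with h4 | ⟨h4, _⟩ | ⟨h4, h5⟩
          · exact Or.inr ⟨h3, h4⟩
          · exact absurd h4 hux
          · exact Or.inl h4
        · rintro (rfl | ⟨h3, h4⟩)
          · exact ⟨hux, hu, hxy.ne, Or.inr (Or.inr ⟨rfl, huy⟩)⟩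
          · exact ⟨h4.ne, hu, h3, Or.inl h4⟩
      rw [h1, card_insert_of_notMem, card_erase_of_mem (mem_nb.2 huy)]
      · have : 0 < (nb S u).card := card_pos.2 ⟨y, mem_nb.2 huy⟩
        omega
      · rw [mem_erase, mem_nb]
        exact fun h2 => hnx h2.2
    · have h1 : nb (contr x y S) u = nb S u := by
        ext w
        rw [mem_nb, mem_nb]
        constructor
        · rintro ⟨h1, h2, h3, h4⟩
          rcases h4 with h4 | ⟨h4, _⟩ | ⟨h4, h5⟩
          · exact h4
          · exact absurd h4 hux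
          · exact absurd h5 huy
        · intro h4
          refine ⟨h4.ne, hu, ?_, Or.inl h4⟩
          rintro rfl
          exact huy h4
      rw [h1]

theorem IsPth.contr {S : SimpleGraph α} (h : IsPth V s t S) {x y : α} (hxy : S.Adj x y)
    (hs : y ≠ s) (ht : y ≠ t) : IsPth (V.erase y) s t (contr x y S) where
  supp := by
    rintro u w ⟨h1, h2, h3, h4⟩
    rw [mem_erase]
    refine ⟨h2, ?_⟩
    rcases h4 with h4 | ⟨h4, _⟩ | ⟨_, h5⟩
    · exact h.supp _ _ h4
    · rw [h4]; exact h.supp _ _ hxy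
    · exact h.supp _ _ h5
  ds := by rw [card_nb_contr h hxy hs ht hs.symm, h.ds]
  dt := by rw [card_nb_contr h hxy hs ht ht.symm, h.dt]
  di := by
    intro v hvs hvt
    by_cases hv : v = y
    · left
      rw [card_eq_zero, eq_empty_iff_forall_notMem]
      intro w hw
      rw [mem_nb] at hw
      exact hw.2.1 hv
    · rw [card_nb_contr h hxy hs ht hv]
      exact h.di v hvs hvt
  conn := by
    intro W hW hsW u hu w huw
    have key := h.conn {z | (z ≠ y ∧ z ∈ W) ∨ (z = y ∧ x ∈ W)} ?_ ?_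
    · obtain ⟨h1, h2, h3, h4⟩ := huw
      rcases h4 with h4 | ⟨h4, h5⟩ | ⟨h4, h5⟩
      · exact key u (Or.inl ⟨h2, hu⟩) w h4
      · exact key y (Or.inr ⟨rfl, h4 ▸ hu⟩) w h5
      · exact key u (Or.inl ⟨h2, hu⟩) y h5
    · rintro a (⟨ha, haW⟩ | ⟨rfl, hxW⟩) b hab
      · by_cases hb : b = y
        · subst hb
          right
          refine ⟨rfl, ?_⟩
          by_cases hax : a = x
          · rw [← hax]; exact haW
          · exact hW a haW x ⟨hax, ha, hxy.ne, Or.inr (Or.inr ⟨rfl, hab⟩)⟩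
        · left
          exact ⟨hb, hW a haW b ⟨hab.ne, ha, hb, Or.inl hab⟩⟩
      · have hb : b ≠ a := hab.ne.symm
        left
        refine ⟨hb, ?_⟩
        by_cases hbx : b = x
        · rw [hbx]; exact hxW
        · exact hW x hxW b ⟨fun e => hbx e.symm, hxy.ne, hb, Or.inr (Or.inl ⟨rfl, hab⟩)⟩
    · rintro (⟨_, h1⟩ | ⟨h1, _⟩)
      · exact hsW h1
      · exact hs h1.symm

theorem IsHam.contr {S : SimpleGraph α} (h : IsHam V s t S) {x y : α} (hxy : S.Adj x y)
    (hs : y ≠ s) (ht : y ≠ t) : IsHam (V.erase y) s t (Run7.h850.contr x y S) where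
  toIsPth := h.toIsPth.contr hxy hs ht
  all := by
    intro v hv
    rw [mem_erase] at hv
    obtain ⟨u, hu⟩ := h.all v hv.2
    have h1 : 0 < (nb (Run7.h850.contr x y S) v).card := by
      rw [card_nb_contr h.toIsPth hxy hs ht hv.1]
      exact card_pos.2 ⟨u, mem_nb.2 hu⟩
    obtain ⟨w, hw⟩ := card_pos.1 h1
    exact ⟨w, mem_nb.1 hw⟩

/-- A path is determined by its contraction and the other neighbour of `y`. -/
theorem contr_inj {S T : SimpleGraph α} (h : IsPth V s t S) (h' : IsPth V s t T) {x y q : α}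
    (hxy : S.Adj x y) (hxy' : T.Adj x y) (hq : S.Adj y q) (hq' : T.Adj y q) (hqx : q ≠ x)
    (heq : contr x y S = contr x y T) : S = T := by
  have key : ∀ {S T : SimpleGraph α}, IsPth V s t S → IsPth V s t T → S.Adj x y → T.Adj x y →
      S.Adj y q → T.Adj y q → contr x y S = contr x y T → ∀ u w, S.Adj u w → T.Adj u w := by
    intro S T h h' hxy hxy' hq hq' heq u w huw
    have hy := (h.card_two hxy.symm hq hqx.symm).2.2
    have hny : ∀ w, S.Adj y w → w = x ∨ w = q := fun w hw => nb_two hy hxy.symm hq hqx.symm hw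
    have hy' := (h'.card_two hxy'.symm hq' hqx.symm).2.2
    have hny' : ∀ w, T.Adj y w → w = x ∨ w = q :=
      fun w hw => nb_two hy' hxy'.symm hq' hqx.symm hw
    by_cases hu : u = y
    · subst hu
      rcases hny w huw with rfl | rfl
      · exact hxy'.symm
      · exact hq'
    · by_cases hw : w = y
      · subst hw
        rcases hny u huw.symm with rfl | rfl
        · exact hxy'
        · exact hq'.symm
      · have h1 : (contr x y S).Adj u w := ⟨huw.ne, hu, hw, Or.inl huw⟩
        rw [heq] at h1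
        obtain ⟨h2, _, _, h4⟩ := h1
        rcases h4 with h4 | ⟨rfl, h5⟩ | ⟨rfl, h5⟩
        · exact h4
        · rcases hny' w h5 with rfl | rfl
          · exact absurd rfl h2
          · exact absurd huw (fun h6 => h.no_tri hxy hq h6)
        · rcases hny' u h5.symm with rfl | rfl
          · exact absurd rfl h2
          · exact absurd huw.symm (fun h6 => h.no_tri hxy hq h6)
  ext u w
  exact ⟨key h h' hxy hxy' hq hq' heq u w, key h' h hxy' hxy hq' hq heq.symm u w⟩

end Run7.h850
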