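import Pool.Agent.Run7.h850.Main

/-!
Edge graphs of paths; the number of Hamiltonian paths.
-/

set_option autoImplicit false

namespace Run7.h850

open Finset

variable {α : Type*} [Fintype α] [DecidableEq α]
variable {V : Finset α} {s t : α}

/-- the graph formed by the edges of a walk -/
def eg {G : SimpleGraph α} {u v : α} (p : G.Walk u v) : SimpleGraph α :=
  SimpleGraph.fromEdgeSet {e | e ∈ p.edges}

omit [Fintype α] [DecidableEq α] in
theorem eg_cons {G : SimpleGraph α} {u v w : α} (h : G.Adj u v) (p : G.Walk v w) :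
    eg (SimpleGraph.Walk.cons h p) = eg p ⊔ SimpleGraph.edge u v := by
  ext a b
  simp only [eg, SimpleGraph.fromEdgeSet_adj, SimpleGraph.Walk.edges_cons, List.mem_cons,
    Set.mem_setOf_eq, SimpleGraph.sup_adj, SimpleGraph.edge_adj, Sym2.eq_iff]
  tauto

omit [Fintype α] [DecidableEq α] in
theorem eg_nil {G : SimpleGraph α} {u : α} : eg (SimpleGraph.Walk.nil : G.Walk u u) = ⊥ := by
  ext a b
  simp [eg]

theorem IsHam.single (hst : s ≠ t) : IsHam {s, t} s t (SimpleGraph.edge s t) where
  supp := by
    intro u v h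
    rw [SimpleGraph.edge_adj] at h
    rw [mem_insert, mem_singleton]
    tauto
  ds := by
    rw [card_eq_one]
    refine ⟨t, ?_⟩
    ext w
    rw [mem_nb, SimpleGraph.edge_adj, mem_singleton]
    constructor
    · rintro ⟨⟨_, h⟩ | ⟨h, _⟩, _⟩
      · exact h
      · exact absurd h hst
    · rintro rfl
      exact ⟨Or.inl ⟨rfl, rfl⟩, hst⟩
  dt := by
    rw [card_eq_one]
    refine ⟨s, ?_⟩
    ext w
    rw [mem_nb, SimpleGraph.edge_adj, mem_singleton]
    constructor
    · rintro ⟨⟨h, _⟩ | ⟨_, h⟩, _⟩
      · exact absurd h.symm hst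
      · exact h
    · rintro rfl
      exact ⟨Or.inr ⟨rfl, rfl⟩, hst.symm⟩
  di := by
    intro v h1 h2
    left
    rw [card_eq_zero, eq_empty_iff_forall_notMem]
    intro w hw
    rw [mem_nb, SimpleGraph.edge_adj] at hw
    tauto
  conn := by
    intro W hW hs u hu v h
    rw [SimpleGraph.edge_adj] at h
    rcases h with ⟨⟨h1, _⟩ | ⟨h1, h2⟩, h3⟩
    · exact hs (h1 ▸ hu)
    · exact hs (hW t (h1 ▸ hu) s (by
        rw [SimpleGraph.edge_adj]; exact ⟨Or.inr ⟨rfl, rfl⟩, hst.symm⟩))
  all := by
    intro v hv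
    rw [mem_insert, mem_singleton] at hv
    rcases hv with rfl | rfl
    · exact ⟨t, by rw [SimpleGraph.edge_adj]; exact ⟨Or.inl ⟨rfl, rfl⟩, hst⟩⟩
    · exact ⟨s, by rw [SimpleGraph.edge_adj]; exact ⟨Or.inr ⟨rfl, rfl⟩, hst.symm⟩⟩

theorem IsHam.cons {S : SimpleGraph α} {v : α} (h : IsHam V v t S) (hsV : s ∉ V) (hv : v ∈ V)
    (ht : t ∈ V) (hvt : v ≠ t) : IsHam (insert s V) s t (S ⊔ SimpleGraph.edge s v) := by
  have hsv : s ≠ v := by rintro rfl; exact hsV hv
  have hst : s ≠ t := by rintro rfl; exact hsV ht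
  have hnS : ∀ w, ¬ S.Adj s w := fun w hw => hsV (h.supp _ _ hw)
  have hnS' : ∀ w, ¬ S.Adj w s := fun w hw => hnS w hw.symm
  have hadj : ∀ u w, (S ⊔ SimpleGraph.edge s v).Adj u w ↔
      S.Adj u w ∨ (u = s ∧ w = v) ∨ (u = v ∧ w = s) := by
    intro u w
    rw [SimpleGraph.sup_adj, SimpleGraph.edge_adj]
    constructor
    · rintro (h1 | ⟨h1, _⟩)
      · exact Or.inl h1
      · exact Or.inr h1
    · rintro (h1 | h1)
      · exact Or.inl h1
      · refine Or.inr ⟨h1, ?_⟩
        rcases h1 with ⟨rfl, rfl⟩ | ⟨rfl, rfl⟩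
        · exact hsv
        · exact hsv.symm
  have hns : nb (S ⊔ SimpleGraph.edge s v) s = {v} := by
    ext w
    rw [mem_nb, hadj, mem_singleton]
    constructor
    · rintro (h1 | h1 | h1)
      · exact absurd h1 (hnS w)
      · exact h1.2
      · exact absurd h1.1 hsv
    · rintro rfl
      exact Or.inr (Or.inl ⟨rfl, rfl⟩)
  have hnv : nb (S ⊔ SimpleGraph.edge s v) v = insert s (nb S v) := by
    ext w
    rw [mem_nb, hadj, mem_insert, mem_nb]
    constructor
    · rintro (h1 | h1 | h1)
      · exact Or.inr h1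
      · exact absurd h1.1.symm hsv
      · exact Or.inl h1.2
    · rintro (rfl | h1)
      · exact Or.inr (Or.inr ⟨rfl, rfl⟩)
      · exact Or.inl h1
  have hno : ∀ u, u ≠ s → u ≠ v → nb (S ⊔ SimpleGraph.edge s v) u = nb S u := by
    intro u h1 h2
    ext w
    rw [mem_nb, hadj, mem_nb]
    tauto
  refine ⟨⟨?_, ?_, ?_, ?_, ?_⟩, ?_⟩
  · intro u w huw
    rw [mem_insert]
    rcases (hadj u w).1 huw with h1 | h1 | h1
    · exact Or.inr (h.supp _ _ h1)
    · exact Or.inl h1.1
    · exact Or.inr (h1.1 ▸ hv)
  · rw [hns, card_singleton]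
  · rw [hno t hst.symm hvt.symm, h.dt]
  · intro u hus hut
    by_cases huv : u = v
    · right
      rw [huv, hnv, card_insert_of_notMem, h.ds]
      rw [mem_nb]; exact hnS' v
    · rw [hno u hus huv]
      exact h.di u huv hut
  · intro W hW hsW u hu w huw
    have hvW : v ∉ W := fun h1 => hsW (hW v h1 s ((hadj v s).2 (Or.inr (Or.inr ⟨rfl, rfl⟩))))
    rcases (hadj u w).1 huw with h1 | h1 | h1
    · exact h.conn W (fun a ha b hab => hW a ha b ((hadj a b).2 (Or.inl hab))) hvW u hu w h1
    · exact hsW (h1.1 ▸ hu)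
    · exact hvW (h1.1 ▸ hu)
  · intro u hu
    rw [mem_insert] at hu
    rcases hu with rfl | hu
    · exact ⟨v, (hadj _ _).2 (Or.inr (Or.inl ⟨rfl, rfl⟩))⟩
    · obtain ⟨w, hw⟩ := h.all u hu
      exact ⟨w, (hadj _ _).2 (Or.inl hw)⟩

/-- The edges of a path form a path. -/
theorem isHam_eg {G : SimpleGraph α} {s t : α} (p : G.Walk s t) (hp : p.IsPath) (hst : s ≠ t) :
    IsHam p.support.toFinset s t (eg p) := by
  induction p with
  | nil => exact absurd rfl hst
  | @cons u v w h q ih =>
    rw [SimpleGraph.Walk.cons_isPath_iff] at hp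
    rw [eg_cons]
    have hsup : (SimpleGraph.Walk.cons h q).support.toFinset = insert u q.support.toFinset := by
      rw [SimpleGraph.Walk.support_cons, List.toFinset_cons]
    rw [hsup]
    by_cases hvw : v = w
    · subst hvw
      have hq : q = SimpleGraph.Walk.nil := SimpleGraph.Walk.isPath_iff_eq_nil.1 hp.1
      subst hq
      rw [eg_nil, bot_sup_eq]
      have h1 : insert u (SimpleGraph.Walk.nil : G.Walk v v).support.toFinset = {u, v} := by
        simp
      rw [h1]
      exact IsHam.single hst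
    · exact (ih hp.1 hvw).cons (by rw [List.mem_toFinset]; exact hp.2)
        (by rw [List.mem_toFinset]; exact q.start_mem_support)
        (by rw [List.mem_toFinset]; exact q.end_mem_support) hvw

theorem isPth_eg {G : SimpleGraph α} {s t : α} (p : G.Walk s t) (hp : p.IsPath) (hst : s ≠ t) :
    IsPth univ s t (eg p) := by
  have h := (isHam_eg p hp hst).toIsPth
  exact ⟨fun u v _ => mem_univ _, h.ds, h.dt, h.di, h.conn⟩

/-- There are many Hamiltonian paths. -/
theorem exists_ham : ∀ (k : ℕ) (V : Finset α) (s t : α), s ∈ V → t ∈ V → s ≠ t →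
    V.card = k + 2 → ∃ H : Finset (SimpleGraph α), H.card = k.factorial ∧
      ∀ S ∈ H, IsHam V s t S ∧ ∃ p : (⊤ : SimpleGraph α).Walk s t, p.IsPath ∧ eg p = S ∧
        ∀ x ∈ p.support, x ∈ V := by
  classical
  intro k
  induction k with
  | zero =>
    intro V s t hs ht hst hV
    have hVe : V = {s, t} := by
      symm
      apply eq_of_subset_of_card_le
      · intro x hx
        rw [mem_insert, mem_singleton] at hx
        rcases hx with rfl | rfl
        · exact hs
        · exact ht
      · rw [hV, card_pair hst]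
    refine ⟨{SimpleGraph.edge s t}, by simp, ?_⟩
    intro S hS
    rw [mem_singleton] at hS
    subst hS
    refine ⟨hVe ▸ IsHam.single hst, ?_⟩
    have h1 : (⊤ : SimpleGraph α).Adj s t := by simpa using hst
    refine ⟨SimpleGraph.Walk.cons h1 SimpleGraph.Walk.nil, ?_, ?_, ?_⟩
    · simpa using hst
    · rw [eg_cons, eg_nil, bot_sup_eq]
    · intro x hx
      simp only [SimpleGraph.Walk.support_cons, SimpleGraph.Walk.support_nil, List.mem_cons,
        List.not_mem_nil, or_false] at hx
      rcases hx with rfl | rfl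
      · exact hs
      · exact ht
  | succ k ih =>
    intro V s t hs ht hst hV
    have hcard : (V.erase s).card = k + 2 := by rw [card_erase_of_mem hs, hV]; rfl
    have htV : t ∈ V.erase s := mem_erase.2 ⟨hst.symm, ht⟩
    have hex : ∀ v, ∃ H : Finset (SimpleGraph α), v ∈ (V.erase s).erase t →
        (H.card = k.factorial ∧ ∀ S ∈ H, IsHam (V.erase s) v t S ∧
          ∃ p : (⊤ : SimpleGraph α).Walk v t, p.IsPath ∧ eg p = S ∧ ∀ x ∈ p.support, x ∈ V.erase s) := by
      intro v
      by_cases hv : v ∈ (V.erase s).erase t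
      · rw [mem_erase] at hv
        obtain ⟨H, h1, h2⟩ := ih (V.erase s) v t hv.2 htV hv.1 hcard
        exact ⟨H, fun _ => ⟨h1, h2⟩⟩
      · exact ⟨∅, fun h => absurd h hv⟩
    choose H hH using hex
    have hins : insert s (V.erase s) = V := insert_erase hs
    refine ⟨((V.erase s).erase t).biUnion fun v =>
      (H v).image fun S => S ⊔ SimpleGraph.edge s v, ?_, ?_⟩
    · rw [card_biUnion]
      · have h1 : ∀ v ∈ (V.erase s).erase t,
            ((H v).image fun S => S ⊔ SimpleGraph.edge s v).card = k.factorial := by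
          intro v hv
          rw [card_image_of_injOn, (hH v hv).1]
          intro S hS S' hS' heq
          rw [mem_coe] at hS hS'
          simp only at heq
          have hns : ∀ T ∈ H v, ∀ w, ¬ T.Adj s w := by
            intro T hT w hw
            have := ((hH v hv).2 T hT).1.supp _ _ hw
            exact absurd rfl (mem_erase.1 this).1
          have key : ∀ S S' : SimpleGraph α, S ∈ H v → S' ∈ H v →
              S ⊔ SimpleGraph.edge s v = S' ⊔ SimpleGraph.edge s v →
              ∀ a b, S.Adj a b → S'.Adj a b := by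
            intro S S' hS hS' heq a b hab
            have h1 : (S ⊔ SimpleGraph.edge s v).Adj a b := by
              rw [SimpleGraph.sup_adj]; exact Or.inl hab
            rw [heq, SimpleGraph.sup_adj, SimpleGraph.edge_adj] at h1
            rcases h1 with h1 | ⟨⟨h1, _⟩ | ⟨_, h1⟩, _⟩
            · exact h1
            · exact absurd hab (h1 ▸ hns S hS b)
            · exact absurd hab.symm (h1 ▸ hns S hS a)
          ext a b
          exact ⟨key S S' hS hS' heq a b, key S' S hS' hS heq.symm a b⟩
        rw [sum_congr rfl h1, sum_const, card_erase_of_mem htV, hcard, Nat.factorial_succ]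
        simp
      · intro v hv v' hv' hne
        show Disjoint ((H v).image fun S => S ⊔ SimpleGraph.edge s v)
          ((H v').image fun S => S ⊔ SimpleGraph.edge s v')
        rw [disjoint_left]
        intro S hS hS'
        rw [mem_image] at hS hS'
        obtain ⟨T, hT, rfl⟩ := hS
        obtain ⟨T', hT', heq⟩ := hS'
        have hv1 := hv
        rw [mem_coe, mem_erase, mem_erase] at hv1
        have h1 : (T ⊔ SimpleGraph.edge s v).Adj s v := by
          rw [SimpleGraph.sup_adj, SimpleGraph.edge_adj]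
          exact Or.inr ⟨Or.inl ⟨rfl, rfl⟩, hv1.2.1.symm⟩
        rw [← heq, SimpleGraph.sup_adj, SimpleGraph.edge_adj] at h1
        rcases h1 with h1 | ⟨⟨_, h1⟩ | ⟨_, h1⟩, _⟩
        · have := ((hH v' hv').2 T' hT').1.supp _ _ h1
          exact absurd rfl (mem_erase.1 this).1
        · exact hne h1
        · exact hv1.2.1 h1
    · intro S hS
      rw [mem_biUnion] at hS
      obtain ⟨v, hv, hS⟩ := hS
      rw [mem_image] at hS
      obtain ⟨T, hT, rfl⟩ := hS
      obtain ⟨h1, p, hp, hpe, hps⟩ := (hH v hv).2 T hT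
      have hv1 := hv
      rw [mem_erase, mem_erase] at hv1
      refine ⟨?_, ?_⟩
      · have := h1.cons (s := s) (by simp) (mem_erase.1 hv).2 htV hv1.1
        rwa [hins] at this
      · have h2 : (⊤ : SimpleGraph α).Adj s v := by simpa using hv1.2.1.symm
        refine ⟨SimpleGraph.Walk.cons h2 p, ?_, ?_, ?_⟩
        · rw [SimpleGraph.Walk.cons_isPath_iff]
          exact ⟨hp, fun h3 => absurd rfl (mem_erase.1 (hps s h3)).1⟩
        · rw [eg_cons, hpe]
        · intro x hx
          rw [SimpleGraph.Walk.support_cons, List.mem_cons] at hx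
          rcases hx with rfl | hx
          · exact hs
          · exact (mem_erase.1 (hps x hx)).2

/-- The number of darts of a graph. -/
noncomputable def dn (S : SimpleGraph α) : ℕ :=
  ((univ : Finset (α × α)).filter fun q => q.2 ∈ nb S q.1).card

theorem dn_eq_sum (S : SimpleGraph α) : dn S = ∑ v, (nb S v).card := by
  unfold dn
  rw [← univ_product_univ]
  rw [card_filter, sum_product]
  apply sum_congr rfl
  intro v _
  simp

theorem dn_mono {S T : SimpleGraph α} (h : S ≤ T) : dn S ≤ dn T := by
  apply card_le_card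
  intro q hq
  rw [mem_filter, mem_nb] at hq ⊢
  exact ⟨hq.1, h hq.2⟩

theorem dn_ham {S : SimpleGraph α} (h : IsHam univ s t S) (hst : s ≠ t) :
    dn S + 2 = 2 * Fintype.card α := by
  rw [dn_eq_sum]
  have h1 : ∀ v ∈ (univ.erase s).erase t, (nb S v).card = 2 := by
    intro v hv
    rw [mem_erase, mem_erase] at hv
    exact h.two (mem_univ v) hv.2.1 hv.1
  have ht : t ∈ (univ : Finset α).erase s := mem_erase.2 ⟨hst.symm, mem_univ _⟩
  rw [← add_sum_erase univ _ (mem_univ s), ← add_sum_erase _ _ ht, h.ds, h.dt, sum_congr rfl h1,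
    sum_const, card_erase_of_mem ht, card_erase_of_mem (mem_univ s), card_univ]
  have : 2 ≤ Fintype.card α := by
    rw [← card_pair hst, ← card_univ]
    exact card_le_card (subset_univ _)
  simp only [smul_eq_mul]
  omega

end Run7.h850
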