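import Pool.Agent.Run7.h850.Contr

/-!
Families of graphs all of whose unions are `s`-`t` paths.
-/

set_option autoImplicit false

namespace Run7.h850

open Finset

variable {α ι : Type*} [Fintype α] [DecidableEq α] [Fintype ι] [DecidableEq ι]
variable {V : Finset α} {s t : α}

/-- the darts of `π` are distributed over the graphs `c i`, each receives at most `D` -/
def Split (c : ι → SimpleGraph α) (D : ℕ) (π : SimpleGraph α) : Prop :=
  ∃ g : α → α → ι, (∀ u v, π.Adj u v → (c (g u v)).Adj u v) ∧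
    ∀ i, ((univ : Finset (α × α)).filter fun q => q.2 ∈ nb π q.1 ∧ g q.1 q.2 = i).card ≤ D

structure Fam (V : Finset α) (s t : α) (A : ι → Set (SimpleGraph α))
    (P : Finset (SimpleGraph α)) (D : ℕ) : Prop where
  hs : s ∈ V
  ht : t ∈ V
  st : s ≠ t
  pth : ∀ c : ι → SimpleGraph α, (∀ i, c i ∈ A i) → IsPth V s t (⨆ i, c i)
  ham : ∀ π ∈ P, IsHam V s t π
  cov : ∀ π ∈ P, ∃ c : ι → SimpleGraph α, (∀ i, c i ∈ A i) ∧ π = ⨆ i, c i ∧ Split c D π

variable {A : ι → Set (SimpleGraph α)} {P : Finset (SimpleGraph α)} {D : ℕ}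

omit [DecidableEq α] in
theorem IsPth.le_two {S : SimpleGraph α} (h : IsPth V s t S) (v : α) : (nb S v).card ≤ 2 := by
  by_cases h1 : v = s
  · rw [h1, h.ds]; omega
  · by_cases h2 : v = t
    · rw [h2, h.dt]; omega
    · rcases h.di v h1 h2 with h | h <;> omega

omit [Fintype ι] in
theorem Split.contr {c : ι → SimpleGraph α} {π : SimpleGraph α} (h : Split c D π) (x y : α) :
    Split (fun i => contr x y (c i)) D (contr x y π) := by
  classical
  obtain ⟨g, hg, hD⟩ := h
  obtain ⟨F, hF⟩ : ∃ F : α × α → α × α, F = fun q =>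
    if π.Adj q.1 q.2 then q else if q.1 = x then (y, q.2) else (q.1, y) := ⟨_, rfl⟩
  have hF1 : ∀ u w, π.Adj u w → F (u, w) = (u, w) := by
    intro u w h; rw [hF]; simp only [h, if_true]
  have hF2 : ∀ u w, ¬ π.Adj u w → u = x → F (u, w) = (y, w) := by
    intro u w h h'; rw [hF]; subst h'; simp only [h, if_false, if_true]
  have hF3 : ∀ u w, ¬ π.Adj u w → u ≠ x → F (u, w) = (u, y) := by
    intro u w h h'; rw [hF]; simp only [h, if_false, h']
  have hFadj : ∀ u w, (Run7.h850.contr x y π).Adj u w → π.Adj (F (u, w)).1 (F (u, w)).2 := by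
    rintro u w ⟨h1, h2, h3, h4⟩
    by_cases h5 : π.Adj u w
    · rw [hF1 u w h5]; exact h5
    · by_cases h6 : u = x
      · rw [hF2 u w h5 h6]
        rcases h4 with h4 | ⟨_, h4⟩ | ⟨h4, _⟩
        · exact absurd h4 h5
        · exact h4
        · exact absurd (h6.trans h4.symm) h1
      · rw [hF3 u w h5 h6]
        rcases h4 with h4 | ⟨h4, _⟩ | ⟨_, h4⟩
        · exact absurd h4 h5
        · exact absurd h4 h6
        · exact h4
  refine ⟨fun u w => g (F (u, w)).1 (F (u, w)).2, ?_, ?_⟩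
  · intro u w huw
    have h7 := hg _ _ (hFadj u w huw)
    obtain ⟨h1, h2, h3, h4⟩ := huw
    refine ⟨h1, h2, h3, ?_⟩
    revert h7
    simp only
    generalize c (g (F (u, w)).1 (F (u, w)).2) = S
    by_cases h5 : π.Adj u w
    · rw [hF1 u w h5]
      exact fun h7 => Or.inl h7
    · by_cases h6 : u = x
      · rw [hF2 u w h5 h6]
        exact fun h7 => Or.inr (Or.inl ⟨h6, h7⟩)
      · rw [hF3 u w h5 h6]
        rcases h4 with h4 | ⟨h4, _⟩ | ⟨h4, _⟩
        · exact absurd h4 h5
        · exact absurd h4 h6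
        · exact fun h7 => Or.inr (Or.inr ⟨h4, h7⟩)
  · intro i
    refine le_trans ?_ (hD i)
    apply card_le_card_of_injOn F
    · rintro ⟨u, w⟩ hq
      rw [mem_coe, mem_filter] at hq
      rw [mem_coe, mem_filter]
      exact ⟨mem_univ _, mem_nb.2 (hFadj u w (mem_nb.1 hq.2.1)), hq.2.2⟩
    · rintro ⟨u, w⟩ hq ⟨u', w'⟩ hq' heq
      rw [mem_coe, mem_filter] at hq hq'
      have a1 := mem_nb.1 hq.2.1
      have a2 := mem_nb.1 hq'.2.1
      simp only at a1 a2
      obtain ⟨b1, b2, b3, b4⟩ := a1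
      obtain ⟨d1, d2, d3, d4⟩ := a2
      rw [hF] at heq
      simp only at heq
      by_cases h5 : π.Adj u w
      · rw [if_pos h5] at heq
        by_cases h6 : π.Adj u' w'
        · rwa [if_pos h6] at heq
        · rw [if_neg h6] at heq
          split_ifs at heq
          · exact absurd (Prod.mk.inj heq).1 b2
          · exact absurd (Prod.mk.inj heq).2 b3
      · rw [if_neg h5] at heq
        by_cases h6 : π.Adj u' w'
        · rw [if_pos h6] at heq
          split_ifs at heq
          · exact absurd (Prod.mk.inj heq).1.symm d2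
          · exact absurd (Prod.mk.inj heq).2.symm d3
        · rw [if_neg h6] at heq
          by_cases h7 : u = x
          · rw [if_pos h7] at heq
            by_cases h8 : u' = x
            · rw [if_pos h8] at heq
              rw [h7, h8, (Prod.mk.inj heq).2]
            · rw [if_neg h8] at heq
              exact absurd (Prod.mk.inj heq).1.symm d2
          · rw [if_neg h7] at heq
            by_cases h8 : u' = x
            · rw [if_pos h8] at heq
              exact absurd (Prod.mk.inj heq).1 b2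
            · rw [if_neg h8] at heq
              have e1 : w = x := by
                rcases b4 with b4 | ⟨b4, _⟩ | ⟨b4, _⟩
                · exact absurd b4 h5
                · exact absurd b4 h7
                · exact b4
              have e2 : w' = x := by
                rcases d4 with d4 | ⟨d4, _⟩ | ⟨d4, _⟩
                · exact absurd d4 h6
                · exact absurd d4 h8
                · exact d4
              rw [e1, e2, (Prod.mk.inj heq).1]

theorem Fam.contr (F : Fam V s t A P D) {x y : α} (hys : y ≠ s) (hyt : y ≠ t)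
    (hadj : ∀ c : ι → SimpleGraph α, (∀ i, c i ∈ A i) → (⨆ i, c i).Adj x y) :
    ∃ P' : Finset (SimpleGraph α),
      Fam (V.erase y) s t (fun i => contr x y '' A i) P' D ∧ P.card ≤ 2 * P'.card := by
  classical
  have hadjP : ∀ π ∈ P, π.Adj x y := by
    intro π hπ
    obtain ⟨c, hc, rfl, _⟩ := F.cov π hπ
    exact hadj c hc
  refine ⟨P.image (Run7.h850.contr x y), ⟨?_, ?_, F.st, ?_, ?_, ?_⟩, ?_⟩
  · exact mem_erase.2 ⟨hys.symm, F.hs⟩
  · exact mem_erase.2 ⟨hyt.symm, F.ht⟩
  · intro c hc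
    choose c' hc' using hc
    have h1 : c = fun i => Run7.h850.contr x y (c' i) := funext fun i => (hc' i).2.symm
    rw [h1, ← contr_iSup]
    exact (F.pth c' fun i => (hc' i).1).contr (hadj c' fun i => (hc' i).1) hys hyt
  · intro π hπ
    obtain ⟨ρ, hρ, rfl⟩ := mem_image.1 hπ
    exact (F.ham ρ hρ).contr (hadjP ρ hρ) hys hyt
  · intro π hπ
    obtain ⟨ρ, hρ, rfl⟩ := mem_image.1 hπ
    obtain ⟨c, hc, h1, h2⟩ := F.cov ρ hρ
    refine ⟨fun i => Run7.h850.contr x y (c i), fun i => ⟨c i, hc i, rfl⟩, ?_, h2.contr x y⟩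
    rw [h1, contr_iSup]
  · apply card_le_mul_card_image
    intro ρ hρ
    obtain ⟨π₀, hπ₀, rfl⟩ := mem_image.1 hρ
    have h2 := ((F.ham π₀ hπ₀).toIsPth.contr (hadjP π₀ hπ₀) hys hyt).le_two x
    refine le_trans ?_ h2
    have hq : ∀ π : SimpleGraph α, ∃ q, π ∈ P → π.Adj y q ∧ q ≠ x := by
      intro π
      by_cases h : π ∈ P
      · obtain ⟨q, hq⟩ := (F.ham π h).toIsPth.other (hadjP π h) hys hyt
        exact ⟨q, fun _ => hq⟩
      · exact ⟨x, fun h' => absurd h' h⟩
    choose q hq using hq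
    apply card_le_card_of_injOn q
    · intro π hπ
      rw [mem_coe, mem_filter] at hπ
      rw [mem_coe, ← hπ.2, mem_nb]
      obtain ⟨h3, h4⟩ := hq π hπ.1
      exact ⟨h4.symm, (hadjP π hπ.1).ne, h3.ne.symm, Or.inr (Or.inl ⟨rfl, h3⟩)⟩
    · intro π hπ π' hπ' heq
      rw [mem_coe, mem_filter] at hπ hπ'
      obtain ⟨h3, h4⟩ := hq π hπ.1
      obtain ⟨h3', h4'⟩ := hq π' hπ'.1
      rw [← heq] at h3'
      exact contr_inj (F.ham π hπ.1).toIsPth (F.ham π' hπ'.1).toIsPth (hadjP π hπ.1)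
        (hadjP π' hπ'.1) h3 h3' h4 (hπ.2.trans hπ'.2.symm)

/-- the members taking part in `P` -/
def prt (A : ι → Set (SimpleGraph α)) (P : Finset (SimpleGraph α)) (i : ι) :
    Set (SimpleGraph α) :=
  {S | ∃ c : ι → SimpleGraph α, (∀ j, c j ∈ A j) ∧ c i = S ∧ (⨆ j, c j) ∈ P}

theorem mem_part {c : ι → SimpleGraph α} (hc : ∀ j, c j ∈ A j) (h : (⨆ j, c j) ∈ P) (i : ι) :
    c i ∈ prt A P i := ⟨c, hc, rfl, h⟩

theorem Fam.part (F : Fam V s t A P D) : Fam V s t (prt A P) P D where
  hs := F.hs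
  ht := F.ht
  st := F.st
  pth := fun c hc => F.pth c fun i => by
    obtain ⟨d, hd, h1, _⟩ := hc i
    rw [← h1]; exact hd i
  ham := F.ham
  cov := fun π hπ => by
    obtain ⟨c, hc, h1, h2⟩ := F.cov π hπ
    exact ⟨c, fun i => mem_part hc (h1 ▸ hπ) i, h1, h2⟩

theorem part_part {i : ι} {S : SimpleGraph α} (h : S ∈ prt A P i) :
    ∃ c : ι → SimpleGraph α, (∀ j, c j ∈ prt A P j) ∧ c i = S ∧ (⨆ j, c j) ∈ P := by
  obtain ⟨c, hc, h1, h2⟩ := h
  exact ⟨c, fun j => mem_part hc h2 j, h1, h2⟩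

theorem Fam.overlap (F : Fam V s t A P D) {v : α} (hvs : v ≠ s) (hvt : v ≠ t) {i j : ι}
    (hij : i ≠ j) {a a' : SimpleGraph α} (ha : a ∈ A i) (ha' : a' ∈ A j) {x : α}
    (hx : a.Adj v x) (hx' : a'.Adj v x) {c : ι → SimpleGraph α} (hc : ∀ k, c k ∈ A k) {w : α}
    (hw : (⨆ k, c k).Adj v w) : ∃ z, (⨆ k, c k).Adj v z ∧ (a.Adj v z ∨ a'.Adj v z) := by
  by_contra hcon
  push Not at hcon
  obtain ⟨w', hw', hne⟩ := (F.pth c hc).other hw.symm hvs hvt
  set c1 := Function.update c i a with hc1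
  set c2 := Function.update c j a' with hc2
  set c3 := Function.update c1 j a' with hc3
  have m1 : ∀ k, c1 k ∈ A k := by
    intro k
    by_cases hk : k = i
    · subst hk; rw [hc1, Function.update_self]; exact ha
    · rw [hc1, Function.update_of_ne hk]; exact hc k
  have m2 : ∀ k, c2 k ∈ A k := by
    intro k
    by_cases hk : k = j
    · subst hk; rw [hc2, Function.update_self]; exact ha'
    · rw [hc2, Function.update_of_ne hk]; exact hc k
  have m3 : ∀ k, c3 k ∈ A k := by
    intro k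
    by_cases hk : k = j
    · subst hk; rw [hc3, Function.update_self]; exact ha'
    · rw [hc3, Function.update_of_ne hk]; exact m1 k
  have p1 := F.pth c1 m1
  have p2 := F.pth c2 m2
  have p3 := F.pth c3 m3
  have u1 : ∀ z, a.Adj v z → (⨆ k, c1 k).Adj v z := fun z hz => by
    rw [SimpleGraph.iSup_adj]; exact ⟨i, by rw [hc1, Function.update_self]; exact hz⟩
  have u1' : ∀ z k, k ≠ i → (c k).Adj v z → (⨆ k, c1 k).Adj v z := fun z k hk hz => by
    rw [SimpleGraph.iSup_adj]; exact ⟨k, by rw [hc1, Function.update_of_ne hk]; exact hz⟩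
  have u2 : ∀ z, a'.Adj v z → (⨆ k, c2 k).Adj v z := fun z hz => by
    rw [SimpleGraph.iSup_adj]; exact ⟨j, by rw [hc2, Function.update_self]; exact hz⟩
  have u2' : ∀ z k, k ≠ j → (c k).Adj v z → (⨆ k, c2 k).Adj v z := fun z k hk hz => by
    rw [SimpleGraph.iSup_adj]; exact ⟨k, by rw [hc2, Function.update_of_ne hk]; exact hz⟩
  have u3 : ∀ z, (⨆ k, c3 k).Adj v z → a.Adj v z ∨ a'.Adj v z ∨
      ∃ k, k ≠ i ∧ k ≠ j ∧ (c k).Adj v z := by
    intro z hz
    rw [SimpleGraph.iSup_adj] at hz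
    obtain ⟨k, hk⟩ := hz
    by_cases h1 : k = j
    · subst h1
      rw [hc3, Function.update_self] at hk
      exact Or.inr (Or.inl hk)
    · rw [hc3, Function.update_of_ne h1] at hk
      by_cases h2 : k = i
      · subst h2
        rw [hc1, Function.update_self] at hk
        exact Or.inl hk
      · rw [hc1, Function.update_of_ne h2] at hk
        exact Or.inr (Or.inr ⟨k, h2, h1, hk⟩)
  have u3' : (⨆ k, c3 k).Adj v x := by
    rw [SimpleGraph.iSup_adj]; exact ⟨j, by rw [hc3, Function.update_self]; exact hx'⟩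
  have key : ∀ y1 y2 : α, y1 ≠ y2 → (c i).Adj v y1 → (c j).Adj v y2 → False := by
    intro y1 y2 hy hy1 hy2
    have U1 : (⨆ k, c k).Adj v y1 := by rw [SimpleGraph.iSup_adj]; exact ⟨i, hy1⟩
    have U2 : (⨆ k, c k).Adj v y2 := by rw [SimpleGraph.iSup_adj]; exact ⟨j, hy2⟩
    have hU := (F.pth c hc).card_two U1 U2 hy
    have hxy1 : x ≠ y1 := by rintro rfl; exact (hcon _ U1).1 hx
    have hxy2 : x ≠ y2 := by rintro rfl; exact (hcon _ U2).1 hx
    have hk1 := (p1.card_two (u1 x hx) (u1' y2 j hij.symm hy2) hxy2).2.2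
    have hk2 := (p2.card_two (u2 x hx') (u2' y1 i hij hy1) hxy1).2.2
    obtain ⟨z, hz, hzx⟩ := p3.other u3'.symm hvs hvt
    rcases u3 z hz with h1 | h1 | ⟨k, h1, h2, h3⟩
    · rcases nb_two hk1 (u1 x hx) (u1' y2 j hij.symm hy2) hxy2 (u1 z h1) with h4 | h4
      · exact hzx h4
      · rw [h4] at h1; exact (hcon _ U2).1 h1
    · rcases nb_two hk2 (u2 x hx') (u2' y1 i hij hy1) hxy1 (u2 z h1) with h4 | h4
      · exact hzx h4
      · rw [h4] at h1; exact (hcon _ U1).2 h1
    · have hzU : (⨆ k, c k).Adj v z := by rw [SimpleGraph.iSup_adj]; exact ⟨k, h3⟩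
      rcases nb_two hk1 (u1 x hx) (u1' y2 j hij.symm hy2) hxy2 (u1' z k h1 h3) with h4 | h4
      · exact hzx h4
      · rcases nb_two hk2 (u2 x hx') (u2' y1 i hij hy1) hxy1 (u2' z k h2 h3) with h5 | h5
        · exact hzx h5
        · exact hy (h5.symm.trans h4)
  have hw2 := hw
  have hw2' := hw'
  rw [SimpleGraph.iSup_adj] at hw2 hw2'
  obtain ⟨k1, hk1⟩ := hw2
  obtain ⟨k2, hk2⟩ := hw2'
  have hxw : x ≠ w := by rintro rfl; exact (hcon _ hw).1 hx
  have hxw' : x ≠ w' := by rintro rfl; exact (hcon _ hw').1 hx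
  have h1 : k1 = i ∨ k2 = i := by
    by_contra h
    push Not at h
    have h3 := (p1.card_two (u1 x hx) (u1' w k1 h.1 hk1) hxw).2.2
    rcases nb_two h3 (u1 x hx) (u1' w k1 h.1 hk1) hxw (u1' w' k2 h.2 hk2) with h4 | h4
    · exact hxw' h4.symm
    · exact hne h4
  have h2 : k1 = j ∨ k2 = j := by
    by_contra h
    push Not at h
    have h3 := (p2.card_two (u2 x hx') (u2' w k1 h.1 hk1) hxw).2.2
    rcases nb_two h3 (u2 x hx') (u2' w k1 h.1 hk1) hxw (u2' w' k2 h.2 hk2) with h4 | h4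
    · exact hxw' h4.symm
    · exact hne h4
  rcases h1 with rfl | rfl
  · rcases h2 with h2 | rfl
    · exact hij h2
    · exact key w w' hne.symm hk1 hk2
  · rcases h2 with rfl | h2
    · exact key w' w hne hk2 hk1
    · exact hij h2

end Run7.h850
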