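import Pool.Agent.Run7.h850.Trails

/-!
The family of trails used for the lower bound on sums of walk counts.
-/

set_option autoImplicit false

namespace Run7.h850

open Finset

variable {α : Type*} [Fintype α] [DecidableEq α] {K : Type*} [Field K]

/-- a partition of the vertices -/
structure Lay (s t m c : α) (L P Q : Finset α) : Prop where
  st : s ≠ t
  sm : s ≠ m
  sc : s ≠ c
  tm : t ≠ m
  tc : t ≠ c
  mc : m ≠ c
  sL : s ∉ L
  tL : t ∉ L
  mL : m ∉ L
  cL : c ∉ L
  sP : s ∉ P
  tP : t ∉ P
  mP : m ∉ P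
  cP : c ∉ P
  sQ : s ∉ Q
  tQ : t ∉ Q
  mQ : m ∉ Q
  cQ : c ∉ Q
  LP : Disjoint L P
  LQ : Disjoint L Q
  PQ : Disjoint P Q

variable {s t m c : α} {L P Q : Finset α}

/-- pairs of vertices used in the second half of the trail -/
def Ty (t m c : α) (P Q : Finset α) (a b : α) : Prop :=
  (a ∈ P ∧ b ∈ P) ∨ (a ∈ Q ∧ b ∈ Q) ∨ a = c ∨ b = c ∨ a = t ∨ b = t ∨ (a = m ∧ b ∈ P) ∨
    (a ∈ P ∧ b = m)

omit [Fintype α] [DecidableEq α] in
theorem Ty.symm' {a b : α} (h : Ty t m c P Q a b) : Ty t m c P Q b a := by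
  unfold Ty at *
  tauto

/-- inner vertices of the first half -/
noncomputable def l1 (L X Y : Finset α) : List α := L.toList ++ il X.toList Y.toList

/-- inner vertices of the second half -/
noncomputable def l2 (c : α) (X Y : Finset α) : List α := X.toList ++ c :: Y.toList

theorem chain_il (h : Lay s t m c L P Q) : ∀ (ps qs : List α) (a : α), ps.length = qs.length →
    (∀ x ∈ ps, x ∈ P) → (∀ x ∈ qs, x ∈ Q) → (a = s ∨ a ∈ L ∨ a ∈ Q) →
    List.IsChain (fun a b => ¬ Ty t m c P Q a b) (a :: il ps qs ++ [m]) := by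
  have hPQ := disjoint_left.1 h.PQ
  have hLP := disjoint_left.1 h.LP
  have hLQ := disjoint_left.1 h.LQ
  have haP : ∀ a, (a = s ∨ a ∈ L ∨ a ∈ Q) → a ∉ P ∧ a ≠ m ∧ a ≠ c ∧ a ≠ t := by
    rintro a (rfl | h1 | h1)
    · exact ⟨h.sP, h.sm, h.sc, h.st⟩
    · refine ⟨hLP h1, ?_, ?_, ?_⟩
      · rintro rfl; exact h.mL h1
      · rintro rfl; exact h.cL h1
      · rintro rfl; exact h.tL h1
    · refine ⟨fun h2 => hPQ h2 h1, ?_, ?_, ?_⟩
      · rintro rfl; exact h.mQ h1
      · rintro rfl; exact h.cQ h1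
      · rintro rfl; exact h.tQ h1
  intro ps
  induction ps with
  | nil =>
    intro qs a _ _ _ ha
    obtain ⟨h1, h2, h3, h4⟩ := haP a ha
    simp only [il, List.cons_append, List.nil_append, List.isChain_cons_cons,
      List.isChain_singleton, and_true]
    unfold Ty
    rintro (⟨h5, _⟩ | ⟨_, h5⟩ | h5 | h5 | h5 | h5 | ⟨h5, _⟩ | ⟨h5, _⟩)
    · exact h1 h5
    · exact h.mQ h5
    · exact h3 h5
    · exact h.mc h5
    · exact h4 h5
    · exact h.tm h5.symm
    · exact h2 h5
    · exact h1 h5
  | cons p ps ih =>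
    intro qs a hl hps hqs ha
    cases qs with
    | nil => simp at hl
    | cons q qs =>
      obtain ⟨h1, h2, h3, h4⟩ := haP a ha
      have hp := hps p (by simp)
      have hq := hqs q (by simp)
      have hpQ : p ∉ Q := hPQ hp
      have hqP : q ∉ P := fun h5 => hPQ h5 hq
      simp only [il, List.cons_append, List.isChain_cons_cons]
      refine ⟨?_, ?_, ?_⟩
      · unfold Ty
        rintro (⟨h5, _⟩ | ⟨_, h5⟩ | h5 | h5 | h5 | h5 | ⟨h5, _⟩ | ⟨h5, _⟩)
        · exact h1 h5
        · exact hpQ h5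
        · exact h3 h5
        · exact h.cP (h5 ▸ hp)
        · exact h4 h5
        · exact h.tP (h5 ▸ hp)
        · exact h2 h5
        · exact h1 h5
      · unfold Ty
        rintro (⟨_, h5⟩ | ⟨h5, _⟩ | h5 | h5 | h5 | h5 | ⟨h5, _⟩ | ⟨_, h5⟩)
        · exact hqP h5
        · exact hpQ h5
        · exact h.cP (h5 ▸ hp)
        · exact h.cQ (h5 ▸ hq)
        · exact h.tP (h5 ▸ hp)
        · exact h.tQ (h5 ▸ hq)
        · exact h.mP (h5 ▸ hp)
        · exact h.mQ (h5 ▸ hq)
      · have := ih qs q (by simpa using hl) (fun x hx => hps x (by simp [hx]))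
          (fun x hx => hqs x (by simp [hx])) (Or.inr (Or.inr hq))
        simpa using this

theorem chain_l1 (h : Lay s t m c L P Q) (ps qs : List α) (hl : ps.length = qs.length)
    (hps : ∀ x ∈ ps, x ∈ P) (hqs : ∀ x ∈ qs, x ∈ Q) : ∀ (ls : List α) (a : α),
    (∀ x ∈ ls, x ∈ L) → (a = s ∨ a ∈ L) →
    List.IsChain (fun a b => ¬ Ty t m c P Q a b) (a :: (ls ++ il ps qs) ++ [m]) := by
  have hLP := disjoint_left.1 h.LP
  have hLQ := disjoint_left.1 h.LQ
  have hA : ∀ a, (a = s ∨ a ∈ L) → a ∉ P ∧ a ∉ Q ∧ a ≠ m ∧ a ≠ c ∧ a ≠ t := by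
    rintro a (rfl | h1)
    · exact ⟨h.sP, h.sQ, h.sm, h.sc, h.st⟩
    · refine ⟨hLP h1, hLQ h1, ?_, ?_, ?_⟩
      · rintro rfl; exact h.mL h1
      · rintro rfl; exact h.cL h1
      · rintro rfl; exact h.tL h1
  intro ls
  induction ls with
  | nil =>
    intro a _ ha
    rw [List.nil_append]
    exact chain_il h ps qs a hl hps hqs (by tauto)
  | cons x ls ih =>
    intro a hls ha
    have hx := hA x (Or.inr (hls x (by simp)))
    have ha' := hA a ha
    simp only [List.cons_append, List.isChain_cons_cons]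
    refine ⟨?_, ?_⟩
    · unfold Ty
      tauto
    · have := ih x (fun y hy => hls y (by simp [hy])) (Or.inr (hls x (by simp)))
      simpa using this

theorem chain_l2 (h : Lay s t m c L P Q) (ps qs : List α)
    (hps : ∀ x ∈ ps, x ∈ P) (hqs : ∀ x ∈ qs, x ∈ Q) :
    List.IsChain (Ty t m c P Q) (m :: (ps ++ c :: qs) ++ [t]) := by
  have h1 : ∀ (qs : List α), (∀ x ∈ qs, x ∈ Q) → ∀ a, (a = c ∨ a ∈ Q) →
      List.IsChain (Ty t m c P Q) (a :: qs ++ [t]) := by
    intro qs
    induction qs with
    | nil =>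
      intro _ a ha
      simp only [List.cons_append, List.nil_append, List.isChain_cons_cons,
        List.isChain_singleton, and_true]
      unfold Ty
      tauto
    | cons q qs ih =>
      intro hqs a ha
      simp only [List.cons_append, List.isChain_cons_cons]
      refine ⟨?_, ?_⟩
      · have := hqs q (by simp)
        unfold Ty
        tauto
      · have := ih (fun y hy => hqs y (by simp [hy])) q (Or.inr (hqs q (by simp)))
        simpa using this
  have h2 : ∀ (ps : List α), (∀ x ∈ ps, x ∈ P) → ∀ a, (a = m ∨ a ∈ P) →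
      List.IsChain (Ty t m c P Q) (a :: (ps ++ c :: qs) ++ [t]) := by
    intro ps
    induction ps with
    | nil =>
      intro _ a ha
      simp only [List.cons_append, List.nil_append, List.isChain_cons_cons]
      refine ⟨?_, ?_⟩
      · unfold Ty
        tauto
      · have := h1 qs hqs c (Or.inl rfl)
        simpa using this
    | cons p ps ih =>
      intro hps a ha
      simp only [List.cons_append, List.isChain_cons_cons]
      refine ⟨?_, ?_⟩
      · have := hps p (by simp)
        unfold Ty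
        tauto
      · have := ih (fun y hy => hps y (by simp [hy])) p (Or.inr (hps p (by simp)))
        simpa using this
  exact h2 ps hps m (Or.inl rfl)

/-- The first half of the trail. -/
theorem exists_w1 (h : Lay s t m c L P Q) {X Y : Finset α} (hX : X ⊆ P) (hY : Y ⊆ Q)
    (hXY : X.card = Y.card) : ∃ p : (⊤ : SimpleGraph α).Walk s m, p.IsPath ∧
      p.support = s :: l1 L X Y ++ [m] ∧ ∀ a b, s(a, b) ∈ p.edges → ¬ Ty t m c P Q a b := by
  have hPQ := disjoint_left.1 h.PQ
  have hLP := disjoint_left.1 h.LP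
  have hLQ := disjoint_left.1 h.LQ
  have hil : ∀ x ∈ il X.toList Y.toList, x ∈ P ∨ x ∈ Q := by
    intro x hx
    rcases mem_il hx with h1 | h1
    · exact Or.inl (hX (mem_toList.1 h1))
    · exact Or.inr (hY (mem_toList.1 h1))
  have hnd : (s :: l1 L X Y ++ [m]).Nodup := by
    unfold l1
    rw [List.cons_append, List.nodup_cons, List.nodup_append, List.nodup_append]
    refine ⟨?_, ⟨nodup_toList L, il_nodup (nodup_toList X) (nodup_toList Y) ?_, ?_⟩, by simp, ?_⟩
    · simp only [List.append_assoc, List.mem_append, mem_toList, List.mem_singleton, not_or]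
      refine ⟨h.sL, ?_, h.sm⟩
      intro h1
      rcases hil _ h1 with h1 | h1
      · exact h.sP h1
      · exact h.sQ h1
    · intro x hx hx'
      exact hPQ (hX (mem_toList.1 hx)) (hY (mem_toList.1 hx'))
    · rintro a ha b hb rfl
      rcases hil _ hb with h1 | h1
      · exact hLP (mem_toList.1 ha) h1
      · exact hLQ (mem_toList.1 ha) h1
    · rintro a ha b hb rfl
      rw [List.mem_singleton] at hb
      subst hb
      rw [List.mem_append, mem_toList] at ha
      rcases ha with ha | ha
      · exact h.mL ha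
      · rcases hil _ ha with h1 | h1
        · exact h.mP h1
        · exact h.mQ h1
  obtain ⟨p, hp⟩ := exists_walk (l1 L X Y) s m hnd
  refine ⟨p, ?_, hp, ?_⟩
  · rw [SimpleGraph.Walk.isPath_def, hp]; exact hnd
  · have hch := chain_l1 h X.toList Y.toList (by rw [length_toList, length_toList, hXY])
      (fun x hx => hX (mem_toList.1 hx)) (fun x hx => hY (mem_toList.1 hx)) L.toList s
      (fun x hx => mem_toList.1 hx) (Or.inl rfl)
    exact edges_chain (Φ := fun a b => ¬ Ty t m c P Q a b)
      (fun a b h1 h2 => h1 h2.symm') p (by rw [hp]; exact hch)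

/-- The second half of the trail. -/
theorem exists_w2 (h : Lay s t m c L P Q) {X Y : Finset α} (hX : X ⊆ P) (hY : Y ⊆ Q) :
    ∃ p : (⊤ : SimpleGraph α).Walk m t, p.IsPath ∧
      p.support = m :: l2 c X Y ++ [t] ∧ ∀ a b, s(a, b) ∈ p.edges → Ty t m c P Q a b := by
  have hPQ := disjoint_left.1 h.PQ
  have hnd : (m :: l2 c X Y ++ [t]).Nodup := by
    unfold l2
    rw [List.cons_append, List.nodup_cons, List.nodup_append, List.nodup_append, List.nodup_cons]
    refine ⟨?_, ⟨nodup_toList X, ⟨?_, nodup_toList Y⟩, ?_⟩, by simp, ?_⟩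
    · simp only [List.append_assoc, List.cons_append, List.mem_append, mem_toList, List.mem_cons,
        List.mem_singleton, not_or, List.not_mem_nil, or_false]
      exact ⟨fun h1 => h.mP (hX h1), h.mc, fun h1 => h.mQ (hY h1), h.tm.symm⟩
    · rw [mem_toList]; exact fun h1 => h.cQ (hY h1)
    · rintro a ha b hb rfl
      rw [mem_toList] at ha
      rw [List.mem_cons, mem_toList] at hb
      rcases hb with rfl | hb
      · exact h.cP (hX ha)
      · exact hPQ (hX ha) (hY hb)
    · rintro a ha b hb rfl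
      rw [List.mem_singleton] at hb
      subst hb
      rw [List.mem_append, List.mem_cons, mem_toList, mem_toList] at ha
      rcases ha with ha | ha | ha
      · exact h.tP (hX ha)
      · exact h.tc ha
      · exact h.tQ (hY ha)
  obtain ⟨p, hp⟩ := exists_walk (l2 c X Y) m t hnd
  refine ⟨p, ?_, hp, ?_⟩
  · rw [SimpleGraph.Walk.isPath_def, hp]; exact hnd
  · have hch := chain_l2 h X.toList Y.toList
      (fun x hx => hX (mem_toList.1 hx)) (fun x hx => hY (mem_toList.1 hx))
    exact edges_chain (Φ := Ty t m c P Q) (fun a b h1 => h1.symm') p (by rw [hp]; exact hch)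

end Run7.h850
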