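import Pool.Agent.Run7.h850.PortBound

/-!
Hamiltonian `s`-`t` paths of a rectangular coloured family, and matchings of ports.
-/

set_option autoImplicit false

namespace Run7.h850

open Finset

variable {α ι : Type*} [Fintype α] [DecidableEq α] [DecidableEq ι]

open Classical in
/-- neighbours -/
noncomputable def nb (S : SimpleGraph α) (v : α) : Finset α := univ.filter fun u => S.Adj v u

omit [DecidableEq α] in
theorem mem_nb {S : SimpleGraph α} {u v : α} : u ∈ nb S v ↔ S.Adj v u := by
  classical simp [nb]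

/-- `S` consists of the edges of a path from `s` to `t` with vertices in `V`. -/
structure IsPth (V : Finset α) (s t : α) (S : SimpleGraph α) : Prop where
  supp : ∀ u v, S.Adj u v → u ∈ V
  ds : (nb S s).card = 1
  dt : (nb S t).card = 1
  di : ∀ v, v ≠ s → v ≠ t → (nb S v).card = 0 ∨ (nb S v).card = 2
  conn : ∀ W : Set α, (∀ u ∈ W, ∀ v, S.Adj u v → v ∈ W) → s ∉ W → ∀ u ∈ W, ∀ v, ¬ S.Adj u v

/-- moreover the path contains all vertices of `V`. -/
structure IsHam (V : Finset α) (s t : α) (S : SimpleGraph α) : Prop extends IsPth V s t S where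
  all : ∀ v ∈ V, ∃ u, S.Adj v u

variable {V : Finset α} {s t : α}

omit [DecidableEq α] in
theorem IsHam.two {S : SimpleGraph α} (h : IsHam V s t S) {v : α} (hv : v ∈ V) (hs : v ≠ s)
    (ht : v ≠ t) : (nb S v).card = 2 := by
  rcases h.di v hs ht with h0 | h2
  · obtain ⟨u, hu⟩ := h.all v hv
    rw [card_eq_zero] at h0
    have := mem_nb.2 hu
    rw [h0] at this
    exact absurd this (notMem_empty _)
  · exact h2

omit [DecidableEq α] in
/-- a nonempty set of vertices closed under the path and containing both ends or none is everything -/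
theorem IsHam.closed {S : SimpleGraph α} (h : IsHam V s t S) (W : Set α) (hWV : ∀ v ∈ W, v ∈ V)
    (hW : ∀ u ∈ W, ∀ v, S.Adj u v → v ∈ W) (hne : W.Nonempty) : ∀ v ∈ V, v ∈ W := by
  have hs : s ∈ W := by
    by_contra hs
    obtain ⟨u, hu⟩ := hne
    obtain ⟨v, hv⟩ := h.all u (hWV u hu)
    exact h.conn W hW hs u hu v hv
  intro v hv
  by_contra hvW
  obtain ⟨u, hu⟩ := h.all v hv
  refine h.conn {x | x ∉ W} ?_ (fun hh => hh hs) v hvW u hu
  intro a ha b hab hb
  exact ha (hW b hb a hab.symm)

/-- the edges of colour `i` of `S` and the other edges of `T` -/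
def mixg (χ : α → α → ι) (hχ : ∀ u v, χ u v = χ v u) (i : ι) (S T : SimpleGraph α) :
    SimpleGraph α where
  Adj u v := (χ u v = i ∧ S.Adj u v) ∨ (χ u v ≠ i ∧ T.Adj u v)
  symm := ⟨fun u v h => by rw [hχ v u, S.adj_comm v u, T.adj_comm v u]; exact h⟩
  loopless := ⟨fun u h => by
    rcases h with ⟨_, h⟩ | ⟨_, h⟩
    · exact S.irrefl h
    · exact T.irrefl h⟩

structure Dat (V : Finset α) (s t : α) (χ : α → α → ι) (hχ : ∀ u v, χ u v = χ v u)
    (P : Finset (SimpleGraph α)) : Prop where
  hs : s ∈ V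
  ht : t ∈ V
  st : s ≠ t
  ham : ∀ π ∈ P, IsHam V s t π
  rect : ∀ π ∈ P, ∀ π' ∈ P, ∀ i, mixg χ hχ i π π' ∈ P

/-- number of neighbours along edges of colour `i` -/
noncomputable def cd (χ : α → α → ι) (S : SimpleGraph α) (v : α) (i : ι) : ℕ :=
  ((nb S v).filter fun u => χ v u = i).card

variable {χ : α → α → ι} {hχ : ∀ u v, χ u v = χ v u} {P : Finset (SimpleGraph α)}

omit [Fintype α] [DecidableEq α] in
theorem card_nb_eq [Fintype α] (D : Dat V s t χ hχ P) {π π' : SimpleGraph α} (hπ : π ∈ P) (hπ' : π' ∈ P)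
    {v : α} (hv : v ∈ V) : (nb π v).card = (nb π' v).card := by
  by_cases h1 : v = s
  · subst h1; rw [(D.ham π hπ).ds, (D.ham π' hπ').ds]
  · by_cases h2 : v = t
    · subst h2; rw [(D.ham π hπ).dt, (D.ham π' hπ').dt]
    · rw [(D.ham π hπ).two hv h1 h2, (D.ham π' hπ').two hv h1 h2]

omit [Fintype α] in
theorem cd_const [Fintype α] (D : Dat V s t χ hχ P) {π π' : SimpleGraph α} (hπ : π ∈ P) (hπ' : π' ∈ P)
    {v : α} (hv : v ∈ V) (i : ι) : cd χ π v i = cd χ π' v i := by
  have h1 : nb (mixg χ hχ i π π') v =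
      ((nb π v).filter fun u => χ v u = i) ∪ ((nb π' v).filter fun u => ¬ χ v u = i) := by
    ext u
    simp only [mem_nb, mem_union, mem_filter, mixg]
    tauto
  have h2 : Disjoint ((nb π v).filter fun u => χ v u = i)
      ((nb π' v).filter fun u => ¬ χ v u = i) := by
    rw [disjoint_left]
    intro u hu hu'
    exact (mem_filter.1 hu').2 (mem_filter.1 hu).2
  have h3 := card_nb_eq D (D.rect π hπ π' hπ' i) hπ' hv
  rw [h1, card_union_of_disjoint h2] at h3
  have h4 := card_filter_add_card_filter_not (s := nb π' v) (fun u => χ v u = i)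
  unfold cd
  omega

/-- the ports: two for each inner vertex, one for `s` and `t` -/
def ports (V : Finset α) (s t : α) : Finset (α × Bool) :=
  univ.filter fun q => q.1 ∈ V ∧ (q.2 = true → q.1 ≠ s ∧ q.1 ≠ t)

theorem mem_ports {q : α × Bool} : q ∈ ports V s t ↔ q.1 ∈ V ∧ (q.2 = true → q.1 ≠ s ∧ q.1 ≠ t) := by
  simp [ports]

/-- `e` lists the neighbours of the vertices in `π`. -/
structure Enum (V : Finset α) (s t : α) (π : SimpleGraph α) (e : α → Bool → α) : Prop where
  adj : ∀ v b, (v, b) ∈ ports V s t → π.Adj v (e v b)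
  inj : ∀ v b b', (v, b) ∈ ports V s t → (v, b') ∈ ports V s t → e v b = e v b' → b = b'

theorem Enum.surj {π : SimpleGraph α} {e : α → Bool → α} (h : Enum V s t π e)
    (hH : IsHam V s t π) {v u : α} (huv : π.Adj v u) : ∃ b, (v, b) ∈ ports V s t ∧ e v b = u := by
  have hv : v ∈ V := hH.supp _ _ huv
  by_cases h1 : v = s ∨ v = t
  · have hp : (v, false) ∈ ports V s t := mem_ports.2 ⟨hv, by simp⟩
    refine ⟨false, hp, ?_⟩
    have hc : (nb π v).card = 1 := by
      rcases h1 with rfl | rfl
      · exact hH.ds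
      · exact hH.dt
    rw [card_eq_one] at hc
    obtain ⟨a, ha⟩ := hc
    have m1 := mem_nb.2 huv
    have m2 := mem_nb.2 (h.adj v false hp)
    rw [ha, mem_singleton] at m1 m2
    rw [m1, m2]
  · push Not at h1
    have hp : ∀ b, (v, b) ∈ ports V s t := fun b => mem_ports.2 ⟨hv, fun _ => h1⟩
    by_contra hcon
    push Not at hcon
    have hne : e v false ≠ e v true := fun hh => by
      have := h.inj v false true (hp _) (hp _) hh
      exact absurd this (by simp)
    have hsub : ({u, e v false, e v true} : Finset α) ⊆ nb π v := by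
      intro x hx
      simp only [mem_insert, mem_singleton] at hx
      rw [mem_nb]
      rcases hx with rfl | rfl | rfl
      · exact huv
      · exact h.adj v false (hp _)
      · exact h.adj v true (hp _)
    have hc := card_le_card hsub
    rw [hH.two hv h1.1 h1.2, card_insert_of_notMem, card_pair hne] at hc
    · omega
    · simp only [mem_insert, mem_singleton, not_or]
      exact ⟨fun hh => hcon false (hp _) hh.symm, fun hh => hcon true (hp _) hh.symm⟩

omit [DecidableEq ι] in
theorem exists_enum {π : SimpleGraph α} (hH : IsHam V s t π) :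
    ∃ e : α → Bool → α, Enum V s t π e := by
  have key : ∀ v, ∃ f : Bool → α, (∀ b, (v, b) ∈ ports V s t → π.Adj v (f b)) ∧
      (∀ b b', (v, b) ∈ ports V s t → (v, b') ∈ ports V s t → f b = f b' → b = b') := by
    intro v
    by_cases hv : v ∈ V
    · by_cases h1 : v = s ∨ v = t
      · have hc : (nb π v).card = 1 := by
          rcases h1 with rfl | rfl
          · exact hH.ds
          · exact hH.dt
        rw [card_eq_one] at hc
        obtain ⟨a, ha⟩ := hc
        refine ⟨fun _ => a, fun b _ => ?_, fun b b' hb hb' _ => ?_⟩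
        · rw [← mem_nb, ha]; exact mem_singleton_self a
        · rw [mem_ports] at hb hb'
          have hb1 : b = false := by
            by_contra hh
            have := hb.2 (by simpa using hh)
            tauto
          have hb2 : b' = false := by
            by_contra hh
            have := hb'.2 (by simpa using hh)
            tauto
          rw [hb1, hb2]
      · push Not at h1
        have hc := hH.two hv h1.1 h1.2
        rw [card_eq_two] at hc
        obtain ⟨a, b, hab, hh⟩ := hc
        refine ⟨fun c => if c then a else b, fun c _ => ?_, fun c c' _ _ h2 => ?_⟩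
        · rw [← mem_nb, hh]
          cases c <;> simp
        · cases c <;> cases c' <;> simp at h2 ⊢
          · exact hab h2.symm
          · exact hab h2
    · exact ⟨fun _ => v, fun b hb => absurd (mem_ports.1 hb).1 hv,
        fun b b' hb => absurd (mem_ports.1 hb).1 hv⟩
  choose f hf using key
  exact ⟨f, fun v b h => (hf v).1 b h, fun v b b' => (hf v).2 b b'⟩

/-- An enumeration with prescribed colours. -/
theorem exists_enum_col (D : Dat V s t χ hχ P) {π₀ π : SimpleGraph α} (hπ₀ : π₀ ∈ P) (hπ : π ∈ P)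
    {e₀ : α → Bool → α} (h₀ : Enum V s t π₀ e₀) :
    ∃ e : α → Bool → α, Enum V s t π e ∧
      ∀ v b, (v, b) ∈ ports V s t → χ v (e v b) = χ v (e₀ v b) := by
  have key : ∀ v, ∃ f : Bool → α, (∀ b, (v, b) ∈ ports V s t → π.Adj v (f b)) ∧
      (∀ b b', (v, b) ∈ ports V s t → (v, b') ∈ ports V s t → f b = f b' → b = b') ∧
      (∀ b, (v, b) ∈ ports V s t → χ v (f b) = χ v (e₀ v b)) := by
    intro v
    by_cases hv : v ∈ V
    · by_cases h1 : v = s ∨ v = t
      · have hp : (v, false) ∈ ports V s t := mem_ports.2 ⟨hv, by simp⟩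
        have hb1 : ∀ b, (v, b) ∈ ports V s t → b = false := by
          intro b hb
          rw [mem_ports] at hb
          by_contra hh
          have := hb.2 (by simpa using hh)
          tauto
        have h2 : 0 < cd χ π v (χ v (e₀ v false)) := by
          rw [cd_const D hπ hπ₀ hv]
          apply card_pos.2
          exact ⟨e₀ v false, mem_filter.2 ⟨mem_nb.2 (h₀.adj v false hp), rfl⟩⟩
        obtain ⟨a, ha⟩ := card_pos.1 h2
        rw [mem_filter, mem_nb] at ha
        refine ⟨fun _ => a, fun b _ => ha.1, fun b b' hb hb' _ => ?_, fun b hb => ?_⟩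
        · rw [hb1 b hb, hb1 b' hb']
        · rw [hb1 b hb]; exact ha.2
      · push Not at h1
        have hp : ∀ b, (v, b) ∈ ports V s t := fun b => mem_ports.2 ⟨hv, fun _ => h1⟩
        by_cases h2 : χ v (e₀ v false) = χ v (e₀ v true)
        · have h3 : 1 < cd χ π v (χ v (e₀ v false)) := by
            rw [cd_const D hπ hπ₀ hv]
            apply one_lt_card.2
            refine ⟨e₀ v false, mem_filter.2 ⟨mem_nb.2 (h₀.adj v false (hp _)), rfl⟩,
              e₀ v true, mem_filter.2 ⟨mem_nb.2 (h₀.adj v true (hp _)), h2.symm⟩, fun hh => ?_⟩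
            have := h₀.inj v false true (hp _) (hp _) hh
            exact absurd this (by simp)
          obtain ⟨a, ha, b, hb, hab⟩ := one_lt_card.1 h3
          rw [mem_filter, mem_nb] at ha hb
          refine ⟨fun c => if c then a else b, fun c _ => ?_, fun c c' _ _ h4 => ?_, fun c _ => ?_⟩
          · cases c
            · exact hb.1
            · exact ha.1
          · cases c <;> cases c' <;> simp at h4 ⊢
            · exact hab h4.symm
            · exact hab h4
          · cases c
            · exact hb.2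
            · show χ v a = _
              rw [ha.2, h2]
        · have h3 : 0 < cd χ π v (χ v (e₀ v false)) := by
            rw [cd_const D hπ hπ₀ hv]
            exact card_pos.2
              ⟨e₀ v false, mem_filter.2 ⟨mem_nb.2 (h₀.adj v false (hp _)), rfl⟩⟩
          have h4 : 0 < cd χ π v (χ v (e₀ v true)) := by
            rw [cd_const D hπ hπ₀ hv]
            exact card_pos.2
              ⟨e₀ v true, mem_filter.2 ⟨mem_nb.2 (h₀.adj v true (hp _)), rfl⟩⟩
          obtain ⟨b, hb⟩ := card_pos.1 h3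
          obtain ⟨a, ha⟩ := card_pos.1 h4
          rw [mem_filter, mem_nb] at ha hb
          have hab : a ≠ b := by rintro rfl; exact h2 (by rw [← hb.2, ha.2])
          refine ⟨fun c => if c then a else b, fun c _ => ?_, fun c c' _ _ h4 => ?_, fun c _ => ?_⟩
          · cases c
            · exact hb.1
            · exact ha.1
          · cases c <;> cases c' <;> simp at h4 ⊢
            · exact hab h4.symm
            · exact hab h4
          · cases c
            · exact hb.2
            · exact ha.2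
    · exact ⟨fun _ => v, fun b hb => absurd (mem_ports.1 hb).1 hv,
        fun b b' hb => absurd (mem_ports.1 hb).1 hv, fun b hb => absurd (mem_ports.1 hb).1 hv⟩
  choose f hf using key
  exact ⟨f, ⟨fun v b h => (hf v).1 b h, fun v b b' => (hf v).2.1 b b'⟩, fun v b => (hf v).2.2 b⟩

/-- `μ` is a matching of the ports which lies over `π`. -/
structure IsLift (V : Finset α) (s t : α) (χ : α → α → ι) (cl : α × Bool → ι) (π : SimpleGraph α)
    (μ : α × Bool → α × Bool) : Prop where
  im : IsM (ports V s t) cl μ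
  adj : ∀ q ∈ ports V s t, π.Adj q.1 (μ q).1 ∧ χ q.1 (μ q).1 = cl q
  surj : ∀ v u, π.Adj v u → ∃ b, (v, b) ∈ ports V s t ∧ (μ (v, b)).1 = u

theorem exists_lift {π : SimpleGraph α} (hH : IsHam V s t π) {e : α → Bool → α}
    (he : Enum V s t π e) (hχ : ∀ u v, χ u v = χ v u) {cl : α × Bool → ι}
    (hc : ∀ v b, (v, b) ∈ ports V s t → χ v (e v b) = cl (v, b)) :
    ∃ μ, IsLift V s t χ cl π μ := by
  classical
  have hsl : ∀ x v, ∃ b, π.Adj x v → (x, b) ∈ ports V s t ∧ e x b = v := by
    intro x v
    by_cases h : π.Adj x v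
    · obtain ⟨b, hb⟩ := he.surj hH h
      exact ⟨b, fun _ => hb⟩
    · exact ⟨false, fun h' => absurd h' h⟩
  choose sl hsl using hsl
  obtain ⟨μ, hM⟩ : ∃ μ : α × Bool → α × Bool, μ = fun q =>
      if q ∈ ports V s t then (e q.1 q.2, sl (e q.1 q.2) q.1) else q := ⟨_, rfl⟩
  have hμ : ∀ v b, (v, b) ∈ ports V s t → μ (v, b) = (e v b, sl (e v b) v) := by
    intro v b h
    rw [hM]
    simp only [if_pos h]
  have hμ' : ∀ q, q ∉ ports V s t → μ q = q := by
    intro q h
    rw [hM]
    simp only [if_neg h]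
  refine ⟨μ, ?_⟩
  have hadj : ∀ v b, (v, b) ∈ ports V s t → π.Adj v (e v b) := he.adj
  have hmem : ∀ v b, (v, b) ∈ ports V s t → (e v b, sl (e v b) v) ∈ ports V s t ∧
      e (e v b) (sl (e v b) v) = v := fun v b h => hsl _ _ (hadj v b h).symm
  refine ⟨⟨?_, ?_, ?_, ?_, ?_⟩, ?_, ?_⟩
  · exact hμ'
  · rintro ⟨v, b⟩ h
    rw [hμ v b h]; exact (hmem v b h).1
  · rintro ⟨v, b⟩ h
    obtain ⟨h1, h2⟩ := hmem v b h
    rw [hμ v b h, hμ _ _ h1, h2]
    have h3 := hsl v (e v b) (hadj v b h)
    rw [Prod.mk.injEq]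
    exact ⟨rfl, he.inj v _ _ h3.1 h h3.2⟩
  · rintro ⟨v, b⟩ h
    rw [hμ v b h]
    intro hh
    rw [Prod.mk.injEq] at hh
    exact (hadj v b h).ne hh.1.symm
  · rintro ⟨v, b⟩ h
    obtain ⟨h1, h2⟩ := hmem v b h
    rw [hμ v b h, ← hc _ _ h1, ← hc _ _ h, h2, hχ]
  · rintro ⟨v, b⟩ h
    rw [hμ v b h]
    exact ⟨hadj v b h, hc v b h⟩
  · intro v u huv
    obtain ⟨b, hb, rfl⟩ := he.surj hH huv
    exact ⟨b, hb, by rw [hμ v b hb]⟩

/-- exchange the two ports of the vertices in `ε` -/
def fl (ε : Finset α) (q : α × Bool) : α × Bool := if q.1 ∈ ε then (q.1, !q.2) else q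

theorem fl_fst (ε : Finset α) (q : α × Bool) : (fl ε q).1 = q.1 := by
  unfold fl; split_ifs <;> rfl

theorem fl_fl (ε : Finset α) (q : α × Bool) : fl ε (fl ε q) = q := by
  unfold fl; split_ifs with h1 h2 <;> simp_all

theorem fl_ports {ε : Finset α} (hε : ∀ v ∈ ε, v ≠ s ∧ v ≠ t) (q : α × Bool) :
    fl ε q ∈ ports V s t ↔ q ∈ ports V s t := by
  by_cases h : q.1 ∈ ε
  · have := hε _ h
    simp only [mem_ports, fl_fst]
    tauto
  · unfold fl; rw [if_neg h]

theorem fl_cl {ε : Finset α} {cl : α × Bool → ι} (hε : ∀ v ∈ ε, cl (v, false) = cl (v, true))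
    (q : α × Bool) : cl (fl ε q) = cl q := by
  unfold fl
  split_ifs with h
  · obtain ⟨v, b⟩ := q
    have := hε v h
    cases b
    · exact this.symm
    · exact this
  · rfl

theorem IsLift.flip {π : SimpleGraph α} {cl : α × Bool → ι} {μ : α × Bool → α × Bool}
    (h : IsLift V s t χ cl π μ) {ε : Finset α} (hε : ∀ v ∈ ε, v ≠ s ∧ v ≠ t)
    (hc : ∀ v ∈ ε, cl (v, false) = cl (v, true)) :
    IsLift V s t χ cl π (fun q => fl ε (μ (fl ε q))) := by
  have hp := fl_ports (V := V) hε
  refine ⟨⟨?_, ?_, ?_, ?_, ?_⟩, ?_, ?_⟩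
  · intro q hq
    rw [h.im.out _ (fun hh => hq ((hp q).1 hh)), fl_fl]
  · intro q hq
    rw [hp]; exact h.im.mem _ ((hp q).2 hq)
  · intro q hq
    simp only [fl_fl]
    rw [h.im.inv _ ((hp q).2 hq), fl_fl]
  · intro q hq hh
    apply h.im.ne _ ((hp q).2 hq)
    rw [← fl_fl ε (μ (fl ε q)), hh]
  · intro q hq
    rw [fl_cl hc, h.im.cls _ ((hp q).2 hq), fl_cl hc]
  · intro q hq
    have := h.adj _ ((hp q).2 hq)
    rw [fl_fst, fl_cl hc] at this
    rw [fl_fst]; exact this
  · intro v u huv
    obtain ⟨b, hb, hh⟩ := h.surj v u huv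
    have h1 : (fl ε (v, b)).1 = v := fl_fst _ _
    refine ⟨(fl ε (v, b)).2, ?_, ?_⟩
    · have : (v, (fl ε (v, b)).2) = fl ε (v, b) := by
        rw [Prod.ext_iff]; exact ⟨h1.symm, rfl⟩
      rw [this, hp]; exact hb
    · have : (v, (fl ε (v, b)).2) = fl ε (v, b) := by
        rw [Prod.ext_iff]; exact ⟨h1.symm, rfl⟩
      rw [this, fl_fl, fl_fst, hh]

/-- The two ports of an inner vertex lead to different vertices. -/
theorem IsLift.ne {π : SimpleGraph α} {cl : α × Bool → ι} {μ : α × Bool → α × Bool}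
    (h : IsLift V s t χ cl π μ) (hH : IsHam V s t π) {v : α} (hv : v ∈ V) (hs : v ≠ s)
    (ht : v ≠ t) : (μ (v, false)).1 ≠ (μ (v, true)).1 := by
  intro hh
  have hc := hH.two hv hs ht
  have : nb π v ⊆ {(μ (v, true)).1} := by
    intro u hu
    rw [mem_nb] at hu
    obtain ⟨b, _, hb⟩ := h.surj v u hu
    rw [mem_singleton, ← hb]
    cases b
    · exact hh
    · rfl
  have := card_le_card this
  rw [hc, card_singleton] at this
  omega

end Run7.h850
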