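import Pool.Agent.Run7.h850.Rect

/-!
The general bound for three families all of whose unions are `s`-`t` paths.
-/

set_option autoImplicit false

namespace Run7.h850

open Finset

variable {α : Type*} [Fintype α] [DecidableEq α]
variable {V : Finset α} {s t : α}
variable {A : Fin 3 → Set (SimpleGraph α)} {P : Finset (SimpleGraph α)} {D : ℕ}

theorem Fam.card_small (F : Fam V s t A P D) (hV : V.card ≤ 3) : P.card ≤ 512 := by
  classical
  have h1 : P.card ≤ ((V ×ˢ V).powerset).card := by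
    apply card_le_card_of_injOn (fun π => (V ×ˢ V).filter fun q => q.2 ∈ nb π q.1)
    · intro π _
      rw [mem_coe, mem_powerset]
      exact filter_subset _ _
    · intro π hπ π' hπ' heq
      rw [mem_coe] at hπ hπ'
      simp only at heq
      ext u w
      have h2 : ∀ ρ ∈ P, (ρ.Adj u w ↔ (u, w) ∈ (V ×ˢ V).filter fun q => q.2 ∈ nb ρ q.1) := by
        intro ρ hρ
        rw [mem_filter, mem_product, mem_nb]
        constructor
        · intro h
          exact ⟨⟨(F.ham ρ hρ).supp _ _ h, (F.ham ρ hρ).supp _ _ h.symm⟩, h⟩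
        · exact fun h => h.2
      rw [h2 π hπ, h2 π' hπ', heq]
  rw [card_powerset, card_product] at h1
  refine h1.trans ?_
  have : V.card * V.card ≤ 9 := by nlinarith
  calc 2 ^ (V.card * V.card) ≤ 2 ^ 9 := Nat.pow_le_pow_right (by omega) this
    _ = 512 := by norm_num

theorem K_step {N m : ℕ} (hm : 3 ≤ m) (hN : 1 ≤ N) :
    N * (m + 1) * N ^ (min (m - 2) N) ≤ N ^ (min m N) * (m * (m - 1)) := by
  obtain ⟨k, rfl⟩ : ∃ k, m = k + 3 := ⟨m - 3, by omega⟩
  have e1 : k + 3 - 2 = k + 1 := by omega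
  have e2 : k + 3 - 1 = k + 2 := by omega
  rw [e1, e2]
  by_cases h : k + 3 ≤ N + 1
  · have h1 : min (k + 1) N = k + 1 := by omega
    rw [h1]
    calc N * (k + 3 + 1) * N ^ (k + 1) = N ^ (k + 2) * (k + 4) := by ring
      _ ≤ N ^ (min (k + 3) N) * (k + 4) :=
          Nat.mul_le_mul_right _ (Nat.pow_le_pow_right hN (by omega))
      _ ≤ N ^ (min (k + 3) N) * ((k + 3) * (k + 2)) :=
          Nat.mul_le_mul_left _ (by nlinarith)
  · have h1 : min (k + 1) N = N := by omega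
    have h2 : min (k + 3) N = N := by omega
    rw [h1, h2]
    calc N * (k + 3 + 1) * N ^ N = N ^ N * (N * (k + 4)) := by ring
      _ ≤ N ^ N * ((k + 1) * (k + 4)) :=
          Nat.mul_le_mul_left _ (Nat.mul_le_mul_right _ (by omega))
      _ ≤ _ := Nat.mul_le_mul_left _ (by nlinarith)

theorem Fam.split_key (F : Fam V s t A P D) {v : α} (hvs : v ≠ s) (hvt : v ≠ t) (S0 : Finset α)
    (hS0 : S0.card ≤ 2) (hmeet : ∀ π ∈ P, ∃ z ∈ S0, π.Adj v z) (B : ℕ)
    (hB : ∀ (z1 z2 : α) (κ : Fin 3 → Finset α) (P' : Finset (SimpleGraph α)), z1 ≠ z2 → P'.Nonempty →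
      (∀ c : Fin 3 → SimpleGraph α, (∀ i, c i ∈ {S | S ∈ A i ∧ nb S v = κ i}) →
        ∀ w, (⨆ i, c i).Adj v w ↔ (w = z1 ∨ w = z2)) →
      Fam V s t (fun i => {S | S ∈ A i ∧ nb S v = κ i}) P' D → P'.card ≤ B) :
    P.card ≤ 2 * (V.card * 64) * B := by
  classical
  obtain ⟨κ, hκ⟩ : ∃ κ : α × α × (Fin 3 → Bool × Bool) → Fin 3 → Finset α, κ = fun k i =>
    (if (k.2.2 i).1 then {k.1} else ∅) ∪ (if (k.2.2 i).2 then {k.2.1} else ∅) := ⟨_, rfl⟩
  obtain ⟨Pk, hPk⟩ : ∃ Pk : α × α × (Fin 3 → Bool × Bool) → Finset (SimpleGraph α), Pk = fun k =>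
    P.filter fun π => k.1 ≠ k.2.1 ∧ nb π v = {k.1, k.2.1} ∧ ∃ c : Fin 3 → SimpleGraph α,
      (∀ i, c i ∈ A i) ∧ π = ⨆ i, c i ∧ Split c D π ∧ ∀ i, nb (c i) v = κ k i := ⟨_, rfl⟩
  have hmemPk : ∀ k π, π ∈ Pk k ↔ π ∈ P ∧ k.1 ≠ k.2.1 ∧ nb π v = {k.1, k.2.1} ∧
      ∃ c : Fin 3 → SimpleGraph α,
      (∀ i, c i ∈ A i) ∧ π = ⨆ i, c i ∧ Split c D π ∧ ∀ i, nb (c i) v = κ k i := by
    intro k π
    rw [hPk, mem_filter]
  set K : Finset (α × α × (Fin 3 → Bool × Bool)) := S0 ×ˢ (V ×ˢ univ) with hK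
  have hcov : P ⊆ K.biUnion Pk := by
    intro π hπ
    obtain ⟨c, hc, h1, h2⟩ := F.cov π hπ
    obtain ⟨z1, hz1, hadj1⟩ := hmeet π hπ
    obtain ⟨z2, hadj2, hne⟩ := (F.ham π hπ).toIsPth.other hadj1.symm hvs hvt
    have hc2 := ((F.ham π hπ).toIsPth.card_two hadj1 hadj2 hne.symm).2.2
    rw [mem_biUnion]
    refine ⟨(z1, z2, fun i => (decide ((c i).Adj v z1), decide ((c i).Adj v z2))), ?_, ?_⟩
    · rw [hK, mem_product, mem_product]
      exact ⟨hz1, (F.ham π hπ).supp _ _ hadj2.symm, mem_univ _⟩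
    · rw [hmemPk]
      refine ⟨hπ, hne.symm, ?_, c, hc, h1, h2, ?_⟩
      · ext w
        simp only [mem_insert, mem_singleton]
        rw [mem_nb]
        constructor
        · intro hw; exact nb_two hc2 hadj1 hadj2 hne.symm hw
        · rintro (rfl | rfl)
          · exact hadj1
          · exact hadj2
      · intro i
        ext w
        rw [mem_nb, hκ]
        simp only [mem_union, decide_eq_true_eq]
        have hle : (c i).Adj v w → w = z1 ∨ w = z2 := by
          intro hw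
          apply nb_two hc2 hadj1 hadj2 hne.symm
          rw [h1, SimpleGraph.iSup_adj]
          exact ⟨i, hw⟩
        constructor
        · intro hw
          rcases hle hw with rfl | rfl
          · left; rw [if_pos hw]; exact mem_singleton_self _
          · right; rw [if_pos hw]; exact mem_singleton_self _
        · rintro (hw | hw)
          · split_ifs at hw with h3
            · rw [mem_singleton] at hw; rw [hw]; exact h3
            · exact absurd hw (notMem_empty _)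
          · split_ifs at hw with h3
            · rw [mem_singleton] at hw; rw [hw]; exact h3
            · exact absurd hw (notMem_empty _)
  have hb : ∀ k ∈ K, (Pk k).card ≤ B := by
    intro k _
    rcases (Pk k).eq_empty_or_nonempty with he | hne
    · rw [he, card_empty]; exact Nat.zero_le _
    · obtain ⟨π, hπ⟩ := hne
      obtain ⟨hπP, hz, hnb, c, hc, h1, h2, h3⟩ := (hmemPk k π).1 hπ
      apply hB k.1 k.2.1 (κ k) (Pk k) hz ⟨π, hπ⟩
      · intro c' hc' w
        have h4 : ∀ d : Fin 3 → SimpleGraph α, (∀ i, nb (d i) v = κ k i) →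
            ((⨆ i, d i).Adj v w ↔ ∃ i, w ∈ κ k i) := by
          intro d hd
          rw [SimpleGraph.iSup_adj]
          constructor
          · rintro ⟨i, hi⟩; exact ⟨i, by rw [← hd i]; exact mem_nb.2 hi⟩
          · rintro ⟨i, hi⟩; exact ⟨i, mem_nb.1 (by rw [hd i]; exact hi)⟩
        rw [h4 c' fun i => (hc' i).2, ← h4 c h3, ← h1, ← mem_nb, hnb]
        simp
      · refine ⟨F.hs, F.ht, F.st, ?_, ?_, ?_⟩
        · intro c' hc'; exact F.pth c' fun i => (hc' i).1
        · intro ρ hρ; exact F.ham ρ ((hmemPk k ρ).1 hρ).1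
        · intro ρ hρ
          obtain ⟨_, _, _, c', hc', h1', h2', h3'⟩ := (hmemPk k ρ).1 hρ
          exact ⟨c', fun i => ⟨hc' i, h3' i⟩, h1', h2'⟩
  have hKc : K.card ≤ 2 * (V.card * 64) := by
    rw [hK, card_product, card_product, card_univ, Fintype.card_pi]
    simp only [Fintype.card_prod, Fintype.card_bool, prod_const, card_univ, Fintype.card_fin]
    exact Nat.mul_le_mul_right _ hS0
  calc P.card ≤ (K.biUnion Pk).card := card_le_card hcov
    _ ≤ K.card * B := card_biUnion_le_card_mul _ _ _ hb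
    _ ≤ _ := Nat.mul_le_mul_right _ hKc

/-- An edge of a member has an inner end. -/
theorem IsHam.inner {S : SimpleGraph α} (h : IsHam V s t S) (hV : 4 ≤ V.card) {u w : α}
    (huw : S.Adj u w) : (u ≠ s ∧ u ≠ t) ∨ (w ≠ s ∧ w ≠ t) := by
  by_contra hcon
  have hst : (u = s ∧ w = t) ∨ (u = t ∧ w = s) := by
    have := huw.ne
    by_cases h1 : u = s
    · by_cases h2 : w = t
      · exact Or.inl ⟨h1, h2⟩
      · exfalso; apply hcon; right
        exact ⟨fun h3 => this (h1.trans h3.symm), h2⟩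
    · by_cases h2 : u = t
      · by_cases h3 : w = s
        · exact Or.inr ⟨h2, h3⟩
        · exfalso; apply hcon; right
          exact ⟨h3, fun h4 => this (h2.trans h4.symm)⟩
      · exfalso; exact hcon (Or.inl ⟨h1, h2⟩)
  have hadj : S.Adj s t := by
    rcases hst with ⟨rfl, rfl⟩ | ⟨rfl, rfl⟩
    · exact huw
    · exact huw.symm
  have h1 : ∀ w, S.Adj s w → w = t := by
    intro w hw
    have h2 := h.ds
    rw [card_eq_one] at h2
    obtain ⟨a, ha⟩ := h2
    have m1 := mem_nb.2 hw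
    have m2 := mem_nb.2 hadj
    rw [ha, mem_singleton] at m1 m2
    rw [m1, m2]
  have h2 : ∀ w, S.Adj t w → w = s := by
    intro w hw
    have h2 := h.dt
    rw [card_eq_one] at h2
    obtain ⟨a, ha⟩ := h2
    have m1 := mem_nb.2 hw
    have m2 := mem_nb.2 hadj.symm
    rw [ha, mem_singleton] at m1 m2
    rw [m1, m2]
  have h3 := h.closed {x | x = s ∨ x = t} (by
      rintro v (rfl | rfl)
      · exact h.supp _ _ hadj
      · exact h.supp _ _ hadj.symm) (by
      rintro a (rfl | rfl) b hab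
      · exact Or.inr (h1 b hab)
      · exact Or.inl (h2 b hab)) ⟨s, Or.inl rfl⟩
  have h4 : V ⊆ {s, t} := by
    intro x hx
    rw [mem_insert, mem_singleton]
    exact h3 x hx
  have h5 := card_le_card h4
  have h6 := card_le_two (a := s) (b := t)
  omega

/-- One of the neighbours of an inner vertex is an inner vertex. -/
theorem IsHam.inner_nb {S : SimpleGraph α} (h : IsHam V s t S) (hV : 4 ≤ V.card) {v z1 z2 : α}
    (hz : z1 ≠ z2) (h1 : S.Adj v z1) (h2 : S.Adj v z2) :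
    (z1 ≠ s ∧ z1 ≠ t) ∨ (z2 ≠ s ∧ z2 ≠ t) := by
  by_contra hcon
  have hst : (z1 = s ∧ z2 = t) ∨ (z1 = t ∧ z2 = s) := by
    by_cases h1 : z1 = s
    · by_cases h2 : z2 = t
      · exact Or.inl ⟨h1, h2⟩
      · exfalso; apply hcon; right
        exact ⟨fun h3 => hz (h1.trans h3.symm), h2⟩
    · by_cases h2 : z1 = t
      · by_cases h3 : z2 = s
        · exact Or.inr ⟨h2, h3⟩
        · exfalso; apply hcon; right
          exact ⟨h3, fun h4 => hz (h2.trans h4.symm)⟩
      · exfalso; exact hcon (Or.inl ⟨h1, h2⟩)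
  have hc := h.toIsPth.card_two h1 h2 hz
  have hadj : S.Adj s v ∧ S.Adj t v := by
    rcases hst with ⟨rfl, rfl⟩ | ⟨rfl, rfl⟩
    · exact ⟨h1.symm, h2.symm⟩
    · exact ⟨h2.symm, h1.symm⟩
  have g1 : ∀ w, S.Adj s w → w = v := by
    intro w hw
    have h2 := h.ds
    rw [card_eq_one] at h2
    obtain ⟨a, ha⟩ := h2
    have m1 := mem_nb.2 hw
    have m2 := mem_nb.2 hadj.1
    rw [ha, mem_singleton] at m1 m2
    rw [m1, m2]
  have g2 : ∀ w, S.Adj t w → w = v := by
    intro w hw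
    have h2 := h.dt
    rw [card_eq_one] at h2
    obtain ⟨a, ha⟩ := h2
    have m1 := mem_nb.2 hw
    have m2 := mem_nb.2 hadj.2
    rw [ha, mem_singleton] at m1 m2
    rw [m1, m2]
  have g3 : ∀ w, S.Adj v w → w = s ∨ w = t := by
    intro w hw
    rcases nb_two hc.2.2 h1 h2 hz hw with rfl | rfl
    · rcases hst with h3 | h3
      · exact Or.inl h3.1
      · exact Or.inr h3.1
    · rcases hst with h3 | h3
      · exact Or.inr h3.2
      · exact Or.inl h3.2
  have h3 := h.closed {x | x = s ∨ x = t ∨ x = v} (by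
      rintro x (rfl | rfl | rfl)
      · exact h.supp _ _ hadj.1
      · exact h.supp _ _ hadj.2
      · exact h.supp _ _ h1) (by
      rintro a (rfl | rfl | rfl) b hab
      · exact Or.inr (Or.inr (g1 b hab))
      · exact Or.inr (Or.inr (g2 b hab))
      · rcases g3 b hab with h3 | h3
        · exact Or.inl h3
        · exact Or.inr (Or.inl h3)) ⟨s, Or.inl rfl⟩
  have h4 : V ⊆ {s, t, v} := by
    intro x hx
    rw [mem_insert, mem_insert, mem_singleton]
    exact h3 x hx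
  have h5 := card_le_card h4
  have h6 := card_le_three (a := s) (b := t) (c := v)
  omega

/-- two contractions -/
theorem Fam.two_contr (F : Fam V s t A P D) (hV : 4 ≤ V.card) {v z1 z2 : α} (hvs : v ≠ s)
    (hvt : v ≠ t) (hz : z1 ≠ z2) (hne : P.Nonempty)
    (hadj : ∀ c : Fin 3 → SimpleGraph α, (∀ i, c i ∈ A i) →
      ∀ w, (⨆ i, c i).Adj v w ↔ (w = z1 ∨ w = z2)) :
    ∃ (V' : Finset α) (A' : Fin 3 → Set (SimpleGraph α)) (P' : Finset (SimpleGraph α)),
      V'.card + 2 = V.card ∧ Fam V' s t A' P' D ∧ P.card ≤ 4 * P'.card := by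
  have main : ∀ x y : α, x ≠ y → (y ≠ s ∧ y ≠ t) → (∀ c : Fin 3 → SimpleGraph α,
      (∀ i, c i ∈ A i) → (⨆ i, c i).Adj v x ∧ (⨆ i, c i).Adj v y) →
      ∃ (V' : Finset α) (A' : Fin 3 → Set (SimpleGraph α)) (P' : Finset (SimpleGraph α)),
      V'.card + 2 = V.card ∧ Fam V' s t A' P' D ∧ P.card ≤ 4 * P'.card := by
    intro x y hxy hy had
    obtain ⟨P1, F1, h1⟩ := F.contr (x := x) (y := v) hvs hvt fun c hc => (had c hc).1.symm
    obtain ⟨P2, F2, h2⟩ := F1.contr (x := x) (y := y) hy.1 hy.2 (by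
      intro c hc
      choose c' hc' using hc
      have h1 : c = fun i => Run7.h850.contr x v (c' i) := funext fun i => (hc' i).2.symm
      rw [h1, ← contr_iSup]
      obtain ⟨h2, h3⟩ := had c' fun i => (hc' i).1
      exact ⟨hxy, h2.ne.symm, h3.ne.symm, Or.inr (Or.inl ⟨rfl, h3⟩)⟩)
    refine ⟨_, _, P2, ?_, F2, by omega⟩
    obtain ⟨π, hπ⟩ := hne
    obtain ⟨c, hc, h3, _⟩ := F.cov π hπ
    obtain ⟨h4, h5⟩ := had c hc
    rw [← h3] at h4 h5
    have hv : v ∈ V := (F.ham π hπ).supp _ _ h4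
    have hyV : y ∈ V.erase v := mem_erase.2 ⟨h5.ne.symm, (F.ham π hπ).supp _ _ h5.symm⟩
    rw [card_erase_of_mem hyV, card_erase_of_mem hv]
    omega
  obtain ⟨π, hπ⟩ := hne
  obtain ⟨c, hc, h3, _⟩ := F.cov π hπ
  have h4 : π.Adj v z1 := by rw [h3, hadj c hc]; exact Or.inl rfl
  have h5 : π.Adj v z2 := by rw [h3, hadj c hc]; exact Or.inr rfl
  rcases (F.ham π hπ).inner_nb hV hz h4 h5 with h6 | h6
  · exact main z2 z1 hz.symm h6 fun c hc =>
      ⟨(hadj c hc z2).2 (Or.inr rfl), (hadj c hc z1).2 (Or.inl rfl)⟩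
  · exact main z1 z2 hz h6 fun c hc =>
      ⟨(hadj c hc z1).2 (Or.inl rfl), (hadj c hc z2).2 (Or.inr rfl)⟩

theorem fam_bound {N : ℕ} (hN : N = 8192) : ∀ (m : ℕ) (V : Finset α)
    (A : Fin 3 → Set (SimpleGraph α)) (P : Finset (SimpleGraph α)) (D r : ℕ),
    Fam V s t A P D → V.card = m + 1 → D ≤ m + r →
    P.card * 2 ^ m ≤ 2048 * 2 ^ r * N ^ (min m N) * m.factorial := by
  intro m
  induction m using Nat.strong_induction_on with
  | _ m ih =>
  intro V A P D r F hV hD
  have hN1 : 1 ≤ N := by omega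
  have hK1 : 1 ≤ N ^ (min m N) := Nat.one_le_pow _ _ hN1
  have hf1 : 1 ≤ m.factorial := Nat.factorial_pos m
  have hr1 : 1 ≤ 2 ^ r := Nat.one_le_two_pow
  by_cases hm : m ≤ 2
  · have h1 := F.card_small (by omega)
    have h2 : 2 ^ m ≤ 2 ^ 2 := Nat.pow_le_pow_right (by omega) hm
    calc P.card * 2 ^ m ≤ 512 * 2 ^ 2 := Nat.mul_le_mul h1 h2
      _ = 2048 * 1 * 1 * 1 := by norm_num
      _ ≤ _ := Nat.mul_le_mul (Nat.mul_le_mul (Nat.mul_le_mul_left _ hr1) hK1) hf1
  push Not at hm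
  by_cases hov : NoOv (prt A P)
  · have h1 := F.noOv_bound hov hV hD
    refine h1.trans ?_
    calc 4 * 2 ^ r * m.factorial ≤ 2048 * 2 ^ r * 1 * m.factorial := by
          apply Nat.mul_le_mul_right; rw [mul_one]; exact Nat.mul_le_mul_right _ (by omega)
      _ ≤ _ := Nat.mul_le_mul_right _ (Nat.mul_le_mul_left _ hK1)
  · unfold NoOv at hov
    push Not at hov
    obtain ⟨i, j, hij, S, hS, S', hS', u, w, h1, h2⟩ := hov
    have F' := F.part
    obtain ⟨c, hc, hci, hcP⟩ := part_part hS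
    have hle : ∀ a b, S.Adj a b → (⨆ k, c k).Adj a b := fun a b h => by
      rw [SimpleGraph.iSup_adj]; exact ⟨i, by rw [hci]; exact h⟩
    obtain ⟨v, x, hvs, hvt, hvx, hvx'⟩ : ∃ v x, v ≠ s ∧ v ≠ t ∧ S.Adj v x ∧ S'.Adj v x := by
      rcases (F.ham _ hcP).inner (by omega) (hle u w h1) with h3 | h3
      · exact ⟨u, w, h3.1, h3.2, h1, h2⟩
      · exact ⟨w, u, h3.1, h3.2, h1.symm, h2.symm⟩
    have hS0 : (nb (S ⊔ S') v).card ≤ 2 := by
      have m1 : ∀ k, Function.update c j S' k ∈ prt A P k := by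
        intro k
        by_cases hk : k = j
        · subst hk; rw [Function.update_self]; exact hS'
        · rw [Function.update_of_ne hk]; exact hc k
      refine le_trans (card_le_card ?_) ((F'.pth _ m1).le_two v)
      intro z hz
      rw [mem_nb, SimpleGraph.sup_adj] at hz
      rw [mem_nb, SimpleGraph.iSup_adj]
      rcases hz with hz | hz
      · exact ⟨i, by rw [Function.update_of_ne hij, hci]; exact hz⟩
      · exact ⟨j, by rw [Function.update_self]; exact hz⟩
    have hvV : v ∈ V := (F.ham _ hcP).supp _ _ (hle v x hvx)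
    obtain ⟨M, hM⟩ : ∃ M, M = 2048 * 2 ^ (r + 2) * N ^ (min (m - 2) N) * (m - 2).factorial :=
      ⟨_, rfl⟩
    have hsplit := F'.split_key hvs hvt (nb (S ⊔ S') v) hS0 (by
      intro π hπ
      obtain ⟨d, hd, hd1, _⟩ := F'.cov π hπ
      obtain ⟨y, hy⟩ := (F.ham π hπ).all v hvV
      rw [hd1] at hy
      obtain ⟨z, hz1, hz2⟩ := F'.overlap hvs hvt hij hS hS' hvx hvx' hd hy
      refine ⟨z, ?_, by rw [hd1]; exact hz1⟩
      rw [mem_nb, SimpleGraph.sup_adj]
      exact hz2) (4 * M / 2 ^ (m - 2)) (by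
      intro z1 z2 κ P' hz hne hadj FF
      obtain ⟨V2, A2, P2, hV2, F2, hP2⟩ := FF.two_contr (by omega) hvs hvt hz hne hadj
      have h3 := ih (m - 2) (by omega) V2 A2 P2 D (r + 2) F2 (by omega) (by omega)
      rw [← hM] at h3
      rw [Nat.le_div_iff_mul_le (by positivity)]
      calc P'.card * 2 ^ (m - 2) ≤ (4 * P2.card) * 2 ^ (m - 2) := Nat.mul_le_mul_right _ hP2
        _ = 4 * (P2.card * 2 ^ (m - 2)) := by ring
        _ ≤ 4 * M := Nat.mul_le_mul_left _ h3)
    have hfac : m.factorial = m * (m - 1) * (m - 2).factorial := by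
      obtain ⟨k, rfl⟩ : ∃ k, m = k + 2 := ⟨m - 2, by omega⟩
      simp only [Nat.factorial_succ, Nat.add_sub_cancel]
      have : k + 2 - 1 = k + 1 := by omega
      rw [this]; ring
    have hpow : 2 ^ m = 2 ^ (m - 2) * 4 := by
      obtain ⟨k, rfl⟩ : ∃ k, m = k + 2 := ⟨m - 2, by omega⟩
      simp only [Nat.add_sub_cancel]
      rw [pow_add]; norm_num
    have hstep := K_step hm hN1
    calc P.card * 2 ^ m ≤ (2 * (V.card * 64) * (4 * M / 2 ^ (m - 2))) * 2 ^ m :=
          Nat.mul_le_mul_right _ hsplit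
      _ = 2 * (V.card * 64) * 4 * (4 * M / 2 ^ (m - 2) * 2 ^ (m - 2)) := by rw [hpow]; ring
      _ ≤ 2 * (V.card * 64) * 4 * (4 * M) := Nat.mul_le_mul_left _ (Nat.div_mul_le_self _ _)
      _ = 2048 * 2 ^ r * (8192 * (m + 1) * N ^ (min (m - 2) N)) * (m - 2).factorial := by
          rw [hV, hM, pow_add]; ring
      _ ≤ 2048 * 2 ^ r * (N ^ (min m N) * (m * (m - 1))) * (m - 2).factorial := by
          apply Nat.mul_le_mul_right
          apply Nat.mul_le_mul_left
          rw [← hN]; exact hstep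
      _ = _ := by rw [hfac]; ring

end Run7.h850
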