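import Mathlib

/-!
Perfect matchings on a set of ports.

A finite set `Q` of ports carries an involution `θ` without fixed points and classes `cl`.
We bound the number of elements of a set `F` of class-preserving perfect matchings of `Q`, which is
closed under exchanging the parts inside a class, if each of them forms a single cycle with `θ`.
-/

set_option autoImplicit false

namespace Run7.h850

open Finset

variable {β ι : Type*} [Fintype β] [DecidableEq β] [DecidableEq ι]

/-- `μ` is a class-preserving perfect matching of `Q`. -/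
structure IsM (Q : Finset β) (cl : β → ι) (μ : β → β) : Prop where
  out : ∀ q, q ∉ Q → μ q = q
  mem : ∀ q ∈ Q, μ q ∈ Q
  inv : ∀ q ∈ Q, μ (μ q) = q
  ne : ∀ q ∈ Q, μ q ≠ q
  cls : ∀ q ∈ Q, cl (μ q) = cl q

/-- `θ` and `μ` form a single cycle on `Q`. -/
def Cn (Q : Finset β) (θ μ : β → β) : Prop :=
  ∀ W ⊆ Q, W.Nonempty → (∀ q ∈ W, θ q ∈ W) → (∀ q ∈ W, μ q ∈ W) → W = Q

/-- the matching `μ` inside the class `i` and `ν` outside -/
def mix (cl : β → ι) (i : ι) (μ ν : β → β) : β → β := fun q => if cl q = i then μ q else ν q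

structure Sys (Q : Finset β) (θ : β → β) (cl : β → ι) (F : Finset (β → β)) : Prop where
  tm : ∀ q ∈ Q, θ q ∈ Q
  ti : ∀ q ∈ Q, θ (θ q) = q
  tn : ∀ q ∈ Q, θ q ≠ q
  im : ∀ μ ∈ F, IsM Q cl μ
  cn : ∀ μ ∈ F, Cn Q θ μ
  rect : ∀ μ ∈ F, ∀ ν ∈ F, ∀ i, mix cl i μ ν ∈ F

variable {Q : Finset β} {θ : β → β} {cl : β → ι} {F : Finset (β → β)}

/-- restriction to a subset given by the value at one port -/
theorem Sys.fiber (h : Sys Q θ cl F) (v p : β) : Sys Q θ cl (F.filter fun μ => μ v = p) where
  tm := h.tm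
  ti := h.ti
  tn := h.tn
  im := fun μ hμ => h.im μ (mem_filter.1 hμ).1
  cn := fun μ hμ => h.cn μ (mem_filter.1 hμ).1
  rect := by
    intro μ hμ ν hν i
    rw [mem_filter] at hμ hν ⊢
    refine ⟨h.rect μ hμ.1 ν hν.1 i, ?_⟩
    unfold mix
    split_ifs
    · exact hμ.2
    · exact hν.2

/-- forget the ports `v`, `p` -/
def drop (v p : β) (μ : β → β) : β → β := fun q => if q = v ∨ q = p then q else μ q

/-- the new involution after the ports `v`, `p` are joined -/
def join (θ : β → β) (v p : β) : β → β :=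
  fun q => if q = θ v then θ p else if q = θ p then θ v else θ q

theorem Sys.contract (h : Sys Q θ cl F) {v p : β} (hv : v ∈ Q) (hp : p ∈ Q) (hvp : θ v ≠ p)
    (hF : ∀ μ ∈ F, μ v = p) (hne : v ≠ p) :
    Sys (Q \ {v, p}) (join θ v p) cl (F.image (drop v p)) := by
  have hpv : θ p ≠ v := fun e => hvp (by rw [← e, h.ti p hp])
  have hθne : θ v ≠ θ p := fun e => hne (by rw [← h.ti v hv, ← h.ti p hp, e])
  have hQ' : ∀ q, q ∈ Q \ {v, p} ↔ q ∈ Q ∧ q ≠ v ∧ q ≠ p := by
    intro q; simp only [mem_sdiff, mem_insert, mem_singleton, not_or]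
  have hFp : ∀ μ ∈ F, μ p = v := fun μ hμ => by
    have := (h.im μ hμ).inv v hv
    rwa [hF μ hμ] at this
  refine ⟨?_, ?_, ?_, ?_, ?_, ?_⟩
  · intro q hq
    rw [hQ'] at hq ⊢
    unfold join
    split_ifs with h1 h2
    · exact ⟨h.tm p hp, hpv, h.tn p hp⟩
    · exact ⟨h.tm v hv, h.tn v hv, hvp⟩
    · refine ⟨h.tm q hq.1, ?_, ?_⟩
      · intro e; exact h1 (by rw [← e, h.ti q hq.1])
      · intro e; exact h2 (by rw [← e, h.ti q hq.1])
  · intro q hq
    rw [hQ'] at hq
    unfold join
    by_cases h1 : q = θ v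
    · rw [if_pos h1, if_neg (fun e => hθne e.symm), if_pos rfl, h1]
    · by_cases h2 : q = θ p
      · rw [if_neg h1, if_pos h2, if_pos rfl, h2]
      · rw [if_neg h1, if_neg h2, if_neg, if_neg, h.ti q hq.1]
        · intro e; exact hq.2.2 (by rw [← h.ti q hq.1, e, h.ti p hp])
        · intro e; exact hq.2.1 (by rw [← h.ti q hq.1, e, h.ti v hv])
  · intro q hq
    rw [hQ'] at hq
    unfold join
    split_ifs with h1 h2
    · rw [h1]; exact fun e => hθne e.symm
    · rw [h2]; exact hθne
    · exact h.tn q hq.1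
  · intro μ' hμ'
    obtain ⟨μ, hμ, rfl⟩ := mem_image.1 hμ'
    have hm := h.im μ hμ
    refine ⟨?_, ?_, ?_, ?_, ?_⟩
    · intro q hq
      rw [hQ'] at hq
      unfold drop
      split_ifs with h1
      · rfl
      · apply hm.out; intro hqQ; exact hq ⟨hqQ, by tauto, by tauto⟩
    · intro q hq
      rw [hQ'] at hq ⊢
      unfold drop
      rw [if_neg (by tauto)]
      refine ⟨hm.mem q hq.1, ?_, ?_⟩
      · intro e
        have := hm.inv q hq.1
        rw [e, hF μ hμ] at this; exact hq.2.2 this.symm
      · intro e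
        have := hm.inv q hq.1
        rw [e, hFp μ hμ] at this; exact hq.2.1 this.symm
    · intro q hq
      rw [hQ'] at hq
      unfold drop
      have h1 : ¬ (q = v ∨ q = p) := by tauto
      rw [if_neg h1]
      have h2 : ¬ (μ q = v ∨ μ q = p) := by
        rintro (e | e)
        · have := hm.inv q hq.1
          rw [e, hF μ hμ] at this; exact hq.2.2 this.symm
        · have := hm.inv q hq.1
          rw [e, hFp μ hμ] at this; exact hq.2.1 this.symm
      rw [if_neg h2, hm.inv q hq.1]
    · intro q hq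
      rw [hQ'] at hq
      unfold drop
      rw [if_neg (by tauto)]
      exact hm.ne q hq.1
    · intro q hq
      rw [hQ'] at hq
      unfold drop
      rw [if_neg (by tauto)]
      exact hm.cls q hq.1
  · intro μ' hμ'
    obtain ⟨μ, hμ, rfl⟩ := mem_image.1 hμ'
    have hm := h.im μ hμ
    intro W hW hne' h1 h2
    have hsw : θ v ∈ W ↔ θ p ∈ W := by
      constructor
      · intro hh; have := h1 _ hh; unfold join at this; rwa [if_pos rfl] at this
      · intro hh; have := h1 _ hh; unfold join at this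
        rwa [if_neg (fun e => hθne e.symm), if_pos rfl] at this
    set W' : Finset β := if θ v ∈ W then W ∪ {v, p} else W with hW'
    have hmem : ∀ q, q ∈ W' ↔ q ∈ W ∨ (θ v ∈ W ∧ (q = v ∨ q = p)) := by
      intro q; rw [hW']; split_ifs with hh
      · simp only [mem_union, mem_insert, mem_singleton, hh, true_and]
      · simp [hh]
    have key : W' = Q := by
      apply h.cn μ hμ
      · intro q hq
        rcases (hmem q).1 hq with hq | ⟨_, rfl | rfl⟩
        · exact ((hQ' q).1 (hW hq)).1
        · exact hv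
        · exact hp
      · obtain ⟨q, hq⟩ := hne'; exact ⟨q, (hmem q).2 (Or.inl hq)⟩
      · intro q hq
        rw [hmem]
        rcases (hmem q).1 hq with hq | ⟨hh, rfl | rfl⟩
        · by_cases e1 : q = θ v
          · right; refine ⟨e1 ▸ hq, Or.inl ?_⟩; rw [e1, h.ti v hv]
          · by_cases e2 : q = θ p
            · right; refine ⟨hsw.2 (e2 ▸ hq), Or.inr ?_⟩; rw [e2, h.ti p hp]
            · left; have := h1 q hq; unfold join at this; rwa [if_neg e1, if_neg e2] at this
        · left; exact hh
        · left; exact hsw.1 hh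
      · intro q hq
        rw [hmem]
        rcases (hmem q).1 hq with hq | ⟨hh, rfl | rfl⟩
        · left
          have := h2 q hq
          unfold drop at this
          have hq' := (hQ' q).1 (hW hq)
          rwa [if_neg (by tauto)] at this
        · right; exact ⟨hh, Or.inr (hF μ hμ)⟩
        · right; exact ⟨hh, Or.inl (hFp μ hμ)⟩
    ext q
    rw [hQ']
    constructor
    · intro hq; exact (hQ' q).1 (hW hq)
    · rintro ⟨hq, hqv, hqp⟩
      rw [← key, hmem] at hq
      rcases hq with hq | ⟨_, hq⟩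
      · exact hq
      · tauto
  · intro μ' hμ' ν' hν' i
    obtain ⟨μ, hμ, rfl⟩ := mem_image.1 hμ'
    obtain ⟨ν, hν, rfl⟩ := mem_image.1 hν'
    refine mem_image.2 ⟨_, h.rect μ hμ ν hν i, ?_⟩
    funext q
    simp only [drop, mix]
    by_cases e1 : q = v ∨ q = p
    · simp only [if_pos e1, ite_self]
    · simp only [if_neg e1]

theorem card_image_drop {v p : β} (h : Sys Q θ cl F) (hv : v ∈ Q)
    (hF : ∀ μ ∈ F, μ v = p) : (F.image (drop v p)).card = F.card := by
  apply card_image_of_injOn
  intro μ hμ ν hν e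
  have hFp : ∀ μ ∈ F, μ p = v := fun μ hμ => by
    have := (h.im μ hμ).inv v hv
    rwa [hF μ hμ] at this
  funext q
  have := congrFun e q
  unfold drop at this
  by_cases h1 : q = v ∨ q = p
  · rcases h1 with rfl | rfl
    · rw [hF μ hμ, hF ν hν]
    · rw [hFp μ hμ, hFp ν hν]
  · rwa [if_neg h1, if_neg h1] at this

/-- remove the ports `v`, `θ v` and join their partners -/
def con (θ : β → β) (v : β) (μ : β → β) : β → β :=
  fun q => if q = v ∨ q = θ v then q else if q = μ v then μ (θ v) else
    if q = μ (θ v) then μ v else μ q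

theorem Sys.contract2 (h : Sys Q θ cl F) {v : β} (hv : v ∈ Q) (hcl : cl (θ v) = cl v)
    (hF : ∀ μ ∈ F, μ v ≠ θ v) : Sys (Q \ {v, θ v}) θ cl (F.image (con θ v)) := by
  have hv' := h.tm v hv
  have hvv := h.tn v hv
  have hQ' : ∀ q, q ∈ Q \ {v, θ v} ↔ q ∈ Q ∧ q ≠ v ∧ q ≠ θ v := by
    intro q; simp only [mem_sdiff, mem_insert, mem_singleton, not_or]
  -- basic facts on the partners
  have a1 : ∀ μ ∈ F, μ v ≠ v := fun μ hμ => (h.im μ hμ).ne v hv
  have a2 : ∀ μ ∈ F, μ (θ v) ≠ θ v := fun μ hμ => (h.im μ hμ).ne _ hv'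
  have a3 : ∀ μ ∈ F, μ (θ v) ≠ v := fun μ hμ e => by
    have := (h.im μ hμ).inv _ hv'
    rw [e] at this; exact hF μ hμ this
  have a4 : ∀ μ ∈ F, μ v ≠ μ (θ v) := fun μ hμ e => by
    have h1 := (h.im μ hμ).inv _ hv'
    have h2 := (h.im μ hμ).inv _ hv
    rw [e, h1] at h2; exact hvv h2
  refine ⟨?_, ?_, ?_, ?_, ?_, ?_⟩
  · intro q hq
    rw [hQ'] at hq ⊢
    refine ⟨h.tm q hq.1, ?_, ?_⟩
    · intro e; exact hq.2.2 (by rw [← e, h.ti q hq.1])
    · intro e; exact hq.2.1 (by rw [← h.ti q hq.1, e, h.ti v hv])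
  · intro q hq; rw [hQ'] at hq; exact h.ti q hq.1
  · intro q hq; rw [hQ'] at hq; exact h.tn q hq.1
  · intro μ' hμ'
    obtain ⟨μ, hμ, rfl⟩ := mem_image.1 hμ'
    have hm := h.im μ hμ
    have b1 := a1 μ hμ
    have b2 := a2 μ hμ
    have b3 := a3 μ hμ
    have b4 := a4 μ hμ
    have b5 := hF μ hμ
    have hneq : ∀ q ∈ Q, q ≠ μ v → μ q ≠ v := fun q hq h1 e => h1 (by rw [← e, hm.inv q hq])
    have hneq' : ∀ q ∈ Q, q ≠ μ (θ v) → μ q ≠ θ v := fun q hq h1 e =>
      h1 (by rw [← e, hm.inv q hq])
    refine ⟨?_, ?_, ?_, ?_, ?_⟩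
    · intro q hq
      rw [hQ'] at hq
      unfold con
      by_cases e1 : q = v ∨ q = θ v
      · rw [if_pos e1]
      · rw [if_neg e1]
        have hqQ : q ∉ Q := fun hh => hq ⟨hh, by tauto, by tauto⟩
        rw [if_neg, if_neg, hm.out q hqQ]
        · rintro rfl; exact hqQ (hm.mem _ hv')
        · rintro rfl; exact hqQ (hm.mem _ hv)
    · intro q hq
      rw [hQ'] at hq ⊢
      unfold con
      rw [if_neg (by tauto)]
      split_ifs with e2 e3
      · exact ⟨hm.mem _ hv', b3, b2⟩
      · exact ⟨hm.mem _ hv, b1, b5⟩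
      · exact ⟨hm.mem _ hq.1, hneq q hq.1 e2, hneq' q hq.1 e3⟩
    · intro q hq
      rw [hQ'] at hq
      have e1 : ¬ (q = v ∨ q = θ v) := by tauto
      by_cases e2 : q = μ v
      · have : con θ v μ q = μ (θ v) := by unfold con; rw [if_neg e1, if_pos e2]
        rw [this]; unfold con
        rw [if_neg (by tauto), if_neg (fun e => b4 e.symm), if_pos rfl, e2]
      · by_cases e3 : q = μ (θ v)
        · have : con θ v μ q = μ v := by unfold con; rw [if_neg e1, if_neg e2, if_pos e3]
          rw [this]; unfold con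
          rw [if_neg (by tauto), if_pos rfl, e3]
        · have : con θ v μ q = μ q := by unfold con; rw [if_neg e1, if_neg e2, if_neg e3]
          rw [this]; unfold con
          have f1 := hneq q hq.1 e2
          have f2 := hneq' q hq.1 e3
          rw [if_neg (by tauto), if_neg, if_neg, hm.inv q hq.1]
          · intro e
            apply hq.2.2
            rw [← hm.inv q hq.1, e, hm.inv _ hv']
          · intro e
            apply hq.2.1
            rw [← hm.inv q hq.1, e, hm.inv _ hv]
    · intro q hq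
      rw [hQ'] at hq
      unfold con
      rw [if_neg (by tauto)]
      split_ifs with e2 e3
      · rw [e2]; exact fun e => b4 e.symm
      · rw [e3]; exact b4
      · exact hm.ne q hq.1
    · intro q hq
      rw [hQ'] at hq
      unfold con
      rw [if_neg (by tauto)]
      split_ifs with e2 e3
      · rw [e2, hm.cls _ hv', hm.cls _ hv, hcl]
      · rw [e3, hm.cls _ hv', hm.cls _ hv, hcl]
      · exact hm.cls q hq.1
  · intro μ' hμ'
    obtain ⟨μ, hμ, rfl⟩ := mem_image.1 hμ'
    have hm := h.im μ hμ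
    have b1 := a1 μ hμ
    have b2 := a2 μ hμ
    have b3 := a3 μ hμ
    have b4 := a4 μ hμ
    have b5 := hF μ hμ
    intro W hW hne' h1 h2
    have hsw : μ v ∈ W ↔ μ (θ v) ∈ W := by
      constructor
      · intro hh; have := h2 _ hh; unfold con at this
        rwa [if_neg (by tauto), if_pos rfl] at this
      · intro hh; have := h2 _ hh; unfold con at this
        rwa [if_neg (by tauto), if_neg (fun e => b4 e.symm), if_pos rfl] at this
    set W' : Finset β := if μ v ∈ W then W ∪ {v, θ v} else W with hW'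
    have hmem : ∀ q, q ∈ W' ↔ q ∈ W ∨ (μ v ∈ W ∧ (q = v ∨ q = θ v)) := by
      intro q; rw [hW']; split_ifs with hh
      · simp only [mem_union, mem_insert, mem_singleton, hh, true_and]
      · simp [hh]
    have key : W' = Q := by
      apply h.cn μ hμ
      · intro q hq
        rcases (hmem q).1 hq with hq | ⟨_, rfl | rfl⟩
        · exact ((hQ' q).1 (hW hq)).1
        · exact hv
        · exact hv'
      · obtain ⟨q, hq⟩ := hne'; exact ⟨q, (hmem q).2 (Or.inl hq)⟩
      · intro q hq
        rw [hmem]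
        rcases (hmem q).1 hq with hq | ⟨hh, rfl | rfl⟩
        · left; exact h1 q hq
        · right; exact ⟨hh, Or.inr rfl⟩
        · right; exact ⟨hh, Or.inl (h.ti v hv)⟩
      · intro q hq
        rw [hmem]
        rcases (hmem q).1 hq with hq | ⟨hh, rfl | rfl⟩
        · have hq' := (hQ' q).1 (hW hq)
          by_cases e2 : q = μ v
          · right; refine ⟨e2 ▸ hq, Or.inl ?_⟩; rw [e2, hm.inv v hv]
          · by_cases e3 : q = μ (θ v)
            · right; refine ⟨hsw.2 (e3 ▸ hq), Or.inr ?_⟩; rw [e3, hm.inv _ hv']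
            · left
              have := h2 q hq
              unfold con at this
              rwa [if_neg (by tauto), if_neg e2, if_neg e3] at this
        · left; exact hh
        · left; exact hsw.1 hh
    ext q
    rw [hQ']
    constructor
    · intro hq; exact (hQ' q).1 (hW hq)
    · rintro ⟨hq, hqv, hqp⟩
      rw [← key, hmem] at hq
      rcases hq with hq | ⟨_, hq⟩
      · exact hq
      · tauto
  · intro μ' hμ' ν' hν' i
    obtain ⟨μ, hμ, rfl⟩ := mem_image.1 hμ'
    obtain ⟨ν, hν, rfl⟩ := mem_image.1 hν'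
    refine mem_image.2 ⟨_, h.rect μ hμ ν hν i, ?_⟩
    have c1 : cl (μ v) = cl v := (h.im μ hμ).cls v hv
    have c2 : cl (μ (θ v)) = cl v := by rw [(h.im μ hμ).cls _ hv', hcl]
    have c3 : cl (ν v) = cl v := (h.im ν hν).cls v hv
    have c4 : cl (ν (θ v)) = cl v := by rw [(h.im ν hν).cls _ hv', hcl]
    funext q
    by_cases e1 : q = v ∨ q = θ v
    · simp only [con, mix, if_pos e1, ite_self]
    · by_cases hi : cl v = i
      · have m1 : mix cl i μ ν v = μ v := by simp only [mix, if_pos hi]
        have m2 : mix cl i μ ν (θ v) = μ (θ v) := by simp only [mix, hcl, if_pos hi]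
        simp only [con, if_neg e1, m1, m2]
        by_cases hq : cl q = i
        · simp only [mix, if_pos hq, con, if_neg e1]
        · simp only [mix, if_neg hq, con, if_neg e1]
          have n1 : q ≠ μ v := by rintro rfl; exact hq (by rw [c1, hi])
          have n2 : q ≠ μ (θ v) := by rintro rfl; exact hq (by rw [c2, hi])
          have n3 : q ≠ ν v := by rintro rfl; exact hq (by rw [c3, hi])
          have n4 : q ≠ ν (θ v) := by rintro rfl; exact hq (by rw [c4, hi])
          rw [if_neg n1, if_neg n2, if_neg n3, if_neg n4]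
      · have m1 : mix cl i μ ν v = ν v := by simp only [mix, if_neg hi]
        have m2 : mix cl i μ ν (θ v) = ν (θ v) := by simp only [mix, hcl, if_neg hi]
        simp only [con, if_neg e1, m1, m2]
        by_cases hq : cl q = i
        · simp only [mix, if_pos hq, con, if_neg e1]
          have n1 : q ≠ μ v := by rintro rfl; exact hi (by rw [← c1, hq])
          have n2 : q ≠ μ (θ v) := by rintro rfl; exact hi (by rw [← c2, hq])
          have n3 : q ≠ ν v := by rintro rfl; exact hi (by rw [← c3, hq])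
          have n4 : q ≠ ν (θ v) := by rintro rfl; exact hi (by rw [← c4, hq])
          rw [if_neg n1, if_neg n2, if_neg n3, if_neg n4]
        · simp only [mix, if_neg hq, con, if_neg e1]

theorem card_con {v : β} (h : Sys Q θ cl F) (hv : v ∈ Q) (hcl : cl (θ v) = cl v)
    (hF : ∀ μ ∈ F, μ v ≠ θ v) :
    F.card ≤ ((Q.filter fun q => cl q = cl v).card - 2) * (F.image (con θ v)).card := by
  have hv' := h.tm v hv
  have hvv := h.tn v hv
  have e1 : ((Q.filter fun q => cl q = cl v) \ {v, θ v}).card =
      (Q.filter fun q => cl q = cl v).card - 2 := by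
    rw [card_sdiff_of_subset, card_pair (Ne.symm hvv)]
    intro q hq
    simp only [mem_insert, mem_singleton] at hq
    rcases hq with rfl | rfl
    · exact mem_filter.2 ⟨hv, rfl⟩
    · exact mem_filter.2 ⟨hv', hcl⟩
  rw [← e1, mul_comm, ← card_product]
  apply card_le_card_of_injOn (fun μ => (con θ v μ, μ v))
  · intro μ hμ
    rw [mem_coe] at hμ
    simp only [coe_product, Set.mem_prod, mem_coe, mem_image, mem_sdiff, mem_filter, mem_insert,
      mem_singleton, not_or]
    exact ⟨⟨μ, hμ, rfl⟩, ⟨(h.im μ hμ).mem v hv, (h.im μ hμ).cls v hv⟩, (h.im μ hμ).ne v hv, hF μ hμ⟩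
  · intro μ hμ ν hν e
    rw [mem_coe] at hμ hν
    simp only [Prod.mk.injEq] at e
    obtain ⟨e2, e3⟩ := e
    have hμm := h.im μ hμ
    have hνm := h.im ν hν
    have w1 : con θ v μ (μ v) = μ (θ v) := by
      unfold con
      rw [if_neg, if_pos rfl]
      rintro (e | e)
      · exact hμm.ne v hv e
      · exact hF μ hμ e
    have w2 : con θ v ν (ν v) = ν (θ v) := by
      unfold con
      rw [if_neg, if_pos rfl]
      rintro (e | e)
      · exact hνm.ne v hv e
      · exact hF ν hν e
    have e4 : μ (θ v) = ν (θ v) := by rw [← w1, ← w2, e2, e3]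
    funext q
    by_cases c1 : q = v
    · rw [c1, e3]
    · by_cases c2 : q = θ v
      · rw [c2, e4]
      · by_cases c3 : q = μ v
        · rw [c3, hμm.inv v hv, e3, hνm.inv v hv]
        · by_cases c4 : q = μ (θ v)
          · rw [c4, hμm.inv _ hv', e4, hνm.inv _ hv']
          · have := congrFun e2 q
            unfold con at this
            rwa [if_neg (by tauto), if_neg c3, if_neg c4, if_neg (by tauto), if_neg (e3 ▸ c3),
              if_neg (e4 ▸ c4)] at this

end Run7.h850
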