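import Pool.Agent.Run7.h850.Port

/-!
The bound on the number of matchings.
-/

set_option autoImplicit false

namespace Run7.h850

open Finset

variable {β ι : Type*} [Fintype β] [DecidableEq β] [DecidableEq ι]

/-- a set of ports without two `θ`-related elements has at most half the size -/
theorem two_mul_card_le {Q P : Finset β} {θ : β → β} (tm : ∀ q ∈ Q, θ q ∈ Q)
    (ti : ∀ q ∈ Q, θ (θ q) = q) (hP : P ⊆ Q) (h : ∀ a ∈ P, ∀ b ∈ P, θ a ≠ b) :
    2 * P.card ≤ Q.card := by
  have h1 : (P.image θ).card = P.card := by
    apply card_image_of_injOn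
    intro a ha b hb e
    rw [← ti a (hP ha), ← ti b (hP hb), e]
  have h2 : Disjoint P (P.image θ) := by
    rw [disjoint_left]
    intro a ha hb
    obtain ⟨b, hb, e⟩ := mem_image.1 hb
    exact h b hb a ha e
  have h3 : P ∪ P.image θ ⊆ Q := by
    intro a ha
    rcases mem_union.1 ha with ha | ha
    · exact hP ha
    · obtain ⟨b, hb, rfl⟩ := mem_image.1 ha
      exact tm b (hP hb)
  have := card_le_card h3
  rw [card_union_of_disjoint h2, h1] at this
  omega

theorem card_le_one_of_two {Q : Finset β} {θ : β → β} {cl : β → ι} {F : Finset (β → β)}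
    (h : Sys Q θ cl F) (hcl : ∀ q ∈ Q, cl (θ q) ≠ cl q) (hQ : Q.card ≤ 4) : F.card ≤ 1 := by
  rw [card_le_one]
  intro μ hμ ν hν
  have hm := h.im μ hμ
  have hn := h.im ν hν
  funext q
  by_cases hq : q ∈ Q
  · by_contra hne
    have h1 : 2 * ({q, μ q, ν q} : Finset β).card ≤ Q.card := by
      apply two_mul_card_le h.tm h.ti
      · intro x hx
        simp only [mem_insert, mem_singleton] at hx
        rcases hx with rfl | rfl | rfl
        · exact hq
        · exact hm.mem _ hq
        · exact hn.mem _ hq
      · intro a ha b hb e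
        have hca : ∀ x ∈ ({q, μ q, ν q} : Finset β), x ∈ Q ∧ cl x = cl q := by
          intro x hx
          simp only [mem_insert, mem_singleton] at hx
          rcases hx with rfl | rfl | rfl
          · exact ⟨hq, rfl⟩
          · exact ⟨hm.mem _ hq, hm.cls _ hq⟩
          · exact ⟨hn.mem _ hq, hn.cls _ hq⟩
        have h2 := hcl a (hca a ha).1
        rw [e, (hca a ha).2, (hca b hb).2] at h2
        exact h2 rfl
    have h2 : ({q, μ q, ν q} : Finset β).card = 3 := by
      rw [card_insert_of_notMem, card_pair hne]
      simp only [mem_insert, mem_singleton, not_or]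
      exact ⟨(hm.ne q hq).symm, (hn.ne q hq).symm⟩
    omega
  · rw [hm.out q hq, hn.out q hq]

/-- the values at the port `v` -/
def vals (F : Finset (β → β)) (v : β) : Finset β := F.image fun μ => μ v

theorem mixed_bound {cl : β → ι} : ∀ (n : ℕ) (Q : Finset β) (θ : β → β) (F : Finset (β → β)),
    Sys Q θ cl F → Q.card = 2 * n → (∀ q ∈ Q, cl (θ q) ≠ cl q) →
      F.card * 2 ^ n ≤ 2 * n.factorial := by
  intro n
  induction n using Nat.strong_induction_on with
  | _ n ih =>
  intro Q θ F h hQ hcl
  by_cases hn : n ≤ 2
  · have h1 : F.card ≤ 1 := card_le_one_of_two h hcl (by omega)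
    have h2 : F.card * 2 ^ n ≤ 1 * 2 ^ n := Nat.mul_le_mul_right _ h1
    refine h2.trans ?_
    interval_cases n <;> simp [Nat.factorial]
  push Not at hn
  have hQne : Q.Nonempty := by rw [← card_pos]; omega
  -- choose the port with few values
  obtain ⟨v, hv, hle⟩ : ∃ v ∈ Q, (vals F v).card ≤ (vals F (θ v)).card := by
    obtain ⟨q, hq⟩ := hQne
    by_cases hle : (vals F q).card ≤ (vals F (θ q)).card
    · exact ⟨q, hq, hle⟩
    · refine ⟨θ q, h.tm q hq, ?_⟩
      rw [h.ti q hq]; omega
  have hv' := h.tm v hv
  -- no short cycle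
  have hshort : ∀ μ ∈ F, μ (θ v) ≠ θ (μ v) := by
    intro μ hμ e
    have hm := h.im μ hμ
    have hW := h.cn μ hμ {v, θ v, μ v, θ (μ v)} ?_ ⟨v, by simp⟩ ?_ ?_
    · have : Q.card ≤ 4 := by rw [← hW]; exact card_le_four
      omega
    · intro q hq
      simp only [mem_insert, mem_singleton] at hq
      rcases hq with rfl | rfl | rfl | rfl
      · exact hv
      · exact hv'
      · exact hm.mem _ hv
      · exact h.tm _ (hm.mem _ hv)
    · intro q hq
      simp only [mem_insert, mem_singleton] at hq ⊢
      rcases hq with rfl | rfl | rfl | rfl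
      · tauto
      · rw [h.ti _ hv]; tauto
      · tauto
      · rw [h.ti _ (hm.mem _ hv)]; tauto
    · intro q hq
      simp only [mem_insert, mem_singleton] at hq ⊢
      rcases hq with rfl | rfl | rfl | rfl
      · tauto
      · rw [e]; tauto
      · rw [hm.inv _ hv]; tauto
      · rw [← e, hm.inv _ hv']; tauto
  -- the values at `v` and at `θ v`
  have hX : ∀ x ∈ vals F v, x ∈ Q ∧ cl x = cl v ∧ x ≠ v := by
    intro x hx
    obtain ⟨μ, hμ, rfl⟩ := mem_image.1 hx
    exact ⟨(h.im μ hμ).mem v hv, (h.im μ hμ).cls v hv, (h.im μ hμ).ne v hv⟩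
  have hY : ∀ x ∈ vals F (θ v), x ∈ Q ∧ cl x = cl (θ v) ∧ x ≠ θ v := by
    intro x hx
    obtain ⟨μ, hμ, rfl⟩ := mem_image.1 hx
    exact ⟨(h.im μ hμ).mem _ hv', (h.im μ hμ).cls _ hv', (h.im μ hμ).ne _ hv'⟩
  have hXY : ∀ x ∈ vals F v, ∀ y ∈ vals F (θ v), θ x ≠ y := by
    intro x hx y hy e
    obtain ⟨μ, hμ, rfl⟩ := mem_image.1 hx
    obtain ⟨ν, hν, rfl⟩ := mem_image.1 hy
    have h1 := hshort _ (h.rect μ hμ ν hν (cl v))
    simp only [mix, if_pos, if_neg (hcl v hv)] at h1
    exact h1 e.symm
  have hsum : (vals F v).card + (vals F (θ v)).card + 1 ≤ n := by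
    have h1 : 2 * (insert v (vals F v ∪ vals F (θ v))).card ≤ Q.card := by
      apply two_mul_card_le h.tm h.ti
      · intro x hx
        rw [mem_insert, mem_union] at hx
        rcases hx with rfl | hx | hx
        · exact hv
        · exact (hX x hx).1
        · exact (hY x hx).1
      · intro a ha b hb e
        rw [mem_insert, mem_union] at ha hb
        rcases ha with rfl | ha | ha
        · rcases hb with rfl | hb | hb
          · exact h.tn _ hv e
          · exact hcl _ hv (e ▸ (hX b hb).2.1)
          · exact (hY b hb).2.2 e.symm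
        · rcases hb with rfl | hb | hb
          · have : a = θ b := by rw [← e, h.ti a (hX a ha).1]
            exact hcl _ hv (this ▸ (hX a ha).2.1)
          · exact hcl a (hX a ha).1 (by rw [e, (hX a ha).2.1, (hX b hb).2.1])
          · exact hXY a ha b hb e
        · rcases hb with rfl | hb | hb
          · have : a = θ b := by rw [← e, h.ti a (hY a ha).1]
            exact (hY a ha).2.2 this
          · exact hXY b hb a ha (by rw [← e, h.ti a (hY a ha).1])
          · exact hcl a (hY a ha).1 (by rw [e, (hY a ha).2.1, (hY b hb).2.1])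
    have h2 : Disjoint (vals F v) (vals F (θ v)) := by
      rw [disjoint_left]
      intro x hx hy
      exact hcl v hv (by rw [← (hY x hy).2.1, (hX x hx).2.1])
    rw [card_insert_of_notMem, card_union_of_disjoint h2, hQ] at h1
    · omega
    · rw [mem_union, not_or]
      refine ⟨fun hx => (hX v hx).2.2 rfl, fun hx => hcl v hv ((hY v hx).2.1).symm⟩
  -- the bound for one value
  set X := (vals F v).card with hXc
  set Y := (vals F (θ v)).card with hYc
  have hcardQ2 : ∀ p ∈ vals F v, (Q \ {v, p}).card = 2 * (n - 1) := by
    intro p hp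
    rw [card_sdiff_of_subset, card_pair (hX p hp).2.2.symm, hQ]
    · omega
    · intro q hq
      simp only [mem_insert, mem_singleton] at hq
      rcases hq with rfl | rfl
      · exact hv
      · exact (hX q hp).1
  have hB : ∀ p ∈ vals F v, (F.filter fun μ => μ v = p).card * 2 ^ n ≤
      max (4 * (n - 1).factorial) (8 * Y * (n - 2).factorial) := by
    intro p hp
    obtain ⟨hpQ, hpc, hpv⟩ := hX p hp
    have hvp : θ v ≠ p := fun e => hcl v hv (by rw [e, hpc])
    have hS := (h.fiber v p).contract hv hpQ hvp (fun μ hμ => (mem_filter.1 hμ).2) hpv.symm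
    have hcard := card_image_drop (h.fiber v p) (p := p) hv (fun μ hμ => (mem_filter.1 hμ).2)
    set Fp := F.filter fun μ => μ v = p with hFp
    by_cases hc : cl (θ p) = cl (θ v)
    · -- two values
      refine le_trans ?_ (le_max_right _ _)
      have hs : ∀ q ∈ vals Fp (θ v), (Fp.filter fun μ => μ (θ v) = q).card * 2 ^ n ≤
          8 * (n - 2).factorial := by
        intro q hq
        have hqY : q ∈ vals F (θ v) := by
          obtain ⟨μ, hμ, rfl⟩ := mem_image.1 hq
          exact mem_image.2 ⟨μ, (mem_filter.1 hμ).1, rfl⟩
        obtain ⟨hqQ, hqc, hqv⟩ := hY q hqY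
        have hpq : θ p ≠ q := hXY p hp q hqY
        -- first contraction
        have hS1 := ((h.fiber v p).fiber (θ v) q).contract hv hpQ hvp
          (fun μ hμ => (mem_filter.1 (mem_filter.1 hμ).1).2) hpv.symm
        have hc1 := card_image_drop ((h.fiber v p).fiber (θ v) q) (p := p) hv
          (fun μ hμ => (mem_filter.1 (mem_filter.1 hμ).1).2)
        have hv'1 : θ v ∈ Q \ {v, p} := by
          simp only [mem_sdiff, mem_insert, mem_singleton, not_or]
          exact ⟨hv', h.tn v hv, hvp⟩
        have hq1 : q ∈ Q \ {v, p} := by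
          simp only [mem_sdiff, mem_insert, mem_singleton, not_or]
          refine ⟨hqQ, ?_, ?_⟩
          · rintro rfl; exact hcl _ hv hqc.symm
          · rintro rfl; exact hcl _ hv (by rw [← hqc, hpc])
        have hj1 : join θ v p (θ v) = θ p := by unfold join; rw [if_pos rfl]
        have hj2 : join θ v p (θ v) ≠ q := by rw [hj1]; exact hpq
        have hmem2 : ∀ μ ∈ (Fp.filter fun μ => μ (θ v) = q).image (drop v p), μ (θ v) = q := by
          intro μ hμ
          obtain ⟨ν, hν, rfl⟩ := mem_image.1 hμ
          unfold drop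
          rw [if_neg, (mem_filter.1 hν).2]
          rintro (e | e)
          · exact h.tn v hv e
          · exact hvp e
        have hS2 := hS1.contract hv'1 hq1 hj2 hmem2 hqv.symm
        have hc2 := card_image_drop hS1 (p := q) hv'1 hmem2
        have hjq : join θ v p q = θ q := by
          unfold join
          rw [if_neg hqv, if_neg hpq.symm]
        have hQ2 : ((Q \ {v, p}) \ {θ v, q}).card = 2 * (n - 2) := by
          rw [card_sdiff_of_subset, card_pair hqv.symm, hcardQ2 p hp]
          · omega
          · intro x hx
            simp only [mem_insert, mem_singleton] at hx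
            rcases hx with rfl | rfl
            · exact hv'1
            · exact hq1
        have := ih (n - 2) (by omega) _ _ _ hS2 hQ2 ?_
        · rw [hc2, hc1] at this
          have e2 : (2 : ℕ) ^ n = 2 ^ (n - 2) * 4 := by
            rw [show (4 : ℕ) = 2 ^ 2 by norm_num, ← pow_add]; congr 1; omega
          calc _ = ((Fp.filter fun μ => μ (θ v) = q).card * 2 ^ (n - 2)) * 4 := by
                rw [e2]; ring
            _ ≤ (2 * (n - 2).factorial) * 4 := Nat.mul_le_mul_right _ this
            _ = _ := by ring
        · intro x hx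
          simp only [mem_sdiff, mem_insert, mem_singleton, not_or] at hx
          obtain ⟨⟨hxQ, hxv, hxp⟩, hxv', hxq⟩ := hx
          -- the final involution
          have hcq : cl (θ q) ≠ cl (θ p) := by rw [hc, ← hqc]; exact hcl q hqQ
          unfold join
          simp only [if_true]
          have t1 : ∀ y ∈ Q, (θ y = p → y = θ p) := fun y hy e => by rw [← e, h.ti y hy]
          by_cases x1 : x = θ p
          · subst x1
            simp only [if_true, if_neg hpq.symm, if_neg hqv]
            exact hcq
          · by_cases x2 : x = θ q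
            · subst x2
              simp only [if_neg x1, if_neg hqv, if_neg hpq.symm, if_true]
              exact hcq.symm
            · simp only [if_neg x1, if_neg x2, if_neg hxv', if_neg hpq.symm, if_neg hqv]
              exact hcl x hxQ
      have hsum2 : Fp.card = ∑ q ∈ vals Fp (θ v), (Fp.filter fun μ => μ (θ v) = q).card := by
        apply card_eq_sum_card_image
      have hYp : (vals Fp (θ v)).card ≤ Y := by
        apply card_le_card
        intro x hx
        obtain ⟨μ, hμ, rfl⟩ := mem_image.1 hx
        exact mem_image.2 ⟨μ, (mem_filter.1 hμ).1, rfl⟩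
      calc Fp.card * 2 ^ n = ∑ q ∈ vals Fp (θ v), (Fp.filter fun μ => μ (θ v) = q).card * 2 ^ n := by
            rw [hsum2, sum_mul]
        _ ≤ ∑ q ∈ vals Fp (θ v), 8 * (n - 2).factorial := sum_le_sum hs
        _ = (vals Fp (θ v)).card * (8 * (n - 2).factorial) := by rw [sum_const, smul_eq_mul]
        _ ≤ Y * (8 * (n - 2).factorial) := Nat.mul_le_mul_right _ hYp
        _ = _ := by ring
    · -- one value
      refine le_trans ?_ (le_max_left _ _)
      have := ih (n - 1) (by omega) _ _ _ hS (hcardQ2 p hp) ?_
      · rw [hcard] at this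
        have e2 : (2 : ℕ) ^ n = 2 ^ (n - 1) * 2 := by
          rw [← pow_succ]; congr 1; omega
        calc _ = (Fp.card * 2 ^ (n - 1)) * 2 := by rw [e2]; ring
          _ ≤ (2 * (n - 1).factorial) * 2 := Nat.mul_le_mul_right _ this
          _ = _ := by ring
      · intro x hx
        simp only [mem_sdiff, mem_insert, mem_singleton, not_or] at hx
        unfold join
        by_cases x1 : x = θ v
        · rw [if_pos x1, x1]; exact hc
        · by_cases x2 : x = θ p
          · rw [if_neg x1, if_pos x2, x2]; exact fun e => hc e.symm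
          · rw [if_neg x1, if_neg x2]; exact hcl x hx.1
  have htot : F.card = ∑ p ∈ vals F v, (F.filter fun μ => μ v = p).card := by
    apply card_eq_sum_card_image
  have hfin : F.card * 2 ^ n ≤ X * max (4 * (n - 1).factorial) (8 * Y * (n - 2).factorial) := by
    calc F.card * 2 ^ n = ∑ p ∈ vals F v, (F.filter fun μ => μ v = p).card * 2 ^ n := by
          rw [htot, sum_mul]
      _ ≤ ∑ p ∈ vals F v, max (4 * (n - 1).factorial) (8 * Y * (n - 2).factorial) :=
          sum_le_sum hB
      _ = _ := by rw [sum_const, smul_eq_mul]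
  refine hfin.trans ?_
  obtain ⟨k, rfl⟩ : ∃ k, n = k + 2 := ⟨n - 2, by omega⟩
  have f1 : (k + 2 - 1).factorial = (k + 1) * k.factorial := by
    rw [show k + 2 - 1 = k + 1 by omega, Nat.factorial_succ]
  have f2 : (k + 2 - 2).factorial = k.factorial := by rw [show k + 2 - 2 = k by omega]
  have f3 : (k + 2).factorial = (k + 2) * ((k + 1) * k.factorial) := by
    rw [Nat.factorial_succ, Nat.factorial_succ]
  rw [f1, f2, f3]
  rcases le_total (4 * ((k + 1) * k.factorial)) (8 * Y * k.factorial) with hmx | hmx
  · rw [max_eq_right hmx]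
    have : X * (8 * Y) ≤ 2 * ((k + 2) * (k + 1)) := by nlinarith [sq_nonneg ((X : ℤ) - Y)]
    calc X * (8 * Y * k.factorial) = X * (8 * Y) * k.factorial := by ring
      _ ≤ 2 * ((k + 2) * (k + 1)) * k.factorial := Nat.mul_le_mul_right _ this
      _ = _ := by ring
  · rw [max_eq_left hmx]
    have : X * (4 * (k + 1)) ≤ 2 * ((k + 2) * (k + 1)) := by nlinarith
    calc X * (4 * ((k + 1) * k.factorial)) = X * (4 * (k + 1)) * k.factorial := by ring
      _ ≤ 2 * ((k + 2) * (k + 1)) * k.factorial := Nat.mul_le_mul_right _ this
      _ = _ := by ring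

/-- the general bound: `p` pairs inside a class, and classes with at most `n + 1 + r` ports -/
theorem port_bound {cl : β → ι} : ∀ (n : ℕ) (Q : Finset β) (θ : β → β) (F : Finset (β → β))
    (p r : ℕ), Sys Q θ cl F → Q.card = 2 * n →
      (Q.filter fun q => cl (θ q) = cl q).card ≤ 2 * p →
      (∀ i, (Q.filter fun q => cl q = i).card ≤ n + 1 + r) →
      F.card * 2 ^ n ≤ 2 * 2 ^ p * 2 ^ r * n.factorial := by
  intro n
  induction n with
  | zero =>
    intro Q θ F p r h hQ _ _
    have h1 : F.card ≤ 1 := by
      rw [card_le_one]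
      intro μ hμ ν hν
      funext q
      have hq : q ∉ Q := by
        have : Q = ∅ := by rw [← card_eq_zero]; omega
        rw [this]; simp
      rw [(h.im μ hμ).out q hq, (h.im ν hν).out q hq]
    have h2 : 1 ≤ 2 ^ p * 2 ^ r := Nat.one_le_iff_ne_zero.2 (by positivity)
    simp only [pow_zero, Nat.factorial_zero, mul_one]
    nlinarith
  | succ n ih =>
    intro Q θ F p r h hQ hp hr
    have hpr : 1 ≤ 2 ^ p * 2 ^ r := Nat.one_le_iff_ne_zero.2 (by positivity)
    by_cases hpure : ∀ q ∈ Q, cl (θ q) ≠ cl q
    · have := mixed_bound (n + 1) Q θ F h hQ hpure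
      refine this.trans ?_
      calc 2 * (n + 1).factorial = 1 * (2 * (n + 1).factorial) := by ring
        _ ≤ (2 ^ p * 2 ^ r) * (2 * (n + 1).factorial) := Nat.mul_le_mul_right _ hpr
        _ = _ := by ring
    by_cases hn0 : n = 0
    · -- one pair only
      subst hn0
      have h1 : F.card ≤ 1 := by
        rw [card_le_one]
        intro μ hμ ν hν
        have hm := h.im μ hμ
        have hm' := h.im ν hν
        funext q
        by_cases hq : q ∈ Q
        · have h2 : Q = {q, θ q} := by
            symm
            apply eq_of_subset_of_card_le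
            · intro x hx
              simp only [mem_insert, mem_singleton] at hx
              rcases hx with rfl | rfl
              · exact hq
              · exact h.tm _ hq
            · rw [hQ, card_pair (h.tn q hq).symm]
          have h3 := hm.mem q hq
          have h4 := hm'.mem q hq
          rw [h2] at h3 h4
          simp only [mem_insert, mem_singleton] at h3 h4
          rcases h3 with h3 | h3
          · exact absurd h3 (hm.ne q hq)
          · rcases h4 with h4 | h4
            · exact absurd h4 (hm'.ne q hq)
            · rw [h3, h4]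
        · rw [hm.out q hq, hm'.out q hq]
      simp only [zero_add, pow_one, Nat.factorial_one, mul_one]
      nlinarith
    push Not at hpure
    -- choose the class
    obtain ⟨v, hv, hcl, hsel⟩ : ∃ v ∈ Q, cl (θ v) = cl v ∧
        ∀ i, i ≠ cl v → (Q.filter fun q => cl q = i).card ≤ n + 1 := by
      by_cases hbig : ∃ j, n + 2 ≤ (Q.filter fun q => cl q = j).card
      · obtain ⟨j, hj⟩ := hbig
        obtain ⟨v, hv, hv2⟩ : ∃ v ∈ Q.filter (fun q => cl q = j), θ v ∈ Q.filter (fun q => cl q = j) := by
          by_contra hcon
          push Not at hcon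
          have := two_mul_card_le h.tm h.ti (filter_subset (fun q => cl q = j) Q)
            (fun a ha b hb e => hcon a ha (e ▸ hb))
          omega
        rw [mem_filter] at hv hv2
        refine ⟨v, hv.1, by rw [hv.2, hv2.2], ?_⟩
        intro i hi
        rw [hv.2] at hi
        have h1 : Disjoint (Q.filter fun q => cl q = i) (Q.filter fun q => cl q = j) := by
          rw [disjoint_left]
          intro x hx hy
          exact hi (by rw [← (mem_filter.1 hx).2, (mem_filter.1 hy).2])
        have h2 : (Q.filter fun q => cl q = i) ∪ (Q.filter fun q => cl q = j) ⊆ Q :=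
          union_subset (filter_subset _ _) (filter_subset _ _)
        have h3 := card_le_card h2
        rw [card_union_of_disjoint h1, hQ] at h3
        omega
      · push Not at hbig
        obtain ⟨v, hv, hcl⟩ := hpure
        exact ⟨v, hv, hcl, fun i _ => by have := hbig i; omega⟩
    have hv' := h.tm v hv
    have hF : ∀ μ ∈ F, μ v ≠ θ v := by
      intro μ hμ e
      have hm := h.im μ hμ
      have hW := h.cn μ hμ {v, θ v} ?_ ⟨v, by simp⟩ ?_ ?_
      · have : Q.card ≤ 2 := by rw [← hW]; exact card_le_two
        omega
      · intro q hq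
        simp only [mem_insert, mem_singleton] at hq
        rcases hq with rfl | rfl
        · exact hv
        · exact hv'
      · intro q hq
        simp only [mem_insert, mem_singleton] at hq ⊢
        rcases hq with rfl | rfl
        · tauto
        · rw [h.ti _ hv]; tauto
      · intro q hq
        simp only [mem_insert, mem_singleton] at hq ⊢
        rcases hq with rfl | rfl
        · tauto
        · left; rw [← e, hm.inv v hv]
    have hS := h.contract2 hv hcl hF
    have hC := card_con h hv hcl hF
    have hsub : ({v, θ v} : Finset β) ⊆ Q := by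
      intro q hq
      simp only [mem_insert, mem_singleton] at hq
      rcases hq with rfl | rfl
      · exact hv
      · exact hv'
    have hcard2 : ({v, θ v} : Finset β).card = 2 := card_pair (h.tn v hv).symm
    have hQ' : (Q \ {v, θ v}).card = 2 * n := by
      rw [card_sdiff_of_subset hsub, hcard2, hQ]; omega
    have hfilt : ∀ (P : β → Prop) [DecidablePred P], ((Q \ {v, θ v}).filter P) =
        (Q.filter P) \ {v, θ v} := by
      intro P _
      ext q
      simp only [mem_filter, mem_sdiff]
      tauto
    have hp1 : ({v, θ v} : Finset β) ⊆ Q.filter fun q => cl (θ q) = cl q := by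
      intro q hq
      simp only [mem_insert, mem_singleton] at hq
      rcases hq with rfl | rfl
      · exact mem_filter.2 ⟨hv, hcl⟩
      · exact mem_filter.2 ⟨hv', by rw [h.ti v hv, hcl]⟩
    have hp2 : 2 ≤ (Q.filter fun q => cl (θ q) = cl q).card := by
      rw [← hcard2]; exact card_le_card hp1
    have hp3 : ((Q \ {v, θ v}).filter fun q => cl (θ q) = cl q).card ≤ 2 * (p - 1) := by
      rw [hfilt, card_sdiff_of_subset hp1, hcard2]; omega
    have hk1 : ({v, θ v} : Finset β) ⊆ Q.filter fun q => cl q = cl v := by
      intro q hq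
      simp only [mem_insert, mem_singleton] at hq
      rcases hq with rfl | rfl
      · exact mem_filter.2 ⟨hv, rfl⟩
      · exact mem_filter.2 ⟨hv', hcl⟩
    have hk2 : 2 ≤ (Q.filter fun q => cl q = cl v).card := by
      rw [← hcard2]; exact card_le_card hk1
    have hk3 : ((Q \ {v, θ v}).filter fun q => cl q = cl v).card =
        (Q.filter fun q => cl q = cl v).card - 2 := by
      rw [hfilt, card_sdiff_of_subset hk1, hcard2]
    set k := (Q.filter fun q => cl q = cl v).card with hk
    have hkQ : k ≤ 2 * (n + 1) := by rw [← hQ]; exact card_le_card (filter_subset _ _)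
    have hother : ∀ i, i ≠ cl v → ((Q \ {v, θ v}).filter fun q => cl q = i).card ≤
        (Q.filter fun q => cl q = i).card := by
      intro i _
      apply card_le_card
      rw [hfilt]; exact sdiff_subset
    have hppos : 1 ≤ p := by omega
    obtain ⟨p', rfl⟩ : ∃ p', p = p' + 1 := ⟨p - 1, by omega⟩
    have hfac : (n + 1).factorial = (n + 1) * n.factorial := Nat.factorial_succ n
    by_cases hbal : k ≤ n + 2
    · -- balanced
      have hI := ih _ _ _ p' r hS hQ' (by simpa using hp3) (fun i => by
        by_cases hi : i = cl v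
        · subst hi; rw [hk3]; omega
        · have h1 := hother i hi
          have h2 := hsel i hi
          omega)
      calc F.card * 2 ^ (n + 1) ≤ ((k - 2) * (F.image (con θ v)).card) * 2 ^ (n + 1) :=
            Nat.mul_le_mul_right _ hC
        _ = (k - 2) * 2 * ((F.image (con θ v)).card * 2 ^ n) := by rw [pow_succ]; ring
        _ ≤ (k - 2) * 2 * (2 * 2 ^ p' * 2 ^ r * n.factorial) := Nat.mul_le_mul_left _ hI
        _ ≤ (n + 1) * 2 * (2 * 2 ^ p' * 2 ^ r * n.factorial) := by
            apply Nat.mul_le_mul_right; omega
        _ = _ := by rw [hfac, pow_succ]; ring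
    · push Not at hbal
      have hr1 : 1 ≤ r := by have := hr (cl v); omega
      obtain ⟨r', rfl⟩ : ∃ r', r = r' + 1 := ⟨r - 1, by omega⟩
      have hI := ih _ _ _ p' r' hS hQ' (by simpa using hp3) (fun i => by
        by_cases hi : i = cl v
        · subst hi; rw [hk3]; have := hr (cl v); omega
        · have h1 := hother i hi
          have h3 : (Q.filter fun q => cl q = i).card + k ≤ 2 * (n + 1) := by
            have h1 : Disjoint (Q.filter fun q => cl q = i) (Q.filter fun q => cl q = cl v) := by
              rw [disjoint_left]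
              intro x hx hy
              exact hi (by rw [← (mem_filter.1 hx).2, (mem_filter.1 hy).2])
            have h2 : (Q.filter fun q => cl q = i) ∪ (Q.filter fun q => cl q = cl v) ⊆ Q :=
              union_subset (filter_subset _ _) (filter_subset _ _)
            have h3 := card_le_card h2
            rwa [card_union_of_disjoint h1, hQ] at h3
          omega)
      calc F.card * 2 ^ (n + 1) ≤ ((k - 2) * (F.image (con θ v)).card) * 2 ^ (n + 1) :=
            Nat.mul_le_mul_right _ hC
        _ = (k - 2) * 2 * ((F.image (con θ v)).card * 2 ^ n) := by rw [pow_succ]; ring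
        _ ≤ (k - 2) * 2 * (2 * 2 ^ p' * 2 ^ r' * n.factorial) := Nat.mul_le_mul_left _ hI
        _ ≤ (2 * (n + 1)) * 2 * (2 * 2 ^ p' * 2 ^ r' * n.factorial) := by
            apply Nat.mul_le_mul_right; omega
        _ = _ := by rw [hfac, pow_succ, pow_succ]; ring

end Run7.h850
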