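import Pool.Agent.Run7.h850.Fam

/-!
The bound for families without overlaps, and the general bound.
-/

set_option autoImplicit false

namespace Run7.h850

open Finset

variable {α ι : Type*} [Fintype α] [DecidableEq α] [Fintype ι] [DecidableEq ι]
variable {V : Finset α} {s t : α}
variable {A : ι → Set (SimpleGraph α)} {P : Finset (SimpleGraph α)} {D : ℕ}

open Classical in
/-- the index of the family containing the edge `u w` -/
noncomputable def col (A : ι → Set (SimpleGraph α)) (i0 : ι) (u w : α) : ι :=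
  if h : ∃ i, ∃ S ∈ A i, S.Adj u w then h.choose else i0

/-- no edge occurs in two families -/
def NoOv (A : ι → Set (SimpleGraph α)) : Prop :=
  ∀ i j, i ≠ j → ∀ S ∈ A i, ∀ S' ∈ A j, ∀ u w, S.Adj u w → ¬ S'.Adj u w

theorem col_eq (h : NoOv A) (i0 : ι) {i : ι} {S : SimpleGraph α} (hS : S ∈ A i) {u w : α}
    (huw : S.Adj u w) : col A i0 u w = i := by
  have hex : ∃ i, ∃ S ∈ A i, S.Adj u w := ⟨i, S, hS, huw⟩
  unfold col
  rw [dif_pos hex]
  obtain ⟨S', hS', h'⟩ := hex.choose_spec
  by_contra hne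
  exact h _ _ hne S' hS' S hS u w h' huw

theorem col_symm (h : NoOv A) (i0 : ι) (u w : α) : col A i0 u w = col A i0 w u := by
  by_cases hex : ∃ i, ∃ S ∈ A i, S.Adj u w
  · obtain ⟨i, S, hS, h1⟩ := hex
    rw [col_eq h i0 hS h1, col_eq h i0 hS h1.symm]
  · have hex' : ¬ ∃ i, ∃ S ∈ A i, S.Adj w u := by
      rintro ⟨i, S, hS, h1⟩
      exact hex ⟨i, S, hS, h1.symm⟩
    unfold col
    rw [dif_neg hex, dif_neg hex']

/-- the degree of a union is the sum of the degrees -/
theorem card_nb_iSup (h : NoOv A) {c : ι → SimpleGraph α} (hc : ∀ i, c i ∈ A i) (v : α) :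
    (nb (⨆ i, c i) v).card = ∑ i, (nb (c i) v).card := by
  have h1 : nb (⨆ i, c i) v = (univ : Finset ι).biUnion fun i => nb (c i) v := by
    ext w
    rw [mem_nb, SimpleGraph.iSup_adj, mem_biUnion]
    constructor
    · rintro ⟨i, hi⟩; exact ⟨i, mem_univ _, mem_nb.2 hi⟩
    · rintro ⟨i, _, hi⟩; exact ⟨i, mem_nb.1 hi⟩
  rw [h1, card_biUnion]
  intro i _ j _ hij
  show Disjoint (nb (c i) v) (nb (c j) v)
  rw [disjoint_left]
  intro w hw hw'
  exact h i j hij _ (hc i) _ (hc j) v w (mem_nb.1 hw) (mem_nb.1 hw')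

theorem sum_update (c : ι → SimpleGraph α) (i : ι) (S : SimpleGraph α) (v : α) :
    ∑ j, (nb (Function.update c i S j) v).card + (nb (c i) v).card =
      ∑ j, (nb (c j) v).card + (nb S v).card := by
  rw [← add_sum_erase univ (fun j => (nb (Function.update c i S j) v).card) (mem_univ i),
    ← add_sum_erase univ (fun j => (nb (c j) v).card) (mem_univ i), Function.update_self]
  have h1 : ∑ j ∈ univ.erase i, (nb (Function.update c i S j) v).card =
      ∑ j ∈ univ.erase i, (nb (c j) v).card := by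
    apply sum_congr rfl
    intro j hj
    rw [Function.update_of_ne (ne_of_mem_erase hj)]
  rw [h1]
  ring

/-- All unions of participating members are Hamiltonian if there is no overlap. -/
theorem Fam.allHam (F : Fam V s t A P D) (h : NoOv (prt A P)) {c : ι → SimpleGraph α}
    (hc : ∀ i, c i ∈ prt A P i) (hne : P.Nonempty) : IsHam V s t (⨆ i, c i) := by
  have F' := F.part
  refine ⟨F'.pth c hc, ?_⟩
  intro v hv
  by_cases hvs : v = s
  · subst hvs
    have h1 : 0 < (nb (⨆ i, c i) v).card := by rw [(F'.pth c hc).ds]; omega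
    obtain ⟨u, hu⟩ := card_pos.1 h1
    exact ⟨u, mem_nb.1 hu⟩
  by_cases hvt : v = t
  · subst hvt
    have h1 : 0 < (nb (⨆ i, c i) v).card := by rw [(F'.pth c hc).dt]; omega
    obtain ⟨u, hu⟩ := card_pos.1 h1
    exact ⟨u, mem_nb.1 hu⟩
  have hdeg : ∀ d : ι → SimpleGraph α, (∀ i, d i ∈ prt A P i) →
      ∑ i, (nb (d i) v).card = 0 ∨ ∑ i, (nb (d i) v).card = 2 := by
    intro d hd
    rw [← card_nb_iSup h hd]
    exact (F'.pth d hd).di v hvs hvt
  have hham : ∀ d : ι → SimpleGraph α, (∀ i, d i ∈ prt A P i) → (⨆ i, d i) ∈ P →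
      ∑ i, (nb (d i) v).card = 2 := by
    intro d hd hP
    rw [← card_nb_iSup h hd]
    exact (F.ham _ hP).two hv hvs hvt
  have hconst : ∀ i, ∀ S ∈ prt A P i, ∀ S' ∈ prt A P i,
      (nb S v).card = (nb S' v).card := by
    intro i S hS S' hS'
    obtain ⟨d, hd, h1, h2⟩ := part_part hS
    obtain ⟨d', hd', h1', h2'⟩ := part_part hS'
    have e1 := hham d hd h2
    have e2 := hham d' hd' h2'
    have upd : ∀ (d : ι → SimpleGraph α) (S : SimpleGraph α),
        (∀ j, d j ∈ prt A P j) → S ∈ prt A P i →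
        ∀ j, Function.update d i S j ∈ prt A P j := by
      intro d S hd hS j
      by_cases hj : j = i
      · subst hj; rw [Function.update_self]; exact hS
      · rw [Function.update_of_ne hj]; exact hd j
    have e3 := hdeg _ (upd d S' hd hS')
    have e4 := hdeg _ (upd d' S hd' hS)
    have e5 := sum_update d i S' v
    have e6 := sum_update d' i S v
    rw [h1] at e5
    rw [h1'] at e6
    omega
  obtain ⟨π, hπ⟩ := hne
  obtain ⟨d, hd, h1, _⟩ := F'.cov π hπ
  have h2 := hham d hd (h1 ▸ hπ)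
  have h3 : ∑ i, (nb (c i) v).card = ∑ i, (nb (d i) v).card :=
    sum_congr rfl fun i _ => hconst i _ (hc i) _ (hd i)
  have h4 : 0 < (nb (⨆ i, c i) v).card := by
    rw [card_nb_iSup h hc, h3, h2]; omega
  obtain ⟨u, hu⟩ := card_pos.1 h4
  exact ⟨u, mem_nb.1 hu⟩

theorem Fam.noOv_bound (F : Fam V s t A P D) (h : NoOv (prt A P)) {m r : ℕ}
    (hV : V.card = m + 1) (hD : D ≤ m + r) : P.card * 2 ^ m ≤ 4 * 2 ^ r * m.factorial := by
  classical
  rcases P.eq_empty_or_nonempty with rfl | hne
  · simp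
  obtain ⟨π₀, hπ₀⟩ := hne
  have F' := F.part
  obtain ⟨c₀, hc₀, h1, g, hg, hgD⟩ := F'.cov π₀ hπ₀
  obtain ⟨i0⟩ : Nonempty ι := by
    by_contra hem
    rw [not_nonempty_iff] at hem
    obtain ⟨u, hu⟩ := (F.ham π₀ hπ₀).all s F.hs
    exact hem.elim (g s u)
  set χ := col (prt A P) i0 with hχdef
  have hχ : ∀ u v, χ u v = χ v u := col_symm h i0
  have hcol : ∀ {i : ι} {S : SimpleGraph α}, S ∈ prt A P i → ∀ {u w : α}, S.Adj u w →
      χ u w = i := fun hS _ _ huw => col_eq h i0 hS huw
  set P₀ : Finset (SimpleGraph α) := univ.filter fun π =>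
    ∃ c : ι → SimpleGraph α, (∀ i, c i ∈ prt A P i) ∧ π = ⨆ i, c i with hP₀
  have hsub : P ⊆ P₀ := by
    intro π hπ
    obtain ⟨c, hc, h2, _⟩ := F'.cov π hπ
    rw [hP₀, mem_filter]
    exact ⟨mem_univ _, c, hc, h2⟩
  have dat : Dat V s t χ hχ P₀ := by
    refine ⟨F.hs, F.ht, F.st, ?_, ?_⟩
    · intro π hπ
      rw [hP₀, mem_filter] at hπ
      obtain ⟨_, c, hc, rfl⟩ := hπ
      exact F.allHam h hc ⟨π₀, hπ₀⟩
    · intro π hπ π' hπ' i
      rw [hP₀, mem_filter] at hπ hπ' ⊢
      obtain ⟨_, c, hc, rfl⟩ := hπ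
      obtain ⟨_, c', hc', rfl⟩ := hπ'
      refine ⟨mem_univ _, Function.update c' i (c i), ?_, ?_⟩
      · intro j
        by_cases hj : j = i
        · subst hj; rw [Function.update_self]; exact hc j
        · rw [Function.update_of_ne hj]; exact hc' j
      · ext u w
        simp only [mixg, SimpleGraph.iSup_adj]
        constructor
        · rintro (⟨h2, j, hj⟩ | ⟨h2, j, hj⟩)
          · refine ⟨i, ?_⟩
            rw [Function.update_self]
            have := hcol (hc j) hj
            rw [← h2, this]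
            exact hj
          · refine ⟨j, ?_⟩
            rw [Function.update_of_ne]
            · exact hj
            · rintro rfl
              exact h2 (hcol (hc' j) hj)
        · rintro ⟨j, hj⟩
          by_cases hji : j = i
          · subst hji
            rw [Function.update_self] at hj
            exact Or.inl ⟨hcol (hc j) hj, j, hj⟩
          · rw [Function.update_of_ne hji] at hj
            exact Or.inr ⟨by rw [hcol (hc' j) hj]; exact hji, j, hj⟩
  have h2 := dat_bound dat hV (r := r) (hsub hπ₀) (fun i => by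
    refine le_trans ?_ ((hgD i).trans (hD.trans (by omega)))
    apply card_le_card
    intro q hq
    rw [mem_filter] at hq ⊢
    refine ⟨hq.1, hq.2.1, ?_⟩
    have h3 := hg q.1 q.2 (mem_nb.1 hq.2.1)
    have h4 := hcol (hc₀ _) h3
    rw [← h4]; exact hq.2.2)
  exact (Nat.mul_le_mul_right _ (card_le_card hsub)).trans h2

end Run7.h850
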