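import Pool.Agent.Run7.h850.Count

/-!
Functions on graphs as nonnegative combinations of the indicators `S ≤ G`.
-/

set_option autoImplicit false

namespace Run7.h850

open Finset

variable {α : Type*} [Fintype α] [DecidableEq α]

open Classical in
/-- `f` is the combination of the indicators `S ≤ G` with the coefficients `w S`. -/
def Rep (w f : SimpleGraph α → NNReal) : Prop := ∀ G, f G = ∑ S, if S ≤ G then w S else 0

variable {w w' f g : SimpleGraph α → NNReal}

theorem Rep.unique (h : Rep w f) (h' : Rep w' f) : w = w' := by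
  classical
  funext S
  induction S using WellFoundedLT.induction with
  | ind S ih =>
  have h1 := (h S).symm.trans (h' S)
  rw [← add_sum_erase univ _ (mem_univ S), ← add_sum_erase univ _ (mem_univ S)] at h1
  simp only [le_refl, if_true] at h1
  have h2 : ∑ T ∈ univ.erase S, (if T ≤ S then w T else 0) =
      ∑ T ∈ univ.erase S, (if T ≤ S then w' T else 0) := by
    apply sum_congr rfl
    intro T hT
    split_ifs with h3
    · exact ih T (lt_of_le_of_ne h3 (mem_erase.1 hT).1)
    · rfl
  rw [h2] at h1
  exact add_right_cancel h1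

theorem Rep.add (h : Rep w f) (h' : Rep w' g) :
    Rep (fun S => w S + w' S) (fun G => f G + g G) := by
  classical
  intro G
  simp only
  rw [h G, h' G, ← sum_add_distrib]
  apply sum_congr rfl
  intro S _
  split_ifs <;> simp

open Classical in
/-- the coefficients of a product -/
noncomputable def cv (w w' : SimpleGraph α → NNReal) (S : SimpleGraph α) : NNReal :=
  ∑ T, ∑ T', if T ⊔ T' = S then w T * w' T' else 0

theorem Rep.mul (h : Rep w f) (h' : Rep w' g) : Rep (cv w w') (fun G => f G * g G) := by
  classical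
  intro G
  calc f G * g G = ∑ T, ∑ T', (if T ≤ G then w T else 0) * (if T' ≤ G then w' T' else 0) := by
        rw [h G, h' G, sum_mul_sum]
    _ = ∑ T, ∑ T', ∑ S, if T ⊔ T' = S then (if S ≤ G then w T * w' T' else 0) else 0 := by
        apply sum_congr rfl
        intro T _
        apply sum_congr rfl
        intro T' _
        rw [sum_ite_eq, if_pos (mem_univ _)]
        by_cases h1 : T ≤ G
        · by_cases h2 : T' ≤ G
          · rw [if_pos h1, if_pos h2, if_pos (sup_le h1 h2)]
          · rw [if_neg h2, if_neg (fun h3 => h2 (le_sup_right.trans h3)), mul_zero]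
        · rw [if_neg h1, if_neg (fun h3 => h1 (le_sup_left.trans h3)), zero_mul]
    _ = ∑ T, ∑ S, ∑ T', if T ⊔ T' = S then (if S ≤ G then w T * w' T' else 0) else 0 := by
        apply sum_congr rfl
        intro T _
        exact sum_comm
    _ = ∑ S, ∑ T, ∑ T', if T ⊔ T' = S then (if S ≤ G then w T * w' T' else 0) else 0 :=
        sum_comm
    _ = _ := by
        apply sum_congr rfl
        intro S _
        by_cases h1 : S ≤ G
        · simp only [h1, if_true]; rfl
        · simp only [h1, if_false, ite_self, sum_const_zero]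

/-- the graphs with nonzero coefficient -/
def Sup (f : SimpleGraph α → NNReal) : Set (SimpleGraph α) := {S | ∃ w, Rep w f ∧ w S ≠ 0}

theorem Rep.mem (h : Rep w f) {S : SimpleGraph α} : S ∈ Sup f ↔ w S ≠ 0 := by
  constructor
  · rintro ⟨w', h1, h2⟩
    rw [h.unique h1]; exact h2
  · exact fun h1 => ⟨w, h, h1⟩

theorem Rep.mem_add (h : Rep w f) (h' : Rep w' g) {S : SimpleGraph α} :
    S ∈ Sup (fun G => f G + g G) ↔ S ∈ Sup f ∨ S ∈ Sup g := by
  rw [(h.add h').mem, h.mem, h'.mem]
  simp only [ne_eq, add_eq_zero, not_and_or]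

theorem Rep.mem_mul (h : Rep w f) (h' : Rep w' g) {S : SimpleGraph α} :
    S ∈ Sup (fun G => f G * g G) ↔ ∃ T ∈ Sup f, ∃ T' ∈ Sup g, T ⊔ T' = S := by
  classical
  rw [(h.mul h').mem]
  unfold cv
  constructor
  · intro h1
    obtain ⟨T, _, h2⟩ := exists_ne_zero_of_sum_ne_zero h1
    obtain ⟨T', _, h3⟩ := exists_ne_zero_of_sum_ne_zero h2
    rw [ne_eq, ite_eq_right_iff, Classical.not_imp] at h3
    obtain ⟨h4, h5⟩ := h3
    exact ⟨T, h.mem.2 (left_ne_zero_of_mul h5), T', h'.mem.2 (right_ne_zero_of_mul h5), h4⟩
  · rintro ⟨T, hT, T', hT', hS⟩ h1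
    rw [h.mem] at hT
    rw [h'.mem] at hT'
    rw [sum_eq_zero_iff] at h1
    have h2 := h1 T (mem_univ _)
    rw [sum_eq_zero_iff] at h2
    have h3 := h2 T' (mem_univ _)
    rw [if_pos hS] at h3
    exact mul_ne_zero hT hT' h3

/-- The number of paths as a combination of indicators. -/
theorem rep_path (s t : α) :
    Rep (fun S => (Nat.card {p : (⊤ : SimpleGraph α).Path s t // eg p.1 = S} : NNReal))
      (fun G : SimpleGraph α => (Nat.card (G.Path s t) : NNReal)) := by
  classical
  intro G
  simp only
  have h1 : Nat.card (G.Path s t) = ∑ S, Nat.card {p : G.Path s t // eg p.1 = S} := by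
    rw [← Nat.card_sigma]
    exact Nat.card_congr (Equiv.sigmaFiberEquiv fun p : G.Path s t => eg p.1).symm
  rw [h1, Nat.cast_sum]
  apply sum_congr rfl
  intro S _
  split_ifs with h2
  · congr 1
    apply Nat.card_congr
    apply Equiv.ofBijective (fun p => (⟨⟨p.1.1.mapLe le_top,
      (SimpleGraph.Walk.isPath_mapLe le_top).2 p.1.2⟩, by
        refine Eq.trans ?_ p.2; simp [eg]⟩ : {p : (⊤ : SimpleGraph α).Path s t // eg p.1 = S}))
    constructor
    · rintro ⟨⟨p, hp⟩, h3⟩ ⟨⟨q, hq⟩, h4⟩ heq
      simp only [Subtype.mk.injEq] at heq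
      have := SimpleGraph.Walk.map_injective_of_injective (f := SimpleGraph.Hom.ofLE le_top)
        (fun a b h => h) s t heq
      subst this
      rfl
    · rintro ⟨⟨p, hp⟩, h3⟩
      have h4 : ∀ e ∈ p.edges, e ∈ G.edgeSet := by
        intro e he
        induction e with
        | _ a b =>
        apply h2
        show S.Adj a b
        rw [← h3]
        simp only [eg, SimpleGraph.fromEdgeSet_adj]
        exact ⟨he, (p.adj_of_mem_edges he).ne⟩
      refine ⟨⟨⟨p.transfer G h4, hp.transfer h4⟩, ?_⟩, ?_⟩
      · rw [← h3]; simp [eg]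
      · simp only [Subtype.mk.injEq]
        show (p.transfer G h4).map (SimpleGraph.Hom.ofLE le_top) = p
        rw [← SimpleGraph.Walk.transfer_eq_map_ofLE, SimpleGraph.Walk.transfer_transfer,
          SimpleGraph.Walk.transfer_self]
        intro e he
        rw [SimpleGraph.Walk.edges_transfer] at he
        exact p.edges_subset_edgeSet he
  · rw [Nat.cast_eq_zero, Nat.card_eq_zero]
    left
    constructor
    rintro ⟨p, hp⟩
    apply h2
    rw [← hp]
    intro a b hab
    simp only [eg, SimpleGraph.fromEdgeSet_adj] at hab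
    exact p.1.adj_of_mem_edges hab.1

end Run7.h850
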