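import Pool.Agent.Run7.h850.Rep

/-!
Set programmes: families of graphs built from families of sparse graphs by unions and joins. If the
last family consists of `s`-`t` paths and contains all Hamiltonian ones, many joins are needed.
-/

set_option autoImplicit false

namespace Run7.h850

open Finset

variable {n : ℕ}

/-- programmes with `k` joins -/
inductive SP (n : ℕ) : List (Set (SimpleGraph (Fin n))) → ℕ → Prop
  | nil : SP n [] 0
  | free {l : List (Set (SimpleGraph (Fin n)))} {k : ℕ} {A : Set (SimpleGraph (Fin n))} :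
      SP n l k → (∀ S ∈ A, dn S ≤ n - 1) → SP n (A :: l) k
  | union {l : List (Set (SimpleGraph (Fin n)))} {k : ℕ} {A B : Set (SimpleGraph (Fin n))} :
      SP n l k → A ∈ l → B ∈ l → SP n ((A ∪ B) :: l) k
  | join {l : List (Set (SimpleGraph (Fin n)))} {k : ℕ} {A B : Set (SimpleGraph (Fin n))} :
      SP n l k → A ∈ l → B ∈ l → SP n ({S | ∃ T ∈ A, ∃ T' ∈ B, T ⊔ T' = S} :: l) (k + 1)

theorem dn_eq_ncard (S : SimpleGraph (Fin n)) : dn S = 2 * S.edgeSet.ncard := by
  classical
  rw [dn_eq_sum, Set.ncard_eq_toFinset_card']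
  have h := S.sum_degrees_eq_twice_card_edges
  have h1 : ∀ v, (nb S v).card = S.degree v := by
    intro v
    rw [← SimpleGraph.card_neighborFinset_eq_degree]
    congr 1
    ext w
    rw [mem_nb, SimpleGraph.mem_neighborFinset]
  simp only [h1]
  exact h

/-- `π` is obtained from the join of `p.1` and `p.2`. -/
def CovBy (Good : SimpleGraph (Fin n) → Prop)
    (p : Set (SimpleGraph (Fin n)) × Set (SimpleGraph (Fin n)))
    (π : SimpleGraph (Fin n)) : Prop :=
  ∃ c : Fin 3 → SimpleGraph (Fin n), c 0 ∈ p.1 ∧ c 1 ∈ p.2 ∧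
    (∀ S₁ ∈ p.1, ∀ S₂ ∈ p.2, Good (S₁ ⊔ S₂ ⊔ c 2)) ∧ π = ⨆ i, c i ∧ Split c (n - 1) π

theorem iSup_three (c : Fin 3 → SimpleGraph (Fin n)) : ⨆ i, c i = c 0 ⊔ c 1 ⊔ c 2 := by
  ext u v
  simp only [SimpleGraph.iSup_adj, SimpleGraph.sup_adj]
  constructor
  · rintro ⟨i, hi⟩
    fin_cases i
    · exact Or.inl (Or.inl hi)
    · exact Or.inl (Or.inr hi)
    · exact Or.inr hi
  · rintro ((h | h) | h)
    · exact ⟨0, h⟩
    · exact ⟨1, h⟩
    · exact ⟨2, h⟩

/-- Each graph with many edges is obtained from a join whose two factors receive at most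
half of the edges each. -/
theorem sp_cover (Good : SimpleGraph (Fin n) → Prop)
    {l : List (Set (SimpleGraph (Fin n)))} {k : ℕ} (h : SP n l k) :
    ∃ L : List (Set (SimpleGraph (Fin n)) × Set (SimpleGraph (Fin n))),
      L.length = k ∧ ∀ f ∈ l, ∀ S C a π : SimpleGraph (Fin n), S ∈ f →
        (∀ S' ∈ f, Good (S' ⊔ C)) → S ⊔ C = π → a ≤ S →
        (∀ u v, π.Adj u v → ¬ a.Adj u v → C.Adj u v) → n - 1 < dn a → dn π ≤ 2 * (n - 1) →
        ∃ p ∈ L, CovBy Good p π := by
  classical
  induction h with
  | nil => exact ⟨[], rfl, by simp⟩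
  | @free l k f hP hf ih =>
    obtain ⟨L, hL, ih2⟩ := ih
    refine ⟨L, hL, ?_⟩
    intro g hg S C a π hS hgood hπ ha hC hda hdπ
    rw [List.mem_cons] at hg
    rcases hg with rfl | hg
    · exfalso
      have h1 := hf S hS
      have h2 := dn_mono ha
      omega
    · exact ih2 g hg S C a π hS hgood hπ ha hC hda hdπ
  | @union l k f₁ f₂ hP hf₁ hf₂ ih =>
    obtain ⟨L, hL, ih2⟩ := ih
    refine ⟨L, hL, ?_⟩
    intro g hg S C a π hS hgood hπ ha hC hda hdπ
    rw [List.mem_cons] at hg
    rcases hg with rfl | hg
    · rcases hS with h1 | h1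
      · exact ih2 f₁ hf₁ S C a π h1
          (fun S' hS' => hgood S' (Or.inl hS')) hπ ha hC hda hdπ
      · exact ih2 f₂ hf₂ S C a π h1
          (fun S' hS' => hgood S' (Or.inr hS')) hπ ha hC hda hdπ
    · exact ih2 g hg S C a π hS hgood hπ ha hC hda hdπ
  | @join l k f₁ f₂ hP hf₁ hf₂ ih =>
    obtain ⟨L, hL, ih2⟩ := ih
    refine ⟨(f₁, f₂) :: L, by rw [List.length_cons, hL], ?_⟩
    intro g hg S C a π hS hgood hπ ha hC hda hdπ
    rw [List.mem_cons] at hg
    rcases hg with rfl | hg
    · obtain ⟨S₁, hS₁, S₂, hS₂, hS⟩ := hS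
      have hgood' : ∀ T₁ ∈ f₁, ∀ T₂ ∈ f₂, Good (T₁ ⊔ T₂ ⊔ C) := fun T₁ h1 T₂ h2 =>
        hgood _ ⟨T₁, h1, T₂, h2, rfl⟩
      by_cases hb1 : n - 1 < dn (a ⊓ S₁)
      · obtain ⟨p, hp, hcov⟩ := ih2 f₁ hf₁ S₁ (C ⊔ S₂) (a ⊓ S₁) π hS₁ (by
            intro S' hS'
            have := hgood' S' hS' S₂ hS₂
            rwa [sup_comm C S₂, ← sup_assoc]) (by
            rw [← hπ, ← hS, sup_comm C S₂, ← sup_assoc]) inf_le_right (by
            intro u v huv hn
            rw [SimpleGraph.sup_adj]
            by_cases h3 : a.Adj u v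
            · right
              have h4 := ha h3
              rw [← hS, SimpleGraph.sup_adj] at h4
              rcases h4 with h4 | h4
              · exact absurd ((SimpleGraph.inf_adj _ _ _ _).2 ⟨h3, h4⟩) hn
              · exact h4
            · exact Or.inl (hC u v huv h3)) hb1 hdπ
        exact ⟨p, List.mem_cons_of_mem _ hp, hcov⟩
      · by_cases hb2 : n - 1 < dn (a \ S₁)
        · obtain ⟨p, hp, hcov⟩ := ih2 f₂ hf₂ S₂ (C ⊔ S₁) (a \ S₁) π hS₂ (by
              intro S' hS'
              have := hgood' S₁ hS₁ S' hS'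
              rwa [sup_comm C S₁, ← sup_assoc, sup_comm S' S₁]) (by
              rw [← hπ, ← hS, sup_comm C S₁, ← sup_assoc, sup_comm S₂ S₁]) (by
              intro u v huv
              rw [SimpleGraph.sdiff_adj] at huv
              have h4 := ha huv.1
              rw [← hS, SimpleGraph.sup_adj] at h4
              exact h4.resolve_left huv.2) (by
              intro u v huv hn
              rw [SimpleGraph.sup_adj]
              by_cases h3 : a.Adj u v
              · right
                by_contra h4
                exact hn ((SimpleGraph.sdiff_adj _ _ _ _).2 ⟨h3, h4⟩)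
              · exact Or.inl (hC u v huv h3)) hb2 hdπ
          exact ⟨p, List.mem_cons_of_mem _ hp, hcov⟩
        · refine ⟨(f₁, f₂), List.mem_cons_self, ![S₁, S₂, C], hS₁, hS₂, hgood', ?_, ?_⟩
          · rw [iSup_three, ← hπ, ← hS]; rfl
          · push Not at hb1 hb2
            have haπ : a ≤ π := ha.trans (hπ ▸ le_sup_left)
            refine ⟨fun u v => if (a ⊓ S₁).Adj u v then 0 else if (a \ S₁).Adj u v then 1 else 2,
              ?_, ?_⟩
            · intro u v huv
              simp only
              by_cases h3 : (a ⊓ S₁).Adj u v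
              · rw [if_pos h3]
                exact ((SimpleGraph.inf_adj _ _ _ _).1 h3).2
              · rw [if_neg h3]
                by_cases h4 : (a \ S₁).Adj u v
                · rw [if_pos h4]
                  rw [SimpleGraph.sdiff_adj] at h4
                  have h5 := ha h4.1
                  rw [← hS, SimpleGraph.sup_adj] at h5
                  exact h5.resolve_left h4.2
                · rw [if_neg h4]
                  apply hC u v huv
                  intro h5
                  rw [SimpleGraph.inf_adj] at h3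
                  rw [SimpleGraph.sdiff_adj] at h4
                  exact h4 ⟨h5, fun h6 => h3 ⟨h5, h6⟩⟩
            · have hc0 : ((univ : Finset (Fin n × Fin n)).filter fun q => q.2 ∈ nb π q.1 ∧
                  (if (a ⊓ S₁).Adj q.1 q.2 then (0 : Fin 3) else
                    if (a \ S₁).Adj q.1 q.2 then 1 else 2) = 0).card ≤ n - 1 := by
                refine (card_le_card ?_).trans hb1
                intro q hq
                rw [mem_filter] at hq ⊢
                refine ⟨hq.1, mem_nb.2 ?_⟩
                by_contra h3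
                have h4 := hq.2.2
                rw [if_neg h3] at h4
                split_ifs at h4
                · exact absurd h4 (by decide)
                · exact absurd h4 (by decide)
              have hc1 : ((univ : Finset (Fin n × Fin n)).filter fun q => q.2 ∈ nb π q.1 ∧
                  (if (a ⊓ S₁).Adj q.1 q.2 then (0 : Fin 3) else
                    if (a \ S₁).Adj q.1 q.2 then 1 else 2) = 1).card ≤ n - 1 := by
                refine (card_le_card ?_).trans hb2
                intro q hq
                rw [mem_filter] at hq ⊢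
                refine ⟨hq.1, mem_nb.2 ?_⟩
                by_contra h3
                have h4 := hq.2.2
                rw [if_neg h3] at h4
                split_ifs at h4
                · exact absurd h4 (by decide)
                · exact absurd h4 (by decide)
              have hc2 : ((univ : Finset (Fin n × Fin n)).filter fun q => q.2 ∈ nb π q.1 ∧
                  (if (a ⊓ S₁).Adj q.1 q.2 then (0 : Fin 3) else
                    if (a \ S₁).Adj q.1 q.2 then 1 else 2) = 2).card ≤ n - 1 := by
                have h5 : ((univ : Finset (Fin n × Fin n)).filter fun q => q.2 ∈ nb π q.1 ∧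
                    (if (a ⊓ S₁).Adj q.1 q.2 then (0 : Fin 3) else
                    if (a \ S₁).Adj q.1 q.2 then 1 else 2) = 2) ⊆
                    ((univ : Finset (Fin n × Fin n)).filter fun q => q.2 ∈ nb π q.1) \
                    ((univ : Finset (Fin n × Fin n)).filter fun q => q.2 ∈ nb a q.1) := by
                  intro q hq
                  rw [mem_filter] at hq
                  rw [mem_sdiff, mem_filter, mem_filter]
                  refine ⟨⟨hq.1, hq.2.1⟩, ?_⟩
                  rintro ⟨_, h6⟩
                  rw [mem_nb] at h6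
                  have h4 := hq.2.2
                  split_ifs at h4 with h7 h8
                  · exact absurd h4 (by decide)
                  · exact absurd h4 (by decide)
                  · rw [SimpleGraph.inf_adj] at h7
                    rw [SimpleGraph.sdiff_adj] at h8
                    exact h8 ⟨h6, fun h9 => h7 ⟨h6, h9⟩⟩
                have h6 := card_le_card h5
                rw [card_sdiff_of_subset] at h6
                · have h7 : dn π - dn a ≤ n - 1 := by omega
                  exact h6.trans h7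
                · intro q hq
                  rw [mem_filter, mem_nb] at hq ⊢
                  exact ⟨hq.1, haπ hq.2⟩
              intro i
              fin_cases i
              · exact hc0
              · exact hc1
              · exact hc2
    · obtain ⟨p, hp, hcov⟩ := ih2 g hg S C a π hS hgood hπ ha hC hda hdπ
      exact ⟨p, List.mem_cons_of_mem _ hp, hcov⟩

/-- The bound in natural numbers. -/
theorem sp_bound {N : ℕ} (hN : N = 8192) (hn : 2 ≤ n) {s t : Fin n} (hst : s ≠ t)
    {l : List (Set (SimpleGraph (Fin n)))} {k : ℕ} (h : SP n l k)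
    {F : Set (SimpleGraph (Fin n))} (hF : F ∈ l) (hgood : ∀ S ∈ F, IsPth univ s t S)
    (hham : ∀ S, IsHam univ s t S → (∃ p : (⊤ : SimpleGraph (Fin n)).Walk s t, p.IsPath ∧
      eg p = S) → S ∈ F) :
    2 ^ (n - 1) ≤ k * (2048 * N ^ N * (n - 1)) := by
  classical
  obtain ⟨L, hL, hcov⟩ := sp_cover (IsPth univ s t) h
  obtain ⟨H, hHcard, hH⟩ := exists_ham (n - 2) (univ : Finset (Fin n)) s t (mem_univ _)
    (mem_univ _) hst (by rw [card_univ, Fintype.card_fin]; omega)
  have hmem : ∀ π ∈ H, π ∈ F := by
    intro π hπ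
    obtain ⟨h1, p, hp, hpe, _⟩ := hH π hπ
    exact hham π h1 ⟨p, hp, hpe⟩
  have hcov' : ∀ π ∈ H, ∃ p ∈ L, CovBy (IsPth univ s t) p π := by
    intro π hπ
    have hd := dn_ham (hH π hπ).1 hst
    rw [Fintype.card_fin] at hd
    refine hcov _ hF π ⊥ π π (hmem π hπ) ?_ (sup_bot_eq π) le_rfl (fun u v h1 h2 => absurd h1 h2)
      (by omega) (by omega)
    intro S' hS'
    rw [sup_bot_eq]
    exact hgood S' hS'
  have hfac := Nat.factorial_pos (n - 1)
  have hfac' : (n - 1).factorial = (n - 1) * (n - 2).factorial := by
    obtain ⟨j, rfl⟩ : ∃ j, n = j + 2 := ⟨n - 2, by omega⟩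
    simp only [Nat.add_sub_cancel]
    have : j + 2 - 1 = j + 1 := by omega
    rw [this, Nat.factorial_succ]
  have hB : ∀ p ∈ L, (H.filter (CovBy (IsPth univ s t) p)).card ≤
      2048 * N ^ N * (n - 1).factorial / 2 ^ (n - 1) := by
    intro p _
    rw [Nat.le_div_iff_mul_le (by positivity)]
    have hfam : Fam univ s t (![p.1, p.2,
        {C | ∀ S₁ ∈ p.1, ∀ S₂ ∈ p.2, IsPth univ s t (S₁ ⊔ S₂ ⊔ C)}])
        (H.filter (CovBy (IsPth univ s t) p)) (n - 1) := by
      refine ⟨mem_univ _, mem_univ _, hst, ?_, ?_, ?_⟩
      · intro c hc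
        rw [iSup_three]
        exact (hc 2) (c 0) (hc 0) (c 1) (hc 1)
      · intro π hπ
        exact (hH π (mem_filter.1 hπ).1).1
      · intro π hπ
        obtain ⟨c, h0, h1, h2, h3, h4⟩ := (mem_filter.1 hπ).2
        refine ⟨c, ?_, h3, h4⟩
        intro i
        fin_cases i
        · exact h0
        · exact h1
        · exact h2
    have h1 := fam_bound hN (n - 1) univ _ _ (n - 1) 0 hfam
      (by rw [card_univ, Fintype.card_fin]; omega) (by omega)
    refine h1.trans ?_
    rw [pow_zero, mul_one]
    apply Nat.mul_le_mul_right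
    apply Nat.mul_le_mul_left
    exact Nat.pow_le_pow_right (by omega) (min_le_right _ _)
  have hsub : H ⊆ L.toFinset.biUnion fun p => H.filter (CovBy (IsPth univ s t) p) := by
    intro π hπ
    obtain ⟨p, hp, hc⟩ := hcov' π hπ
    rw [mem_biUnion]
    exact ⟨p, List.mem_toFinset.2 hp, mem_filter.2 ⟨hπ, hc⟩⟩
  have h2 : H.card ≤ k * (2048 * N ^ N * (n - 1).factorial / 2 ^ (n - 1)) := by
    refine (card_le_card hsub).trans ((card_biUnion_le_card_mul _ _ _
      (fun p hp => hB p (List.mem_toFinset.1 hp))).trans ?_)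
    apply Nat.mul_le_mul_right
    rw [← hL]
    exact List.toFinset_card_le L
  rw [hHcard] at h2
  have h3 : (n - 2).factorial * 2 ^ (n - 1) ≤
      (n - 2).factorial * (k * (2048 * N ^ N * (n - 1))) := by
    calc (n - 2).factorial * 2 ^ (n - 1) ≤
          k * (2048 * N ^ N * (n - 1).factorial / 2 ^ (n - 1)) * 2 ^ (n - 1) :=
          Nat.mul_le_mul_right _ h2
      _ = k * (2048 * N ^ N * (n - 1).factorial / 2 ^ (n - 1) * 2 ^ (n - 1)) := by ring
      _ ≤ k * (2048 * N ^ N * (n - 1).factorial) :=
          Nat.mul_le_mul_left _ (Nat.div_mul_le_self _ _)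
      _ = _ := by rw [hfac']; ring
  exact Nat.le_of_mul_le_mul_left h3 (Nat.factorial_pos _)

end Run7.h850
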