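import Pool.Agent.Run7.h850.Lift

/-!
The bound for rectangular coloured families of Hamiltonian paths.
-/

set_option autoImplicit false

namespace Run7.h850

open Finset

variable {α ι : Type*} [Fintype α] [DecidableEq α] [DecidableEq ι]
variable {V : Finset α} {s t : α}
variable {χ : α → α → ι} {hχ : ∀ u v, χ u v = χ v u} {P : Finset (SimpleGraph α)}

/-- joins the two ports of a vertex, and the ports of `s` and `t` -/
def th (s t : α) (q : α × Bool) : α × Bool :=
  if q.1 = s then (t, q.2) else if q.1 = t then (s, q.2) else (q.1, !q.2)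

theorem port_false {v : α} (h : v = s ∨ v = t) {b : Bool} (hb : (v, b) ∈ ports V s t) :
    b = false := by
  rw [mem_ports] at hb
  by_contra hh
  have := hb.2 (by simpa using hh)
  tauto

theorem th_mem (hs : s ∈ V) (ht : t ∈ V) (q : α × Bool) (hq : q ∈ ports V s t) :
    th s t q ∈ ports V s t := by
  obtain ⟨v, b⟩ := q
  unfold th
  simp only
  split_ifs with h1 h2
  · have := port_false (Or.inl h1) hq
    subst this
    exact mem_ports.2 ⟨ht, by simp⟩
  · have := port_false (Or.inr h2) hq
    subst this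
    exact mem_ports.2 ⟨hs, by simp⟩
  · rw [mem_ports] at hq ⊢
    exact ⟨hq.1, fun _ => ⟨h1, h2⟩⟩

theorem th_th (hst : s ≠ t) (q : α × Bool) : th s t (th s t q) = q := by
  obtain ⟨v, b⟩ := q
  by_cases h1 : v = s
  · subst h1
    simp [th, hst.symm]
  · by_cases h2 : v = t
    · subst h2
      simp [th, h1]
    · simp [th, h1, h2]

theorem th_ne (hst : s ≠ t) (q : α × Bool) : th s t q ≠ q := by
  obtain ⟨v, b⟩ := q
  by_cases h1 : v = s
  · subst h1
    simp [th, hst.symm]
  · by_cases h2 : v = t
    · subst h2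
      simp [th, h1, hst]
    · simp [th, h1, h2]

/-- a set of ports closed under `th` contains with one port of a vertex also the other -/
theorem port_closed {W : Finset (α × Bool)} (hWQ : W ⊆ ports V s t) (hW : ∀ q ∈ W, th s t q ∈ W)
    {v : α} {b b' : Bool} (hb : (v, b) ∈ W) (hb' : (v, b') ∈ ports V s t) : (v, b') ∈ W := by
  by_cases h : v = s ∨ v = t
  · rw [port_false h hb', ← port_false h (hWQ hb)]; exact hb
  · push Not at h
    by_cases hbb : b = b'
    · rw [← hbb]; exact hb
    · have h1 := hW _ hb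
      have h2 : th s t (v, b) = (v, b') := by
        unfold th
        simp only [h.1, h.2, if_false]
        cases b <;> cases b' <;> simp_all
      rwa [h2] at h1

theorem IsLift.cn {π : SimpleGraph α} {cl : α × Bool → ι} {μ : α × Bool → α × Bool}
    (h : IsLift V s t χ cl π μ) (hH : IsHam V s t π) : Cn (ports V s t) (th s t) μ := by
  intro W hWQ hne hθ hμ
  apply Subset.antisymm hWQ
  have key := hH.closed {v | ∃ b, (v, b) ∈ W} (fun v hv => by
      obtain ⟨b, hb⟩ := hv
      exact (mem_ports.1 (hWQ hb)).1) (fun u hu v huv => by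
      obtain ⟨b, hb⟩ := hu
      obtain ⟨b', hb', hh⟩ := h.surj u v huv
      have h1 := hμ _ (port_closed hWQ hθ hb hb')
      refine ⟨(μ (u, b')).2, ?_⟩
      rw [← hh]; exact h1) (by
      obtain ⟨⟨v, b⟩, hq⟩ := hne
      exact ⟨v, b, hq⟩)
  rintro ⟨v, b⟩ hq
  obtain ⟨b', hb'⟩ := key v (mem_ports.1 hq).1
  exact port_closed hWQ hθ hb' hq

theorem IsLift.mix {π π' : SimpleGraph α} {cl : α × Bool → ι} {μ ν : α × Bool → α × Bool}
    (h : IsLift V s t χ cl π μ) (h' : IsLift V s t χ cl π' ν) (i : ι) :
    IsLift V s t χ cl (mixg χ hχ i π π') (mix cl i μ ν) := by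
  refine ⟨⟨?_, ?_, ?_, ?_, ?_⟩, ?_, ?_⟩
  · intro q hq
    unfold Run7.h850.mix
    rw [h.im.out q hq, h'.im.out q hq, ite_self]
  · intro q hq
    unfold Run7.h850.mix
    split_ifs
    · exact h.im.mem q hq
    · exact h'.im.mem q hq
  · intro q hq
    unfold Run7.h850.mix
    by_cases hc : cl q = i
    · rw [if_pos hc, if_pos ((h.im.cls q hq).trans hc), h.im.inv q hq]
    · rw [if_neg hc, if_neg (fun e => hc ((h'.im.cls q hq).symm.trans e)), h'.im.inv q hq]
  · intro q hq
    unfold Run7.h850.mix
    split_ifs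
    · exact h.im.ne q hq
    · exact h'.im.ne q hq
  · intro q hq
    unfold Run7.h850.mix
    split_ifs
    · exact h.im.cls q hq
    · exact h'.im.cls q hq
  · intro q hq
    unfold Run7.h850.mix
    by_cases hc : cl q = i
    · rw [if_pos hc]
      obtain ⟨h1, h2⟩ := h.adj q hq
      exact ⟨Or.inl ⟨h2.trans hc, h1⟩, h2⟩
    · rw [if_neg hc]
      obtain ⟨h1, h2⟩ := h'.adj q hq
      exact ⟨Or.inr ⟨fun e => hc (h2.symm.trans e), h1⟩, h2⟩
  · intro v u huv
    rcases huv with ⟨h1, h2⟩ | ⟨h1, h2⟩
    · obtain ⟨b, hb, hh⟩ := h.surj v u h2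
      refine ⟨b, hb, ?_⟩
      have h3 := (h.adj _ hb).2
      rw [hh] at h3
      unfold Run7.h850.mix
      rw [if_pos (h3.symm.trans h1), hh]
    · obtain ⟨b, hb, hh⟩ := h'.surj v u h2
      refine ⟨b, hb, ?_⟩
      have h3 := (h'.adj _ hb).2
      rw [hh] at h3
      unfold Run7.h850.mix
      rw [if_neg (fun e => h1 (h3.trans e)), hh]

open Classical in
/-- all lifts of the members of `P` -/
noncomputable def lifts (V : Finset α) (s t : α) (χ : α → α → ι) (cl : α × Bool → ι)
    (P : Finset (SimpleGraph α)) : Finset (α × Bool → α × Bool) :=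
  univ.filter fun μ => ∃ π ∈ P, IsLift V s t χ cl π μ

theorem mem_lifts {cl : α × Bool → ι} {μ : α × Bool → α × Bool} :
    μ ∈ lifts V s t χ cl P ↔ ∃ π ∈ P, IsLift V s t χ cl π μ := by
  classical simp [lifts]

theorem Dat.sys (D : Dat V s t χ hχ P) (cl : α × Bool → ι) :
    Sys (ports V s t) (th s t) cl (lifts V s t χ cl P) where
  tm := fun q hq => th_mem D.hs D.ht q hq
  ti := fun q _ => th_th D.st q
  tn := fun q _ => th_ne D.st q
  im := fun μ hμ => by
    obtain ⟨π, _, h⟩ := mem_lifts.1 hμ
    exact h.im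
  cn := fun μ hμ => by
    obtain ⟨π, hπ, h⟩ := mem_lifts.1 hμ
    exact h.cn (D.ham π hπ)
  rect := fun μ hμ ν hν i => by
    obtain ⟨π, hπ, h⟩ := mem_lifts.1 hμ
    obtain ⟨π', hπ', h'⟩ := mem_lifts.1 hν
    exact mem_lifts.2 ⟨_, D.rect π hπ π' hπ' i, h.mix h' i⟩

theorem card_ports (hs : s ∈ V) (ht : t ∈ V) (hst : s ≠ t) {m : ℕ} (hV : V.card = m + 1) :
    (ports V s t).card = 2 * m := by
  have h1 : ports V s t = (V.image fun v => (v, false)) ∪
      ((V \ {s, t}).image fun v => (v, true)) := by
    ext ⟨v, b⟩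
    simp only [mem_ports, mem_union, mem_image, mem_sdiff, mem_insert, mem_singleton, Prod.mk.injEq]
    cases b
    · constructor
      · intro h; exact Or.inl ⟨v, h.1, rfl, rfl⟩
      · rintro (⟨a, ha, rfl, _⟩ | ⟨a, _, _, h⟩)
        · exact ⟨ha, by simp⟩
        · exact absurd h (by simp)
    · constructor
      · intro h; exact Or.inr ⟨v, ⟨h.1, by simpa using h.2⟩, rfl, rfl⟩
      · rintro (⟨a, _, _, h⟩ | ⟨a, ha, rfl, _⟩)
        · exact absurd h (by simp)
        · exact ⟨ha.1, fun _ => by simpa using ha.2⟩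
  have h2 : Disjoint (V.image fun v => (v, false)) ((V \ {s, t}).image fun v => (v, true)) := by
    rw [disjoint_left]
    rintro ⟨v, b⟩ h3 h4
    rw [mem_image] at h3 h4
    obtain ⟨a, _, ha⟩ := h3
    obtain ⟨c, _, hc⟩ := h4
    rw [← hc] at ha
    exact absurd (Prod.mk.inj ha).2 (by simp)
  rw [h1, card_union_of_disjoint h2, card_image_of_injective, card_image_of_injective,
    card_sdiff_of_subset, card_pair hst, hV]
  · have : 2 ≤ V.card := by
      rw [← card_pair hst]
      apply card_le_card
      intro x hx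
      simp only [mem_insert, mem_singleton] at hx
      rcases hx with rfl | rfl
      · exact hs
      · exact ht
    omega
  · intro x hx
    simp only [mem_insert, mem_singleton] at hx
    rcases hx with rfl | rfl
    · exact hs
    · exact ht
  · intro a b h; exact (Prod.mk.inj h).1
  · intro a b h; exact (Prod.mk.inj h).1

/-- vertices whose two edges have the same colour -/
def pure' (V : Finset α) (s t : α) (cl : α × Bool → ι) : Finset α :=
  V.filter fun v => (v ≠ s ∧ v ≠ t) ∧ cl (v, false) = cl (v, true)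

theorem pure_count (hst : s ≠ t) (cl : α × Bool → ι) :
    ((ports V s t).filter fun q => cl (th s t q) = cl q).card ≤ 2 * ((pure' V s t cl).card + 1) := by
  have h1 : ((ports V s t).filter fun q => cl (th s t q) = cl q) ⊆
      (pure' V s t cl ×ˢ (univ : Finset Bool)) ∪ {(s, false), (t, false)} := by
    rintro ⟨v, b⟩ hq
    rw [mem_filter] at hq
    rw [mem_union, mem_product, mem_insert, mem_singleton]
    by_cases h : v = s ∨ v = t
    · have := port_false h hq.1
      subst this
      right
      rcases h with rfl | rfl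
      · left; rfl
      · right; rfl
    · left
      push Not at h
      refine ⟨?_, mem_univ _⟩
      unfold pure'
      rw [mem_filter]
      refine ⟨(mem_ports.1 hq.1).1, h, ?_⟩
      have h2 := hq.2
      unfold th at h2
      simp only [h.1, h.2, if_false] at h2
      cases b
      · exact h2.symm
      · exact h2
  refine (card_le_card h1).trans ((card_union_le _ _).trans ?_)
  rw [card_product, card_univ, Fintype.card_bool]
  have := card_le_two (a := ((s, false) : α × Bool)) (b := (t, false))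
  omega

theorem count_lifts (D : Dat V s t χ hχ P) {cl : α × Bool → ι}
    (hex : ∀ π ∈ P, ∃ μ, IsLift V s t χ cl π μ) :
    P.card * 2 ^ (pure' V s t cl).card ≤ (lifts V s t χ cl P).card := by
  classical
  have hex' : ∀ π, ∃ μ, π ∈ P → IsLift V s t χ cl π μ := by
    intro π
    by_cases h : π ∈ P
    · obtain ⟨μ, hμ⟩ := hex π h
      exact ⟨μ, fun _ => hμ⟩
    · exact ⟨fun q => q, fun h' => absurd h' h⟩
  choose L hL using hex'
  rw [← card_powerset, ← card_product]
  have hε : ∀ ε ∈ (pure' V s t cl).powerset, (∀ v ∈ ε, v ≠ s ∧ v ≠ t) ∧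
      (∀ v ∈ ε, cl (v, false) = cl (v, true)) := by
    intro ε hε
    rw [mem_powerset] at hε
    refine ⟨fun v hv => ?_, fun v hv => ?_⟩
    · exact (mem_filter.1 (hε hv)).2.1
    · exact (mem_filter.1 (hε hv)).2.2
  apply card_le_card_of_injOn (fun x => fun q => fl x.2 (L x.1 (fl x.2 q)))
  · rintro ⟨π, ε⟩ hx
    rw [mem_coe, mem_product] at hx
    rw [mem_coe, mem_lifts]
    exact ⟨π, hx.1, (hL π hx.1).flip (hε ε hx.2).1 (hε ε hx.2).2⟩
  · rintro ⟨π, ε⟩ hx ⟨π', ε'⟩ hx' heq
    rw [mem_coe, mem_product] at hx hx'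
    simp only at hx hx' heq
    have l1 := (hL π hx.1).flip (hε ε hx.2).1 (hε ε hx.2).2
    have l2 := (hL π' hx'.1).flip (hε ε' hx'.2).1 (hε ε' hx'.2).2
    have heq' := fun q => congrFun heq q
    have hππ : π = π' := by
      ext v u
      constructor
      · intro h
        obtain ⟨b, hb, hh⟩ := l1.surj v u h
        have := (l2.adj _ hb).1
        rw [← heq', hh] at this
        exact this
      · intro h
        obtain ⟨b, hb, hh⟩ := l2.surj v u h
        have := (l1.adj _ hb).1
        rw [heq', hh] at this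
        exact this
    subst hππ
    rw [Prod.mk.injEq]
    refine ⟨rfl, ?_⟩
    have hmem : ∀ v, (v ∈ ε ↔ v ∈ ε') := by
      intro v
      by_cases hv : v ∈ pure' V s t cl
      · have hv' := mem_filter.1 hv
        have hne := (hL π hx.1).ne (D.ham π hx.1) hv'.1 hv'.2.1.1 hv'.2.1.2
        have h1 := congrArg Prod.fst (heq' (v, false))
        simp only [fl_fst] at h1
        unfold fl at h1
        simp only [Bool.not_false] at h1
        by_cases he : v ∈ ε
        · by_cases he' : v ∈ ε'
          · exact ⟨fun _ => he', fun _ => he⟩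
          · rw [if_pos he, if_neg he'] at h1
            exact absurd h1.symm hne
        · by_cases he' : v ∈ ε'
          · rw [if_neg he, if_pos he'] at h1
            exact absurd h1 hne
          · exact ⟨fun h => absurd h he, fun h => absurd h he'⟩
      · have g1 : v ∉ ε := fun h => hv (mem_powerset.1 hx.2 h)
        have g2 : v ∉ ε' := fun h => hv (mem_powerset.1 hx'.2 h)
        exact ⟨fun h => absurd h g1, fun h => absurd h g2⟩
    ext v
    exact hmem v

/-- The bound for rectangular coloured families. -/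
theorem dat_bound (D : Dat V s t χ hχ P) {m r : ℕ} (hV : V.card = m + 1)
    {π₀ : SimpleGraph α} (hπ₀ : π₀ ∈ P)
    (hc : ∀ i, ((univ : Finset (α × α)).filter fun q => q.2 ∈ nb π₀ q.1 ∧
      χ q.1 q.2 = i).card ≤ m + 1 + r) :
    P.card * 2 ^ m ≤ 4 * 2 ^ r * m.factorial := by
  classical
  obtain ⟨e₀, he₀⟩ := exists_enum (D.ham π₀ hπ₀)
  set cl : α × Bool → ι := fun q => χ q.1 (e₀ q.1 q.2) with hcl
  have hex : ∀ π ∈ P, ∃ μ, IsLift V s t χ cl π μ := by
    intro π hπ
    obtain ⟨e, he, hec⟩ := exists_enum_col D hπ₀ hπ he₀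
    exact exists_lift (D.ham π hπ) he hχ (cl := cl) hec
  have h1 := count_lifts D hex
  have h2 := port_bound m (ports V s t) (th s t) (lifts V s t χ cl P)
    ((pure' V s t cl).card + 1) r (D.sys cl) (card_ports D.hs D.ht D.st hV)
    (pure_count D.st cl) (fun i => by
      refine le_trans ?_ (hc i)
      apply card_le_card_of_injOn (fun q => (q.1, e₀ q.1 q.2))
      · rintro ⟨v, b⟩ hq
        rw [mem_coe, mem_filter] at hq
        rw [mem_coe, mem_filter]
        exact ⟨mem_univ _, mem_nb.2 (he₀.adj v b hq.1), hq.2⟩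
      · rintro ⟨v, b⟩ hq ⟨v', b'⟩ hq' heq
        rw [mem_coe, mem_filter] at hq hq'
        simp only [Prod.mk.injEq] at heq
        obtain ⟨rfl, h3⟩ := heq
        rw [Prod.mk.injEq]
        exact ⟨rfl, he₀.inj v b b' hq.1 hq'.1 h3⟩)
  have h3 : 0 < 2 ^ (pure' V s t cl).card := by positivity
  apply Nat.le_of_mul_le_mul_left _ h3
  calc 2 ^ (pure' V s t cl).card * (P.card * 2 ^ m)
      = (P.card * 2 ^ (pure' V s t cl).card) * 2 ^ m := by ring
    _ ≤ (lifts V s t χ cl P).card * 2 ^ m := Nat.mul_le_mul_right _ h1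
    _ ≤ _ := h2
    _ = _ := by ring

end Run7.h850
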