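import Pool.Agent.Run7.h850.Walks
import Pool.Agent.Run7.h850.Rep

/-!
Trails and the family of trails used for the lower bound on sums of walk counts.
-/

set_option autoImplicit false

namespace Run7.h850

open Finset

variable {α : Type*} [Fintype α] [DecidableEq α] {K : Type*} [Field K]

open Classical in
theorem path_sum (s t : α) (G : SimpleGraph α) : Nat.card (G.Path s t) =
    ∑ S, if S ≤ G then Nat.card {p : (⊤ : SimpleGraph α).Path s t // eg p.1 = S} else 0 := by
  have h := rep_path s t G
  have h2 : ((Nat.card (G.Path s t) : ℕ) : NNReal) = ((∑ S, if S ≤ G then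
      Nat.card {p : (⊤ : SimpleGraph α).Path s t // eg p.1 = S} else 0 : ℕ) : NNReal) := by
    refine h.trans ?_
    rw [Nat.cast_sum]
    apply sum_congr rfl
    intro S _
    split_ifs <;> simp
  exact_mod_cast h2

theorem repK_path (s t : α) :
    RepK (fun S => (Nat.card {p : (⊤ : SimpleGraph α).Path s t // eg p.1 = S} : K))
      (fun G : SimpleGraph α => (Nat.card (G.Path s t) : K)) := by
  classical
  intro G
  simp only
  rw [path_sum s t G, Nat.cast_sum]
  apply sum_congr rfl
  intro S _
  split_ifs <;> simp

theorem es_eg {G : SimpleGraph α} {u v : α} (p : G.Walk u v) : es (eg p) = p.edges.toFinset := by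
  ext e
  rw [mem_es, List.mem_toFinset]
  induction e with
  | _ a b =>
  rw [SimpleGraph.mem_edgeSet]
  simp only [eg, SimpleGraph.fromEdgeSet_adj]
  constructor
  · exact fun h => h.1
  · exact fun h => ⟨h, (p.adj_of_mem_edges h).ne⟩

theorem es_trail {G : SimpleGraph α} {u v : α} {p : G.Walk u v} (hp : p.IsTrail) :
    (es (eg p)).card = p.length := by
  rw [es_eg, List.toFinset_card_of_nodup hp.edges_nodup, SimpleGraph.Walk.length_edges]

theorem wt_trail (ω : Sym2 α → K) {G : SimpleGraph α} {u v : α} {p : G.Walk u v}
    (hp : p.IsTrail) : wt ω (eg p) = (p.edges.map ω).prod := by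
  unfold wt
  rw [es_eg, List.prod_toFinset _ hp.edges_nodup]

theorem tr_pos {G : SimpleGraph α} {u v : α} (p : G.Walk u v) (hp : p.IsTrail) :
    0 < tr p.length u v (eg p) := by
  classical
  induction p with
  | nil => rw [eg_nil]; simp [tr]
  | @cons u x v h q ih =>
    rw [SimpleGraph.Walk.isTrail_cons] at hp
    rw [eg_cons, SimpleGraph.Walk.length_cons]
    unfold tr
    have h1 : (eg q ⊔ SimpleGraph.edge u x).Adj u x := by
      rw [SimpleGraph.sup_adj, SimpleGraph.edge_adj]
      exact Or.inr ⟨Or.inl ⟨rfl, rfl⟩, h.ne⟩
    have h2 : ¬ (eg q).Adj u x := by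
      intro h3
      simp only [eg, SimpleGraph.fromEdgeSet_adj] at h3
      exact hp.2 h3.1
    apply lt_of_lt_of_le (ih hp.1)
    refine le_trans ?_ (single_le_sum (fun _ _ => Nat.zero_le _) (mem_univ x))
    rw [if_pos h1, sup_edge_sdiff h2]

/-- the degrees of a trail -/
theorem tr_parity : ∀ (k : ℕ) (u v : α) (S : SimpleGraph α), tr k u v S ≠ 0 → ∀ y,
    (nb S y).card % 2 = ((if y = u then 1 else 0) + (if y = v then 1 else 0)) % 2 := by
  classical
  intro k
  induction k with
  | zero =>
    intro u v S h y
    have h1 : u = v ∧ S = ⊥ := by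
      by_contra h2
      apply h
      unfold tr
      rw [if_neg h2]
    obtain ⟨rfl, rfl⟩ := h1
    have h2 : nb (⊥ : SimpleGraph α) y = ∅ := by
      rw [eq_empty_iff_forall_notMem]
      intro w hw
      rw [mem_nb] at hw
      exact hw
    rw [h2, card_empty]
    split_ifs <;> rfl
  | succ k ih =>
    intro u v S h y
    unfold tr at h
    obtain ⟨x, _, hx⟩ := exists_ne_zero_of_sum_ne_zero h
    rw [ne_eq, ite_eq_right_iff, Classical.not_imp] at hx
    obtain ⟨h1, h2⟩ := hx
    have h3 := ih x v _ h2 y
    have hux : u ≠ x := h1.ne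
    by_cases hyu : y = u
    · subst hyu
      have h4 : nb S y = insert x (nb (S \ SimpleGraph.edge y x) y) := by
        ext z
        rw [mem_insert, mem_nb, mem_nb, SimpleGraph.sdiff_adj, SimpleGraph.edge_adj]
        constructor
        · intro h5
          by_cases hz : z = x
          · exact Or.inl hz
          · right
            refine ⟨h5, ?_⟩
            rintro ⟨⟨_, h6⟩ | ⟨h6, _⟩, _⟩
            · exact hz h6
            · exact hux h6
        · rintro (rfl | h5)
          · exact h1
          · exact h5.1
      rw [h4, card_insert_of_notMem]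
      · rw [if_neg hux] at h3
        rw [if_pos rfl]
        omega
      · rw [mem_nb, SimpleGraph.sdiff_adj, SimpleGraph.edge_adj]
        tauto
    · by_cases hyx : y = x
      · subst hyx
        have h4 : nb S y = insert u (nb (S \ SimpleGraph.edge u y) y) := by
          ext z
          rw [mem_insert, mem_nb, mem_nb, SimpleGraph.sdiff_adj, SimpleGraph.edge_adj]
          constructor
          · intro h5
            by_cases hz : z = u
            · exact Or.inl hz
            · right
              refine ⟨h5, ?_⟩
              rintro ⟨⟨h6, _⟩ | ⟨_, h6⟩, _⟩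
              · exact hyu h6
              · exact hz h6
          · rintro (rfl | h5)
            · exact h1.symm
            · exact h5.1
        rw [h4, card_insert_of_notMem]
        · rw [if_pos rfl] at h3
          rw [if_neg hyu]
          omega
        · rw [mem_nb, SimpleGraph.sdiff_adj, SimpleGraph.edge_adj]
          intro h5
          exact h5.2 ⟨Or.inr ⟨rfl, rfl⟩, hyu⟩
      · have h4 : nb S y = nb (S \ SimpleGraph.edge u x) y := by
          ext z
          rw [mem_nb, mem_nb, SimpleGraph.sdiff_adj, SimpleGraph.edge_adj]
          constructor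
          · intro h5
            refine ⟨h5, ?_⟩
            rintro ⟨⟨h6, _⟩ | ⟨h6, _⟩, _⟩
            · exact hyu h6
            · exact hyx h6
          · exact fun h5 => h5.1
        rw [h4, h3, if_neg hyu, if_neg hyx]

theorem tr_symm {k : ℕ} (u v : α) {S : SimpleGraph α} (hS : (es S).card = k) :
    tr k u v S = tr k v u S := by
  classical
  obtain ⟨w, h1, h2⟩ := pow_rep (K := ℚ) (fun _ : Sym2 α => 1) k u v
  obtain ⟨w', h1', h2'⟩ := pow_rep (K := ℚ) (fun _ : Sym2 α => 1) k v u
  have hsym : ∀ G : SimpleGraph α, (adjW (K := ℚ) (fun _ : Sym2 α => 1) G).IsSymm := by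
    intro G
    ext a b
    simp only [Matrix.transpose_apply, adjW, G.adj_comm]
  have h3 : RepK w' (fun G => (adjW (K := ℚ) (fun _ : Sym2 α => 1) G ^ k) u v) := by
    intro G
    rw [← h1' G]
    have := (hsym G).pow k
    simp only
    rw [← this.apply]
  have h4 := h1.unique h3
  have h5 := (h2 S).2 hS
  have h6 := (h2' S).2 hS
  rw [h4, h6] at h5
  have hwt : wt (K := ℚ) (fun _ : Sym2 α => 1) S = 1 := by unfold wt; simp
  rw [hwt, one_mul, one_mul] at h5
  exact_mod_cast h5.symm

theorem exists_walk : ∀ (l : List α) (a b : α), (a :: l ++ [b]).Nodup →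
    ∃ p : (⊤ : SimpleGraph α).Walk a b, p.support = a :: l ++ [b] := by
  intro l
  induction l with
  | nil =>
    intro a b h
    have hab : (⊤ : SimpleGraph α).Adj a b := by
      simp only [List.cons_append, List.nil_append, List.nodup_cons, List.mem_singleton] at h
      exact h.1
    exact ⟨SimpleGraph.Walk.cons hab SimpleGraph.Walk.nil, by simp⟩
  | cons x l ih =>
    intro a b h
    rw [List.cons_append, List.nodup_cons] at h
    obtain ⟨p, hp⟩ := ih x b h.2
    have hax : (⊤ : SimpleGraph α).Adj a x := by
      rw [SimpleGraph.top_adj]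
      rintro rfl
      exact h.1 (by simp)
    exact ⟨SimpleGraph.Walk.cons hax p, by rw [SimpleGraph.Walk.support_cons, hp]; rfl⟩

theorem edges_chain {G : SimpleGraph α} {Φ : α → α → Prop} (hΦ : ∀ a b, Φ a b → Φ b a)
    {u v : α} (p : G.Walk u v) (hp : List.IsChain Φ p.support) :
    ∀ a b, s(a, b) ∈ p.edges → Φ a b := by
  induction p with
  | nil => intro a b h; simp at h
  | @cons u x v h q ih =>
    intro a b hab
    rw [SimpleGraph.Walk.support_cons] at hp
    rw [SimpleGraph.Walk.edges_cons, List.mem_cons] at hab
    have h1 : Φ u x ∧ List.IsChain Φ q.support := by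
      cases q with
      | nil => simpa using hp
      | cons h' q' =>
        rw [SimpleGraph.Walk.support_cons] at hp ⊢
        rw [List.isChain_cons_cons] at hp
        exact hp
    rcases hab with hab | hab
    · rw [Sym2.eq_iff] at hab
      rcases hab with ⟨rfl, rfl⟩ | ⟨rfl, rfl⟩
      · exact h1.1
      · exact hΦ _ _ h1.1
    · exact ih h1.2 a b hab

/-- interleave two lists of equal length -/
def il : List α → List α → List α
  | p :: ps, q :: qs => p :: q :: il ps qs
  | [], _ => []
  | _ :: _, [] => []

theorem mem_il : ∀ {ps qs : List α} {x : α}, x ∈ il ps qs → x ∈ ps ∨ x ∈ qs := by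
  intro ps
  induction ps with
  | nil => intro qs x h; simp [il] at h
  | cons p ps ih =>
    intro qs x h
    cases qs with
    | nil => simp [il] at h
    | cons q qs =>
      simp only [il, List.mem_cons] at h ⊢
      rcases h with h | h | h
      · exact Or.inl (Or.inl h)
      · exact Or.inr (Or.inl h)
      · rcases ih h with h | h
        · exact Or.inl (Or.inr h)
        · exact Or.inr (Or.inr h)

theorem il_length : ∀ {ps qs : List α}, ps.length = qs.length → (il ps qs).length = 2 * ps.length := by
  intro ps
  induction ps with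
  | nil => intro qs h; simp [il]
  | cons p ps ih =>
    intro qs h
    cases qs with
    | nil => simp at h
    | cons q qs =>
      simp only [List.length_cons, add_left_inj] at h
      simp only [il, List.length_cons, ih h]
      ring

theorem il_nodup : ∀ {ps qs : List α}, ps.Nodup → qs.Nodup → (∀ x ∈ ps, x ∉ qs) →
    (il ps qs).Nodup := by
  intro ps
  induction ps with
  | nil => intro qs _ _ _; simp [il]
  | cons p ps ih =>
    intro qs h1 h2 h3
    cases qs with
    | nil => simp [il]
    | cons q qs =>
      rw [List.nodup_cons] at h1 h2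
      simp only [il, List.nodup_cons, List.mem_cons, not_or]
      refine ⟨⟨?_, ?_⟩, ?_, ?_⟩
      · intro h; exact h3 p (by simp) (by simp [h])
      · intro h
        rcases mem_il h with h | h
        · exact h1.1 h
        · exact h3 p (by simp) (by simp [h])
      · intro h
        rcases mem_il h with h | h
        · exact h3 q (by simp [h]) (by simp)
        · exact h2.1 h
      · exact ih h1.2 h2.2 fun x hx hx' => h3 x (by simp [hx]) (by simp [hx'])

end Run7.h850
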