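import Pool.Agent.Run7.h850.Layout

/-!
Lower bound on the number of terms of a sum of weighted walk counts.
-/

set_option autoImplicit false

namespace Run7.h850

open Finset

variable {α : Type*} [Fintype α] [DecidableEq α] {K : Type*} [Field K] [CharZero K]
variable {s t m c : α} {L P Q : Finset α}

theorem eg_append {G : SimpleGraph α} {u v w : α} (p : G.Walk u v) (q : G.Walk v w) (a b : α) :
    (eg (p.append q)).Adj a b ↔ (eg p).Adj a b ∨ (eg q).Adj a b := by
  simp only [eg, SimpleGraph.fromEdgeSet_adj, SimpleGraph.Walk.edges_append, List.mem_append,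
    Set.mem_ofPred_eq]
  tauto

theorem eg_support {G : SimpleGraph α} {u v : α} (p : G.Walk u v) {a b : α}
    (h : (eg p).Adj a b) : a ∈ p.support := by
  simp only [eg, SimpleGraph.fromEdgeSet_adj] at h
  exact p.fst_mem_support_of_mem_edges h.1

theorem card_lay (h : Lay s t m c L P Q)
    (hcov : ∀ x : α, x = s ∨ x = t ∨ x = m ∨ x = c ∨ x ∈ L ∨ x ∈ P ∨ x ∈ Q) :
    Fintype.card α = 4 + L.card + P.card + Q.card := by
  have h1 : (univ : Finset α) = insert s (insert t (insert m (insert c (L ∪ (P ∪ Q))))) := by
    ext x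
    simp only [mem_univ, mem_insert, mem_union, true_iff]
    have := hcov x
    tauto
  rw [← card_univ, h1, card_insert_of_notMem, card_insert_of_notMem, card_insert_of_notMem,
    card_insert_of_notMem, card_union_of_disjoint, card_union_of_disjoint h.PQ]
  · omega
  · rw [disjoint_union_right]; exact ⟨h.LP, h.LQ⟩
  · simp only [mem_union, not_or]; exact ⟨h.cL, h.cP, h.cQ⟩
  · simp only [mem_insert, mem_union, not_or]; exact ⟨h.mc, h.mL, h.mP, h.mQ⟩
  · simp only [mem_insert, mem_union, not_or]; exact ⟨h.tm, h.tc, h.tL, h.tP, h.tQ⟩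
  · simp only [mem_insert, mem_union, not_or]
    exact ⟨h.st, h.sm, h.sc, h.sL, h.sP, h.sQ⟩

/-- If `f x` and `g y` are vectors of length `R` with `∑ f x * g y` zero iff `x ≠ y`, then there
are at most `R` indices. -/
theorem card_le_of_diag {I : Type*} [Fintype I] {R : ℕ} (f g : I → Fin R → K)
    (h1 : ∀ x, ∑ r, f x r * g x r ≠ 0) (h2 : ∀ x y, x ≠ y → ∑ r, f x r * g y r = 0) :
    Fintype.card I ≤ R := by
  classical
  have hli : LinearIndependent K f := by
    rw [Fintype.linearIndependent_iff]
    intro a ha y
    have h3 : ∑ r, (∑ x, a x • f x) r * g y r = 0 := by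
      rw [ha]; simp
    have h4 : ∑ r, (∑ x, a x • f x) r * g y r = ∑ x, a x * ∑ r, f x r * g y r := by
      simp only [Finset.sum_apply, Pi.smul_apply, smul_eq_mul, sum_mul, mul_sum]
      rw [sum_comm]
      apply sum_congr rfl
      intro x _
      apply sum_congr rfl
      intro r _
      ring
    rw [h4, sum_eq_single y] at h3
    · rcases mul_eq_zero.1 h3 with h5 | h5
      · exact h5
      · exact absurd h5 (h1 y)
    · intro x _ hx
      rw [h2 x y hx, mul_zero]
    · intro h; exact absurd (mem_univ _) h
  have := hli.fintype_card_le_finrank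
  simpa using this

theorem walk_bound (h : Lay s t m c L P Q)
    (hcov : ∀ x : α, x = s ∨ x = t ∨ x = m ∨ x = c ∨ x ∈ L ∨ x ∈ P ∨ x ∈ Q) {q : ℕ}
    (hP : P.card = 2 * q) (hQ : Q.card = 2 * q) {R : ℕ} (ω : Fin R → Sym2 α → K)
    (C : Fin R → α → α → K) (g wg : SimpleGraph α → K) (hg : RepK wg g)
    (hwg : ∀ S, Fintype.card α - 1 ≤ (es S).card → wg S = 0)
    (heq : ∀ G : SimpleGraph α, (Nat.card (G.Path s t) : K) =
      g G + ∑ r, ∑ u, ∑ v, C r u v * (adjW (ω r) G ^ (Fintype.card α - 1)) u v) :
    q.centralBinom ^ 2 ≤ R := by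
  classical
  have hcard := card_lay h hcov
  have hPQ := disjoint_left.1 h.PQ
  set N := Fintype.card α - 1 with hN
  -- coefficients
  have hpow := fun r u v => pow_rep (ω r) N u v
  choose w hw hwS using hpow
  have hrep : RepK (fun S => wg S + ∑ r, ∑ u, ∑ v, C r u v * w r u v S)
      (fun G : SimpleGraph α => (Nat.card (G.Path s t) : K)) := by
    have h1 := hg.add (RepK.sum univ fun r (_ : r ∈ univ) => RepK.sum univ fun u (_ : u ∈ univ) =>
      RepK.sum univ fun v (_ : v ∈ univ) => (hw r u v).smul (C r u v))
    intro G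
    show (Nat.card (G.Path s t) : K) = _
    rw [heq G]
    exact h1 G
  have hcoef := (repK_path (K := K) s t).unique hrep
  -- the coefficient at a graph with `N` edges which is a trail from `s` to `t`
  have hS : ∀ S : SimpleGraph α, (es S).card = N → 0 < tr N s t S →
      (Nat.card {p : (⊤ : SimpleGraph α).Path s t // eg p.1 = S} : K) =
      (∑ r, (C r s t + C r t s) * wt (ω r) S) * tr N s t S := by
    intro S hSc htr
    have h1 := congrFun hcoef S
    rw [h1, hwg S (by omega), zero_add, sum_mul]
    apply sum_congr rfl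
    intro r _
    have h2 : ∀ u v, C r u v * w r u v S = C r u v * (wt (ω r) S * tr N u v S) :=
      fun u v => by rw [(hwS r u v S).2 hSc]
    simp only [h2]
    rw [← sum_product' univ univ (fun u v => C r u v * (wt (ω r) S * (tr N u v S : K)))]
    have hsub : ({(s, t), (t, s)} : Finset (α × α)) ⊆ univ ×ˢ univ := by
      intro x _
      rw [mem_product]
      exact ⟨mem_univ _, mem_univ _⟩
    rw [← sum_subset hsub]
    · rw [sum_pair]
      · simp only
        rw [tr_symm t s hSc]
        ring
      · intro h3
        exact h.st (Prod.mk.inj h3).1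
    · rintro ⟨u, v⟩ _ hnot
      simp only
      have h3 : tr N u v S = 0 := by
        by_contra h4
        have p1 := tr_parity N u v S h4
        have p2 := tr_parity N s t S htr.ne'
        have hs1 := p1 s
        have hs2 := p2 s
        have ht1 := p1 t
        have ht2 := p2 t
        rw [hs1] at hs2
        rw [ht1] at ht2
        rw [if_pos rfl, if_neg h.st] at hs2
        rw [if_pos rfl, if_neg h.st.symm] at ht2
        apply hnot
        rw [mem_insert, mem_singleton, Prod.mk.injEq, Prod.mk.injEq]
        by_cases a1 : s = u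
        · by_cases a2 : s = v
          · rw [if_pos a1, if_pos a2] at hs2; omega
          · by_cases a3 : t = u
            · exact absurd (a1.trans a3.symm) h.st
            · by_cases a4 : t = v
              · exact Or.inl ⟨a1.symm, a4.symm⟩
              · rw [if_neg a3, if_neg a4] at ht2; omega
        · by_cases a2 : s = v
          · by_cases a3 : t = u
            · exact Or.inr ⟨a3.symm, a2.symm⟩
            · by_cases a4 : t = v
              · exact absurd (a2.trans a4.symm) h.st
              · rw [if_neg a3, if_neg a4] at ht2; omega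
          · rw [if_neg a1, if_neg a2] at hs2; omega
      rw [h3, Nat.cast_zero, mul_zero, mul_zero]
  -- the index set and the walks
  set I : Finset (Finset α × Finset α) := powersetCard q P ×ˢ powersetCard q Q with hI
  have hIm : ∀ x : I, x.1.1 ⊆ P ∧ x.1.1.card = q ∧ x.1.2 ⊆ Q ∧ x.1.2.card = q := by
    intro x
    have h1 := mem_product.1 x.2
    rw [mem_powersetCard, mem_powersetCard] at h1
    exact ⟨h1.1.1, h1.1.2, h1.2.1, h1.2.2⟩
  have e1 : ∀ x : I, ∃ p : (⊤ : SimpleGraph α).Walk s m, p.IsPath ∧
      p.support = s :: l1 L x.1.1 x.1.2 ++ [m] ∧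
      ∀ a b, s(a, b) ∈ p.edges → ¬ Ty t m c P Q a b := fun x =>
    exists_w1 h (hIm x).1 (hIm x).2.2.1 ((hIm x).2.1.trans (hIm x).2.2.2.symm)
  have e2 : ∀ x : I, ∃ p : (⊤ : SimpleGraph α).Walk m t, p.IsPath ∧
      p.support = m :: l2 c (P \ x.1.1) (Q \ x.1.2) ++ [t] ∧
      ∀ a b, s(a, b) ∈ p.edges → Ty t m c P Q a b := fun x =>
    exists_w2 h sdiff_subset sdiff_subset
  choose w1 hw1 hs1 ht1 using e1
  choose w2 hw2 hs2 ht2 using e2
  have hlen1 : ∀ x, (w1 x).length = L.card + 2 * q + 1 := by
    intro x
    have h1 := congrArg List.length (hs1 x)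
    rw [SimpleGraph.Walk.length_support] at h1
    unfold l1 at h1
    simp only [List.cons_append, List.length_cons, List.length_append, List.length_nil,
      length_toList] at h1
    rw [il_length (by rw [length_toList, length_toList, (hIm x).2.1, (hIm x).2.2.2]),
      length_toList, (hIm x).2.1] at h1
    omega
  have hlen2 : ∀ x, (w2 x).length = 2 * q + 2 := by
    intro x
    have h1 := congrArg List.length (hs2 x)
    rw [SimpleGraph.Walk.length_support] at h1
    unfold l2 at h1
    simp only [List.cons_append, List.length_cons, List.length_append, List.length_nil,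
      length_toList] at h1
    rw [card_sdiff_of_subset (hIm x).1, card_sdiff_of_subset (hIm x).2.2.1, hP, hQ, (hIm x).2.1,
      (hIm x).2.2.2] at h1
    omega
  have htrail : ∀ x y, ((w1 x).append (w2 y)).IsTrail := by
    intro x y
    rw [SimpleGraph.Walk.isTrail_append]
    refine ⟨(hw1 x).isTrail, (hw2 y).isTrail, ?_⟩
    intro e he he'
    induction e with
    | _ a b => exact ht1 x a b he (ht2 y a b he')
  have hlen : ∀ x y, ((w1 x).append (w2 y)).length = N := by
    intro x y
    rw [SimpleGraph.Walk.length_append, hlen1, hlen2]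
    omega
  have hScard : ∀ x y, (es (eg ((w1 x).append (w2 y)))).card = N := by
    intro x y
    rw [es_trail (htrail x y), hlen]
  have htrpos : ∀ x y, 0 < tr N s t (eg ((w1 x).append (w2 y))) := by
    intro x y
    have := tr_pos _ (htrail x y)
    rwa [hlen] at this
  have hwt : ∀ x y r, wt (ω r) (eg ((w1 x).append (w2 y))) =
      ((w1 x).edges.map (ω r)).prod * ((w2 y).edges.map (ω r)).prod := by
    intro x y r
    rw [wt_trail _ (htrail x y), SimpleGraph.Walk.edges_append, List.map_append, List.prod_append]
  have hmem1 : ∀ x z, z ∈ (w1 x).support → z = s ∨ z ∈ L ∨ z ∈ x.1.1 ∨ z ∈ x.1.2 ∨ z = m := by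
    intro x z hz
    rw [hs1 x] at hz
    unfold l1 at hz
    simp only [List.cons_append, List.append_assoc, List.mem_cons, List.mem_append, mem_toList,
      List.not_mem_nil, or_false] at hz
    rcases hz with hz | hz | hz | hz
    · exact Or.inl hz
    · exact Or.inr (Or.inl hz)
    · rcases mem_il hz with hz | hz
      · exact Or.inr (Or.inr (Or.inl (mem_toList.1 hz)))
      · exact Or.inr (Or.inr (Or.inr (Or.inl (mem_toList.1 hz))))
    · exact Or.inr (Or.inr (Or.inr (Or.inr hz)))
  have hmem2 : ∀ x z, z ∈ (w2 x).support → z = m ∨ (z ∈ P ∧ z ∉ x.1.1) ∨ z = c ∨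
      (z ∈ Q ∧ z ∉ x.1.2) ∨ z = t := by
    intro x z hz
    rw [hs2 x] at hz
    unfold l2 at hz
    simp only [List.cons_append, List.append_assoc, List.mem_cons, List.mem_append, mem_toList,
      List.not_mem_nil, or_false, mem_sdiff] at hz
    exact hz
  -- different indices give no path
  have hne : ∀ x y : I, x ≠ y →
      Nat.card {p : (⊤ : SimpleGraph α).Path s t // eg p.1 = eg ((w1 x).append (w2 y))} = 0 := by
    intro x y hxy
    rw [Nat.card_eq_zero]
    left
    constructor
    rintro ⟨⟨p, hp⟩, hpe⟩
    simp only at hpe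
    obtain ⟨z, hz1, hz2⟩ : ∃ z, (z ∈ (w1 x).support → False) ∧
        (z ∈ (w2 y).support → False) := by
      have hor : x.1.1 ≠ y.1.1 ∨ x.1.2 ≠ y.1.2 := by
        by_contra hcon
        push Not at hcon
        exact hxy (Subtype.ext (Prod.ext hcon.1 hcon.2))
      rcases hor with hor | hor
      · obtain ⟨z, hzy, hzx⟩ : ∃ z ∈ y.1.1, z ∉ x.1.1 := by
          by_contra hcon
          push Not at hcon
          apply hor
          symm
          apply eq_of_subset_of_card_le hcon
          rw [(hIm x).2.1, (hIm y).2.1]
        have hzP := (hIm y).1 hzy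
        refine ⟨z, fun hz => ?_, fun hz => ?_⟩
        · rcases hmem1 x z hz with h1 | h1 | h1 | h1 | h1
          · exact h.sP (h1 ▸ hzP)
          · exact disjoint_left.1 h.LP h1 hzP
          · exact hzx h1
          · exact hPQ hzP ((hIm x).2.2.1 h1)
          · exact h.mP (h1 ▸ hzP)
        · rcases hmem2 y z hz with h1 | h1 | h1 | h1 | h1
          · exact h.mP (h1 ▸ hzP)
          · exact h1.2 hzy
          · exact h.cP (h1 ▸ hzP)
          · exact hPQ hzP h1.1
          · exact h.tP (h1 ▸ hzP)
      · obtain ⟨z, hzy, hzx⟩ : ∃ z ∈ y.1.2, z ∉ x.1.2 := by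
          by_contra hcon
          push Not at hcon
          apply hor
          symm
          apply eq_of_subset_of_card_le hcon
          rw [(hIm x).2.2.2, (hIm y).2.2.2]
        have hzQ := (hIm y).2.2.1 hzy
        refine ⟨z, fun hz => ?_, fun hz => ?_⟩
        · rcases hmem1 x z hz with h1 | h1 | h1 | h1 | h1
          · exact h.sQ (h1 ▸ hzQ)
          · exact disjoint_left.1 h.LQ h1 hzQ
          · exact hPQ ((hIm x).1 h1) hzQ
          · exact hzx h1
          · exact h.mQ (h1 ▸ hzQ)
        · rcases hmem2 y z hz with h1 | h1 | h1 | h1 | h1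
          · exact h.mQ (h1 ▸ hzQ)
          · exact hPQ h1.1 hzQ
          · exact h.cQ (h1 ▸ hzQ)
          · exact h1.2 hzy
          · exact h.tQ (h1 ▸ hzQ)
    have hlenp : p.length = N := by
      rw [← es_trail hp.isTrail, hpe, hScard]
    have hzp : z ∈ p.support := by
      have h1 : p.support.toFinset = univ := by
        apply eq_univ_of_card
        rw [List.toFinset_card_of_nodup hp.support_nodup, SimpleGraph.Walk.length_support, hlenp]
        omega
      rw [← List.mem_toFinset, h1]
      exact mem_univ z
    obtain ⟨u, hu⟩ := (isHam_eg p hp h.st).all z (List.mem_toFinset.2 hzp)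
    rw [hpe, eg_append] at hu
    rcases hu with hu | hu
    · exact hz1 (eg_support _ hu)
    · exact hz2 (eg_support _ hu)
  have heqI : ∀ x : I, 0 <
      Nat.card {p : (⊤ : SimpleGraph α).Path s t // eg p.1 = eg ((w1 x).append (w2 x))} := by
    intro x
    have hpath : ((w1 x).append (w2 x)).IsPath := by
      rw [SimpleGraph.Walk.isPath_def, SimpleGraph.Walk.support_append, List.nodup_append]
      refine ⟨(hw1 x).support_nodup, ?_, ?_⟩
      · exact (hw2 x).support_nodup.tail
      · rintro a ha b hb rfl
        have hb' : a ∈ (w2 x).support := List.mem_of_mem_tail hb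
        have hbm : a ≠ m := by
          rintro rfl
          have h1 := (hw2 x).support_nodup
          rw [hs2 x] at h1 hb
          simp only [List.cons_append, List.nodup_cons, List.tail_cons] at h1 hb
          exact h1.1 hb
        rcases hmem1 x a ha with h1 | h1 | h1 | h1 | h1
        · rcases hmem2 x a hb' with h2 | h2 | h2 | h2 | h2
          · exact hbm h2
          · exact h.sP (h1 ▸ h2.1)
          · exact h.sc (h1.symm.trans h2)
          · exact h.sQ (h1 ▸ h2.1)
          · exact h.st (h1.symm.trans h2)
        · rcases hmem2 x a hb' with h2 | h2 | h2 | h2 | h2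
          · exact hbm h2
          · exact disjoint_left.1 h.LP h1 h2.1
          · exact h.cL (h2 ▸ h1)
          · exact disjoint_left.1 h.LQ h1 h2.1
          · exact h.tL (h2 ▸ h1)
        · have hP' := (hIm x).1 h1
          rcases hmem2 x a hb' with h2 | h2 | h2 | h2 | h2
          · exact hbm h2
          · exact h2.2 h1
          · exact h.cP (h2 ▸ hP')
          · exact hPQ hP' h2.1
          · exact h.tP (h2 ▸ hP')
        · have hQ' := (hIm x).2.2.1 h1
          rcases hmem2 x a hb' with h2 | h2 | h2 | h2 | h2
          · exact hbm h2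
          · exact hPQ h2.1 hQ'
          · exact h.cQ (h2 ▸ hQ')
          · exact h2.2 h1
          · exact h.tQ (h2 ▸ hQ')
        · exact hbm h1
    have : Nonempty {p : (⊤ : SimpleGraph α).Path s t // eg p.1 = eg ((w1 x).append (w2 x))} :=
      ⟨⟨⟨_, hpath⟩, rfl⟩⟩
    exact Nat.card_pos
  have hkey : ∀ x y : I,
      (Nat.card {p : (⊤ : SimpleGraph α).Path s t // eg p.1 = eg ((w1 x).append (w2 y))} : K) =
      (∑ r, ((C r s t + C r t s) * ((w1 x).edges.map (ω r)).prod) *
        ((w2 y).edges.map (ω r)).prod) * tr N s t (eg ((w1 x).append (w2 y))) := by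
    intro x y
    rw [hS _ (hScard x y) (htrpos x y)]
    congr 1
    apply sum_congr rfl
    intro r _
    rw [hwt]
    ring
  have hfin := card_le_of_diag (I := I)
    (fun x r => (C r s t + C r t s) * ((w1 x).edges.map (ω r)).prod)
    (fun y r => ((w2 y).edges.map (ω r)).prod) (by
      intro x h0
      have h1 := hkey x x
      rw [h0, zero_mul, Nat.cast_eq_zero] at h1
      exact (heqI x).ne' h1) (by
      intro x y hxy
      have h1 := hkey x y
      rw [hne x y hxy, Nat.cast_zero] at h1
      rcases mul_eq_zero.1 h1.symm with h2 | h2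
      · exact h2
      · rw [Nat.cast_eq_zero] at h2
        exact absurd h2 (htrpos x y).ne')
  rw [Fintype.card_coe, hI, card_product, card_powersetCard, card_powersetCard, hP, hQ] at hfin
  rw [Nat.centralBinom_eq_two_mul_choose, sq]
  exact hfin

end Run7.h850
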