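import Pool.Agent.Run7.h850.Count

/-!
Functions on graphs as combinations of indicators with coefficients in a field; the coefficients of
entries of powers of weighted adjacency matrices.
-/

set_option autoImplicit false

namespace Run7.h850

open Finset

variable {α : Type*} [Fintype α] [DecidableEq α] {K : Type*} [Field K]

open Classical in
/-- `f` is the combination of the indicators `S ≤ G` with the coefficients `w S`. -/
def RepK (w f : SimpleGraph α → K) : Prop := ∀ G, f G = ∑ S, if S ≤ G then w S else 0

section rep

variable {w w' f g : SimpleGraph α → K}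

theorem RepK.unique (h : RepK w f) (h' : RepK w' f) : w = w' := by
  classical
  funext S
  induction S using WellFoundedLT.induction with
  | ind S ih =>
  have h1 := (h S).symm.trans (h' S)
  rw [← add_sum_erase univ _ (mem_univ S), ← add_sum_erase univ _ (mem_univ S)] at h1
  simp only [le_refl, if_true] at h1
  have h2 : ∑ T ∈ univ.erase S, (if T ≤ S then w T else 0) =
      ∑ T ∈ univ.erase S, (if T ≤ S then w' T else 0) := by
    apply sum_congr rfl
    intro T hT
    split_ifs with h3
    · exact ih T (lt_of_le_of_ne h3 (mem_erase.1 hT).1)
    · rfl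
  rw [h2] at h1
  exact add_right_cancel h1

theorem RepK.zero : RepK (fun _ => 0) (fun _ : SimpleGraph α => (0 : K)) := by
  classical
  intro G
  simp

theorem RepK.add (h : RepK w f) (h' : RepK w' g) :
    RepK (fun S => w S + w' S) (fun G => f G + g G) := by
  classical
  intro G
  simp only
  rw [h G, h' G, ← sum_add_distrib]
  apply sum_congr rfl
  intro S _
  split_ifs <;> simp

theorem RepK.smul (h : RepK w f) (a : K) : RepK (fun S => a * w S) (fun G => a * f G) := by
  classical
  intro G
  simp only
  rw [h G, mul_sum]
  apply sum_congr rfl
  intro S _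
  split_ifs <;> simp

theorem RepK.sum {J : Type*} (s : Finset J) {w f : J → SimpleGraph α → K}
    (h : ∀ j ∈ s, RepK (w j) (f j)) : RepK (fun S => ∑ j ∈ s, w j S) (fun G => ∑ j ∈ s, f j G) := by
  classical
  induction s using Finset.induction_on with
  | empty => simpa using RepK.zero
  | insert a s ha ih =>
    simp only [sum_insert ha]
    exact (h a (mem_insert_self a s)).add (ih fun j hj => h j (mem_insert_of_mem hj))

open Classical in
/-- the coefficients of a product -/
noncomputable def cvK (w w' : SimpleGraph α → K) (S : SimpleGraph α) : K :=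
  ∑ T, ∑ T', if T ⊔ T' = S then w T * w' T' else 0

theorem RepK.mul (h : RepK w f) (h' : RepK w' g) : RepK (cvK w w') (fun G => f G * g G) := by
  classical
  intro G
  calc f G * g G = ∑ T, ∑ T', (if T ≤ G then w T else 0) * (if T' ≤ G then w' T' else 0) := by
        rw [h G, h' G, sum_mul_sum]
    _ = ∑ T, ∑ T', ∑ S, if T ⊔ T' = S then (if S ≤ G then w T * w' T' else 0) else 0 := by
        apply sum_congr rfl
        intro T _
        apply sum_congr rfl
        intro T' _
        rw [sum_ite_eq, if_pos (mem_univ _)]
        by_cases h1 : T ≤ G
        · by_cases h2 : T' ≤ G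
          · rw [if_pos h1, if_pos h2, if_pos (sup_le h1 h2)]
          · rw [if_neg h2, if_neg (fun h3 => h2 (le_sup_right.trans h3)), mul_zero]
        · rw [if_neg h1, if_neg (fun h3 => h1 (le_sup_left.trans h3)), zero_mul]
    _ = ∑ T, ∑ S, ∑ T', if T ⊔ T' = S then (if S ≤ G then w T * w' T' else 0) else 0 := by
        apply sum_congr rfl
        intro T _
        exact sum_comm
    _ = ∑ S, ∑ T, ∑ T', if T ⊔ T' = S then (if S ≤ G then w T * w' T' else 0) else 0 :=
        sum_comm
    _ = _ := by
        apply sum_congr rfl
        intro S _
        by_cases h1 : S ≤ G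
        · simp only [h1, if_true]; rfl
        · simp only [h1, if_false, ite_self, sum_const_zero]

end rep

open Classical in
/-- the edges of a graph -/
noncomputable def es (S : SimpleGraph α) : Finset (Sym2 α) := univ.filter fun e => e ∈ S.edgeSet

theorem mem_es {S : SimpleGraph α} {e : Sym2 α} : e ∈ es S ↔ e ∈ S.edgeSet := by
  classical simp [es]

theorem es_card (S : SimpleGraph α) : (es S).card = S.edgeSet.ncard := by
  rw [← Set.ncard_coe_finset]
  congr 1
  ext e
  rw [mem_coe, mem_es]

theorem es_bot : es (⊥ : SimpleGraph α) = ∅ := by
  ext e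
  rw [mem_es]
  simp

theorem es_eq_empty {S : SimpleGraph α} (h : (es S).card = 0) : S = ⊥ := by
  rw [card_eq_zero] at h
  ext u v
  simp only [SimpleGraph.bot_adj, iff_false]
  intro huv
  have : s(u, v) ∈ es S := mem_es.2 huv
  rw [h] at this
  exact absurd this (notMem_empty _)

theorem es_sup_edge (T : SimpleGraph α) {u x : α} (h : u ≠ x) :
    es (T ⊔ SimpleGraph.edge u x) = insert s(u, x) (es T) := by
  ext e
  rw [mem_es, mem_insert, mem_es]
  induction e with
  | _ a b =>
  rw [SimpleGraph.mem_edgeSet, SimpleGraph.sup_adj, SimpleGraph.edge_adj, Sym2.eq_iff,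
    SimpleGraph.mem_edgeSet]
  constructor
  · rintro (h1 | ⟨h1, _⟩)
    · exact Or.inr h1
    · exact Or.inl h1
  · rintro (h1 | h1)
    · right
      refine ⟨h1, ?_⟩
      rcases h1 with ⟨rfl, rfl⟩ | ⟨rfl, rfl⟩
      · exact h
      · exact h.symm
    · exact Or.inl h1

/-- the weight of a graph: the product of the weights of its edges -/
noncomputable def wt (ω : Sym2 α → K) (S : SimpleGraph α) : K := ∏ e ∈ es S, ω e

/-- the number of trails from `u` to `v` with `k` edges whose set of edges is `S` -/
noncomputable def tr : ℕ → α → α → SimpleGraph α → ℕ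
  | 0, u, v, S => by classical exact if u = v ∧ S = ⊥ then 1 else 0
  | k + 1, u, v, S => by
      classical exact ∑ x, if S.Adj u x then tr k x v (S \ SimpleGraph.edge u x) else 0

open Classical in
/-- weighted adjacency matrix -/
noncomputable def adjW (ω : Sym2 α → K) (G : SimpleGraph α) : Matrix α α K :=
  fun u v => if G.Adj u v then ω s(u, v) else 0

theorem sdiff_sup_edge {S : SimpleGraph α} {u x : α} (h : S.Adj u x) :
    S \ SimpleGraph.edge u x ⊔ SimpleGraph.edge u x = S := by
  ext a b
  rw [SimpleGraph.sup_adj, SimpleGraph.sdiff_adj, SimpleGraph.edge_adj]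
  constructor
  · rintro (⟨h1, _⟩ | ⟨⟨rfl, rfl⟩ | ⟨rfl, rfl⟩, _⟩)
    · exact h1
    · exact h
    · exact h.symm
  · intro h1
    by_cases h2 : (a = u ∧ b = x ∨ a = x ∧ b = u) ∧ a ≠ b
    · exact Or.inr h2
    · exact Or.inl ⟨h1, h2⟩

theorem sup_edge_sdiff {T : SimpleGraph α} {u x : α} (h : ¬ T.Adj u x) :
    (T ⊔ SimpleGraph.edge u x) \ SimpleGraph.edge u x = T := by
  ext a b
  rw [SimpleGraph.sdiff_adj, SimpleGraph.sup_adj, SimpleGraph.edge_adj]
  constructor
  · rintro ⟨h1 | h1, h2⟩
    · exact h1
    · exact absurd h1 h2
  · intro h1
    refine ⟨Or.inl h1, ?_⟩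
    rintro ⟨⟨rfl, rfl⟩ | ⟨rfl, rfl⟩, _⟩
    · exact h h1
    · exact h h1.symm

theorem es_sdiff_card {S : SimpleGraph α} {u x : α} (h : S.Adj u x) :
    (es (S \ SimpleGraph.edge u x)).card + 1 = (es S).card := by
  conv_rhs => rw [← sdiff_sup_edge h, es_sup_edge _ h.ne]
  rw [card_insert_of_notMem]
  rw [mem_es, SimpleGraph.mem_edgeSet, SimpleGraph.sdiff_adj, SimpleGraph.edge_adj]
  have := h.ne
  tauto

theorem wt_sdiff (ω : Sym2 α → K) {S : SimpleGraph α} {u x : α} (h : S.Adj u x) :
    wt ω S = ω s(u, x) * wt ω (S \ SimpleGraph.edge u x) := by
  unfold wt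
  conv_lhs => rw [← sdiff_sup_edge h, es_sup_edge _ h.ne]
  rw [prod_insert]
  rw [mem_es, SimpleGraph.mem_edgeSet, SimpleGraph.sdiff_adj, SimpleGraph.edge_adj]
  have := h.ne
  tauto

/-- The coefficients of the entries of the powers of the weighted adjacency matrix. -/
theorem pow_rep (ω : Sym2 α → K) : ∀ (k : ℕ) (u v : α), ∃ w : SimpleGraph α → K,
    RepK w (fun G => (adjW ω G ^ k) u v) ∧
    ∀ S, (k < (es S).card → w S = 0) ∧ ((es S).card = k → w S = wt ω S * tr k u v S) := by
  classical
  intro k
  induction k with
  | zero =>
    intro u v
    refine ⟨fun S => if u = v ∧ S = ⊥ then 1 else 0, ?_, ?_⟩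
    · intro G
      simp only [pow_zero]
      by_cases h : u = v
      · subst h
        simp only [Matrix.one_apply_eq, true_and]
        rw [sum_eq_single ⊥]
        · simp
        · intro S _ hS
          simp [hS]
        · intro h; exact absurd (mem_univ _) h
      · rw [Matrix.one_apply_ne h]
        simp [h]
    · intro S
      constructor
      · intro h
        simp only
        rw [if_neg]
        rintro ⟨_, rfl⟩
        rw [es_bot, card_empty] at h
        exact absurd h (lt_irrefl 0)
      · intro h
        have hS := es_eq_empty h
        subst hS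
        unfold wt tr
        rw [es_bot, prod_empty, one_mul]
        by_cases h2 : u = v
        · simp [h2]
        · simp [h2]
  | succ k ih =>
    intro u v
    have ih' := fun x => ih x v
    choose w hw hS using ih'
    -- coefficients of a single entry
    have h1 : ∀ x, RepK (fun S => if u ≠ x ∧ S = SimpleGraph.edge u x then ω s(u, x) else 0)
        (fun G : SimpleGraph α => adjW ω G u x) := by
      intro x G
      simp only [adjW]
      by_cases hux : u = x
      · subst hux
        simp
      · rw [sum_eq_single (SimpleGraph.edge u x)]
        · have : SimpleGraph.edge u x ≤ G ↔ G.Adj u x := by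
            constructor
            · intro h
              apply h
              rw [SimpleGraph.edge_adj]
              exact ⟨Or.inl ⟨rfl, rfl⟩, hux⟩
            · intro h a b hab
              rw [SimpleGraph.edge_adj] at hab
              rcases hab.1 with ⟨rfl, rfl⟩ | ⟨rfl, rfl⟩
              · exact h
              · exact h.symm
          simp [this, hux]
        · intro S _ hS
          simp [hS]
        · intro h; exact absurd (mem_univ _) h
    refine ⟨fun S => ∑ x, cvK (fun S => if u ≠ x ∧ S = SimpleGraph.edge u x then ω s(u, x) else 0)
      (w x) S, ?_, ?_⟩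
    · have h2 := RepK.sum univ fun x _ => (h1 x).mul (hw x)
      intro G
      have h3 := h2 G
      simp only at h3 ⊢
      rw [← h3, pow_succ', Matrix.mul_apply]
    · -- the convolution
      have hcv : ∀ x S, cvK (fun S => if u ≠ x ∧ S = SimpleGraph.edge u x then ω s(u, x) else 0)
          (w x) S = ∑ T, if u ≠ x ∧ SimpleGraph.edge u x ⊔ T = S then ω s(u, x) * w x T else 0 := by
        intro x S
        unfold cvK
        rw [sum_comm]
        apply sum_congr rfl
        intro T _
        rw [sum_eq_single (SimpleGraph.edge u x)]
        · by_cases h2 : u = x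
          · simp [h2]
          · simp [h2]
        · intro T' _ hT'
          simp [hT']
        · intro h; exact absurd (mem_univ _) h
      intro S
      simp only [hcv]
      constructor
      · intro hk
        apply sum_eq_zero
        intro x _
        apply sum_eq_zero
        intro T _
        split_ifs with h2
        · have h3 := es_sup_edge T h2.1
          rw [sup_comm, h2.2] at h3
          have h4 := card_insert_le s(u, x) (es T)
          rw [← h3] at h4
          rw [(hS x T).1 (by omega), mul_zero]
        · rfl
      · intro hk
        have h5 : ∀ x, (∑ T, if u ≠ x ∧ SimpleGraph.edge u x ⊔ T = S then ω s(u, x) * w x T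
            else 0) = wt ω S * ((if S.Adj u x then tr k x v (S \ SimpleGraph.edge u x) else 0 : ℕ) : K) := by
          intro x
          by_cases hux : S.Adj u x
          · rw [if_pos hux, sum_eq_single (S \ SimpleGraph.edge u x)]
            · rw [if_pos ⟨hux.ne, by rw [sup_comm]; exact sdiff_sup_edge hux⟩]
              have h6 := es_sdiff_card hux
              rw [(hS x _).2 (by omega), wt_sdiff ω hux]
              ring
            · intro T _ hT
              split_ifs with h2
              · have hTx : T.Adj u x := by
                  by_contra h7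
                  apply hT
                  rw [← h2.2, sup_comm, sup_edge_sdiff h7]
                have h8 : T = S := by
                  rw [← h2.2]
                  symm
                  rw [sup_eq_right]
                  intro a b hab
                  rw [SimpleGraph.edge_adj] at hab
                  rcases hab.1 with ⟨rfl, rfl⟩ | ⟨rfl, rfl⟩
                  · exact hTx
                  · exact hTx.symm
                rw [(hS x T).1 (by rw [h8]; omega), mul_zero]
              · rfl
            · intro h; exact absurd (mem_univ _) h
          · rw [if_neg hux, Nat.cast_zero, mul_zero]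
            apply sum_eq_zero
            intro T _
            rw [if_neg]
            rintro ⟨h2, h3⟩
            apply hux
            rw [← h3, SimpleGraph.sup_adj, SimpleGraph.edge_adj]
            exact Or.inl ⟨Or.inl ⟨rfl, rfl⟩, h2⟩
        simp only [h5]
        rw [← mul_sum, ← Nat.cast_sum]
        rfl

end Run7.h850
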